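import Mathlib
set_option autoImplicit false

/-! Non-stationary phase of second order; functions with two bounded derivatives. -/

namespace Pool.Agent.W5h47.Iso

open MeasureTheory Set Complex
open scoped ENNReal NNReal

/-- non-stationary phase of second order -/
theorem ns {a b : ℝ} (hab : a ≤ b) (B B1 B2 φ φ1 φ2 φ3 : ℝ → ℝ)
    (hB : ∀ x ∈ Icc a b, HasDerivAt B (B1 x) x) (hB1 : ∀ x ∈ Icc a b, HasDerivAt B1 (B2 x) x)
    (hφ : ∀ x ∈ Icc a b, HasDerivAt φ (φ1 x) x) (hφ1 : ∀ x ∈ Icc a b, HasDerivAt φ1 (φ2 x) x)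
    (hφ2 : ∀ x ∈ Icc a b, HasDerivAt φ2 (φ3 x) x)
    (hB2c : ContinuousOn B2 (Icc a b)) (hφ3c : ContinuousOn φ3 (Icc a b))
    (hBa : B a = 0) (hBb : B b = 0) (hB1a : B1 a = 0) (hB1b : B1 b = 0)
    {K Λ lam : ℝ} (hlam : 0 < lam)
    (h0 : ∀ x ∈ Icc a b, |B x| ≤ K) (h1 : ∀ x ∈ Icc a b, |B1 x| ≤ K)
    (h2 : ∀ x ∈ Icc a b, |B2 x| ≤ K)
    (hl : ∀ x ∈ Icc a b, lam ≤ |φ1 x|) (hφ2b : ∀ x ∈ Icc a b, |φ2 x| ≤ Λ * lam)
    (hφ3b : ∀ x ∈ Icc a b, |φ3 x| ≤ Λ * lam) :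
    ‖∫ x in a..b, (B x : ℂ) * cexp ((φ x : ℂ) * I)‖ ≤
      (K * (1 + 4 * Λ + 3 * Λ ^ 2) / lam ^ 2) * (b - a) := by
  have hne : ∀ x ∈ Icc a b, φ1 x ≠ 0 := by
    intro x hx h
    have := hl x hx
    rw [h, abs_zero] at this
    linarith
  set p : ℝ → ℝ := fun x => B x / φ1 x with hp
  set p' : ℝ → ℝ := fun x => (B1 x * φ1 x - B x * φ2 x) / φ1 x ^ 2 with hp'
  set G : ℝ → ℝ := fun x => B1 x / φ1 x ^ 2 - B x * φ2 x / φ1 x ^ 3 with hG
  set G' : ℝ → ℝ := fun x => B2 x / φ1 x ^ 2 - 3 * B1 x * φ2 x / φ1 x ^ 3 -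
    B x * φ3 x / φ1 x ^ 3 + 3 * B x * φ2 x ^ 2 / φ1 x ^ 4 with hG'
  have hpd : ∀ x ∈ Icc a b, HasDerivAt p (p' x) x := fun x hx =>
    (hB x hx).div (hφ1 x hx) (hne x hx)
  have hGd : ∀ x ∈ Icc a b, HasDerivAt G (G' x) x := by
    intro x hx
    have n := hne x hx
    have d1 := (hB1 x hx).div ((hφ1 x hx).pow 2) (pow_ne_zero 2 n)
    have d2 := ((hB x hx).mul (hφ2 x hx)).div ((hφ1 x hx).pow 3) (pow_ne_zero 3 n)
    have d3 := d1.sub d2
    refine d3.congr_deriv ?_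
    simp only [hG', Pi.mul_apply, Pi.pow_apply]
    field_simp
    ring
  have hcB : ContinuousOn B (Icc a b) := fun x hx => (hB x hx).continuousAt.continuousWithinAt
  have hcB1 : ContinuousOn B1 (Icc a b) := fun x hx => (hB1 x hx).continuousAt.continuousWithinAt
  have hcφ : ContinuousOn φ (Icc a b) := fun x hx => (hφ x hx).continuousAt.continuousWithinAt
  have hcφ1 : ContinuousOn φ1 (Icc a b) := fun x hx => (hφ1 x hx).continuousAt.continuousWithinAt
  have hcφ2 : ContinuousOn φ2 (Icc a b) := fun x hx => (hφ2 x hx).continuousAt.continuousWithinAt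
  have hcG' : ContinuousOn G' (Icc a b) := by
    apply ContinuousOn.add
    · apply ContinuousOn.sub
      · apply ContinuousOn.sub
        · exact hB2c.div (hcφ1.pow 2) fun x hx => pow_ne_zero 2 (hne x hx)
        · exact ((continuousOn_const.mul hcB1).mul hcφ2).div (hcφ1.pow 3)
            fun x hx => pow_ne_zero 3 (hne x hx)
      · exact (hcB.mul hφ3c).div (hcφ1.pow 3) fun x hx => pow_ne_zero 3 (hne x hx)
    · exact ((continuousOn_const.mul hcB).mul (hcφ2.pow 2)).div (hcφ1.pow 4)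
        fun x hx => pow_ne_zero 4 (hne x hx)
  set Ψ : ℝ → ℂ := fun x => (-I * ((p x : ℝ) : ℂ) + ((G x : ℝ) : ℂ)) * cexp ((φ x : ℂ) * I) with hΨ
  have hcE : ContinuousOn (fun x => cexp ((φ x : ℂ) * I)) (Icc a b) :=
    Complex.continuous_exp.comp_continuousOn
      ((continuous_ofReal.comp_continuousOn hcφ).mul continuousOn_const)
  have i1 : IntervalIntegrable (fun x => (B x : ℂ) * cexp ((φ x : ℂ) * I)) volume a b := by
    apply ContinuousOn.intervalIntegrable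
    rw [uIcc_of_le hab]
    exact (continuous_ofReal.comp_continuousOn hcB).mul hcE
  have i2 : IntervalIntegrable (fun x => ((G' x : ℝ) : ℂ) * cexp ((φ x : ℂ) * I)) volume a b := by
    apply ContinuousOn.intervalIntegrable
    rw [uIcc_of_le hab]
    exact (continuous_ofReal.comp_continuousOn hcG').mul hcE
  have hftc := intervalIntegral.integral_eq_sub_of_hasDerivAt (a := a) (b := b) (f := Ψ)
    (f' := fun x => (B x : ℂ) * cexp ((φ x : ℂ) * I) +
      ((G' x : ℝ) : ℂ) * cexp ((φ x : ℂ) * I)) (by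
      intro x hx
      rw [uIcc_of_le hab] at hx
      have n := hne x hx
      have e1 := ((hφ x hx).ofReal_comp.mul_const I).cexp
      have e2 := ((hpd x hx).ofReal_comp.const_mul (-I)).add (hGd x hx).ofReal_comp
      have e3 := e2.mul e1
      refine e3.congr_deriv ?_
      have n' : ((φ1 x : ℝ) : ℂ) ≠ 0 := by exact_mod_cast n
      have hk : ((p' x : ℝ) : ℂ) = ((G x : ℝ) : ℂ) * ((φ1 x : ℝ) : ℂ) := by
        rw [hp', hG]
        push_cast
        field_simp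
      have hk2 : ((p x : ℝ) : ℂ) * ((φ1 x : ℝ) : ℂ) = ((B x : ℝ) : ℂ) := by
        rw [hp]
        push_cast
        field_simp
      simp only [Pi.add_apply]
      rw [← hk2, hk]
      have hI : I * I = -1 := I_mul_I
      linear_combination (-(((p x : ℝ) : ℂ) * ((φ1 x : ℝ) : ℂ) * cexp ((φ x : ℂ) * I))) * hI)
    (i1.add i2)
  have hz : Ψ b - Ψ a = 0 := by
    have e1 : p a = 0 := by rw [hp]; simp only; rw [hBa, zero_div]
    have e2 : p b = 0 := by rw [hp]; simp only; rw [hBb, zero_div]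
    have e3 : G a = 0 := by rw [hG]; simp only; rw [hBa, hB1a]; simp
    have e4 : G b = 0 := by rw [hG]; simp only; rw [hBb, hB1b]; simp
    rw [hΨ]
    simp only
    rw [e1, e2, e3, e4]
    simp
  rw [hz, intervalIntegral.integral_add i1 i2] at hftc
  have heq : ∫ x in a..b, (B x : ℂ) * cexp ((φ x : ℂ) * I) =
      -∫ x in a..b, ((G' x : ℝ) : ℂ) * cexp ((φ x : ℂ) * I) := eq_neg_of_add_eq_zero_left hftc
  rw [heq, norm_neg]
  have hbd : ∀ x ∈ uIoc a b, ‖((G' x : ℝ) : ℂ) * cexp ((φ x : ℂ) * I)‖ ≤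
      K * (1 + 4 * Λ + 3 * Λ ^ 2) / lam ^ 2 := by
    intro x hx
    rw [uIoc_of_le hab] at hx
    have hx' : x ∈ Icc a b := ⟨hx.1.le, hx.2⟩
    rw [norm_mul, Complex.norm_exp_ofReal_mul_I, mul_one, Complex.norm_real, Real.norm_eq_abs]
    have n := hne x hx'
    have q0 := h0 x hx'
    have q1 := h1 x hx'
    have q2 := h2 x hx'
    have q3 := hl x hx'
    have q4 := hφ2b x hx'
    have q5 := hφ3b x hx'
    have hK : 0 ≤ K := (abs_nonneg _).trans q0
    set f := |φ1 x| with hf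
    have hf0 : 0 < f := lt_of_lt_of_le hlam q3
    have hΛ : 0 ≤ Λ * lam := (abs_nonneg _).trans q4
    have hΛ0 : 0 ≤ Λ := by
      by_contra h
      push Not at h
      nlinarith
    have b1 : |B2 x / φ1 x ^ 2| ≤ K / lam ^ 2 := by
      rw [abs_div, abs_pow, ← hf]
      gcongr
    have b2 : |3 * B1 x * φ2 x / φ1 x ^ 3| ≤ 3 * K * Λ / lam ^ 2 := by
      rw [abs_div, abs_mul, abs_mul, abs_pow, ← hf, abs_of_pos (by norm_num : (0:ℝ) < 3)]
      calc 3 * |B1 x| * |φ2 x| / f ^ 3 ≤ 3 * K * (Λ * lam) / lam ^ 3 := by gcongr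
        _ = 3 * K * Λ / lam ^ 2 := by field_simp
    have b3 : |B x * φ3 x / φ1 x ^ 3| ≤ K * Λ / lam ^ 2 := by
      rw [abs_div, abs_mul, abs_pow, ← hf]
      calc |B x| * |φ3 x| / f ^ 3 ≤ K * (Λ * lam) / lam ^ 3 := by gcongr
        _ = K * Λ / lam ^ 2 := by field_simp
    have b4 : |3 * B x * φ2 x ^ 2 / φ1 x ^ 4| ≤ 3 * K * Λ ^ 2 / lam ^ 2 := by
      rw [abs_div, abs_mul, abs_mul, abs_pow, abs_pow, ← hf, abs_of_pos (by norm_num : (0:ℝ) < 3)]
      calc 3 * |B x| * |φ2 x| ^ 2 / f ^ 4 ≤ 3 * K * (Λ * lam) ^ 2 / lam ^ 4 := by gcongr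
        _ = 3 * K * Λ ^ 2 / lam ^ 2 := by field_simp
    have htri : |G' x| ≤ |B2 x / φ1 x ^ 2| + |3 * B1 x * φ2 x / φ1 x ^ 3| +
        |B x * φ3 x / φ1 x ^ 3| + |3 * B x * φ2 x ^ 2 / φ1 x ^ 4| := by
      rw [hG']
      simp only
      refine (abs_add_le _ _).trans ?_
      refine add_le_add ?_ le_rfl
      refine (abs_sub _ _).trans ?_
      refine add_le_add ?_ le_rfl
      exact abs_sub _ _
    refine htri.trans ?_
    have : K * (1 + 4 * Λ + 3 * Λ ^ 2) / lam ^ 2 = K / lam ^ 2 + 3 * K * Λ / lam ^ 2 +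
        K * Λ / lam ^ 2 + 3 * K * Λ ^ 2 / lam ^ 2 := by ring
    rw [this]
    linarith
  have := intervalIntegral.norm_integral_le_of_norm_le_const hbd
  rwa [abs_of_nonneg (by linarith : 0 ≤ b - a)] at this

/-- a function with two derivatives on a set, all bounded by `K` -/
structure C2 (s : Set ℝ) (K : ℝ) (f f1 f2 : ℝ → ℝ) : Prop where
  d0 : ∀ x ∈ s, HasDerivAt f (f1 x) x
  d1 : ∀ x ∈ s, HasDerivAt f1 (f2 x) x
  c2 : ContinuousOn f2 s
  b0 : ∀ x ∈ s, |f x| ≤ K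
  b1 : ∀ x ∈ s, |f1 x| ≤ K
  b2 : ∀ x ∈ s, |f2 x| ≤ K

lemma C2.mul {s : Set ℝ} {K L : ℝ} {f f1 f2 g g1 g2 : ℝ → ℝ} (hf : C2 s K f f1 f2)
    (hg : C2 s L g g1 g2) : C2 s (4 * (K * L)) (fun x => f x * g x)
      (fun x => f1 x * g x + f x * g1 x) (fun x => f2 x * g x + 2 * (f1 x * g1 x) + f x * g2 x) := by
  have cf : ContinuousOn f s := fun x hx => (hf.d0 x hx).continuousAt.continuousWithinAt
  have cg : ContinuousOn g s := fun x hx => (hg.d0 x hx).continuousAt.continuousWithinAt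
  have cf1 : ContinuousOn f1 s := fun x hx => (hf.d1 x hx).continuousAt.continuousWithinAt
  have cg1 : ContinuousOn g1 s := fun x hx => (hg.d1 x hx).continuousAt.continuousWithinAt
  have hm : ∀ {u v : ℝ} , |u| ≤ K → |v| ≤ L → |u * v| ≤ K * L := by
    intro u v hu hv
    rw [abs_mul]
    exact mul_le_mul hu hv (abs_nonneg _) ((abs_nonneg _).trans hu)
  refine ⟨fun x hx => (hf.d0 x hx).mul (hg.d0 x hx), fun x hx => ?_, ?_, fun x hx => ?_,
    fun x hx => ?_, fun x hx => ?_⟩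
  · refine (((hf.d1 x hx).mul (hg.d0 x hx)).add ((hf.d0 x hx).mul (hg.d1 x hx))).congr_deriv ?_
    ring
  · exact ((hf.c2.mul cg).add (continuousOn_const.mul (cf1.mul cg1))).add (cf.mul hg.c2)
  · have h1 := hm (hf.b0 x hx) (hg.b0 x hx)
    have h2 := (abs_nonneg _).trans h1
    linarith
  · have h1 := hm (hf.b1 x hx) (hg.b0 x hx)
    have h2 := hm (hf.b0 x hx) (hg.b1 x hx)
    have h3 := abs_add_le (f1 x * g x) (f x * g1 x)
    have h4 := (abs_nonneg _).trans h1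
    linarith
  · have h1 := hm (hf.b2 x hx) (hg.b0 x hx)
    have h2 := hm (hf.b1 x hx) (hg.b1 x hx)
    have h3 := hm (hf.b0 x hx) (hg.b2 x hx)
    have h4 := abs_add_le (f2 x * g x + 2 * (f1 x * g1 x)) (f x * g2 x)
    have h5 := abs_add_le (f2 x * g x) (2 * (f1 x * g1 x))
    have h6 : |2 * (f1 x * g1 x)| = 2 * |f1 x * g1 x| := by
      rw [abs_mul, abs_of_pos (by norm_num : (0:ℝ) < 2)]
    linarith

/-- mixed differences of a function with a bounded Lipschitz derivative -/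
lemma mixed {g g1 : ℝ → ℝ} {G : ℝ} (hg : ∀ x ∈ Icc (0:ℝ) 1, HasDerivAt g (g1 x) x)
    (hb : ∀ x ∈ Icc (0:ℝ) 1, |g1 x| ≤ G)
    (hL : ∀ x ∈ Icc (0:ℝ) 1, ∀ y ∈ Icc (0:ℝ) 1, |g1 x - g1 y| ≤ G * |x - y|)
    {α β α' β' : ℝ} (hα : α ∈ Icc (0:ℝ) 1) (hβ : β ∈ Icc (0:ℝ) 1) (hα' : α' ∈ Icc (0:ℝ) 1)
    (hβ' : β' ∈ Icc (0:ℝ) 1) :
    |(g α - g β) - (g α' - g β')| ≤
      4 * G * (|(α - β) - (α' - β')| + |α - β| * |(α + β) - (α' + β')|) := by
  have hG : 0 ≤ G := (abs_nonneg _).trans (hb α hα)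
  set S := α - β with hS
  set dS := (α - β) - (α' - β') with hdS
  set dW := (α + β) - (α' + β') with hdW
  have hpath : ∀ {x x' θ : ℝ}, x ∈ Icc (0:ℝ) 1 → x' ∈ Icc (0:ℝ) 1 → θ ∈ Icc (0:ℝ) 1 →
      x + θ * (x' - x) ∈ Icc (0:ℝ) 1 := by
    intro x x' θ hx hx' hθ
    obtain ⟨h1, h2⟩ := hx
    obtain ⟨h3, h4⟩ := hx'
    obtain ⟨h5, h6⟩ := hθ
    constructor <;> nlinarith
  set P : ℝ → ℝ := fun θ => g (α + θ * (α' - α)) - g (β + θ * (β' - β)) with hP
  have hd : ∀ θ ∈ Icc (0:ℝ) 1, HasDerivWithinAt P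
      (g1 (α + θ * (α' - α)) * (α' - α) - g1 (β + θ * (β' - β)) * (β' - β)) (Icc 0 1) θ := by
    intro θ hθ
    have l1 : HasDerivAt (fun θ : ℝ => α + θ * (α' - α)) (α' - α) θ := by
      have := ((hasDerivAt_id θ).mul_const (α' - α)).const_add α
      simpa using this
    have l2 : HasDerivAt (fun θ : ℝ => β + θ * (β' - β)) (β' - β) θ := by
      have := ((hasDerivAt_id θ).mul_const (β' - β)).const_add β
      simpa using this
    have h1 := (hg _ (hpath hα hα' hθ)).comp θ l1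
    have h2 := (hg _ (hpath hβ hβ' hθ)).comp θ l2
    exact (h1.sub h2).hasDerivWithinAt
  have hbd : ∀ θ ∈ Ico (0:ℝ) 1, ‖g1 (α + θ * (α' - α)) * (α' - α) -
      g1 (β + θ * (β' - β)) * (β' - β)‖ ≤ 4 * G * (|dS| + |S| * |dW|) := by
    intro θ hθ
    have hθ' : θ ∈ Icc (0:ℝ) 1 := ⟨hθ.1, hθ.2.le⟩
    have k1 := hb _ (hpath hα hα' hθ')
    have k2 := hL _ (hpath hα hα' hθ') _ (hpath hβ hβ' hθ')
    set A := α + θ * (α' - α) with hA
    set B := β + θ * (β' - β) with hB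
    have e1 : g1 A * (α' - α) - g1 B * (β' - β) =
        g1 A * (-dS) + (g1 A - g1 B) * (β' - β) := by
      rw [hdS]
      ring
    rw [Real.norm_eq_abs, e1]
    refine (abs_add_le _ _).trans ?_
    rw [abs_mul, abs_mul, abs_neg]
    have e2 : A - B = S - θ * dS := by rw [hA, hB, hS, hdS]; ring
    have e3 : |A - B| ≤ |S| + |dS| := by
      rw [e2]
      refine (abs_sub _ _).trans ?_
      rw [abs_mul, abs_of_nonneg hθ.1]
      have := abs_nonneg dS
      have : θ * |dS| ≤ 1 * |dS| := mul_le_mul_of_nonneg_right hθ.2.le this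
      linarith
    have e4 : β' - β = (dS - dW) / 2 := by rw [hdS, hdW]; ring
    have e5 : |β' - β| ≤ (|dS| + |dW|) / 2 := by
      rw [e4, abs_div, abs_of_pos (by norm_num : (0:ℝ) < 2)]
      have := abs_sub dS dW
      linarith
    have hS1 : |S| ≤ 1 := by
      rw [hS, abs_le]
      constructor <;> linarith [hα.1, hα.2, hβ.1, hβ.2]
    have hdW2 : |dW| ≤ 2 := by
      rw [hdW, abs_le]
      constructor <;> linarith [hα.1, hα.2, hβ.1, hβ.2, hα'.1, hα'.2, hβ'.1, hβ'.2]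
    have hdS2 : |dS| ≤ 2 := by
      rw [hdS, abs_le]
      constructor <;> linarith [hα.1, hα.2, hβ.1, hβ.2, hα'.1, hα'.2, hβ'.1, hβ'.2]
    have n1 := abs_nonneg S
    have n2 := abs_nonneg dS
    have n3 := abs_nonneg dW
    have f1 : |g1 A| * |dS| ≤ G * |dS| := mul_le_mul_of_nonneg_right k1 n2
    have f2 : |g1 A - g1 B| * |β' - β| ≤ (G * (|S| + |dS|)) * ((|dS| + |dW|) / 2) := by
      apply mul_le_mul _ e5 (abs_nonneg _) (by positivity)
      exact k2.trans (mul_le_mul_of_nonneg_left e3 hG)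
    have f3 : (|S| + |dS|) * ((|dS| + |dW|) / 2) ≤ 3 * |dS| + |S| * |dW| := by
      nlinarith [mul_nonneg n1 n3, mul_nonneg n2 n3, mul_nonneg n1 n2, mul_nonneg n2 n2]
    have f4 : G * (|S| + |dS|) * ((|dS| + |dW|) / 2) ≤ G * (3 * |dS| + |S| * |dW|) := by
      rw [mul_assoc]
      exact mul_le_mul_of_nonneg_left f3 hG
    have f5 : 0 ≤ G * (|S| * |dW|) := by positivity
    nlinarith
  have := norm_image_sub_le_of_norm_deriv_le_segment_01' hd hbd
  rw [hP] at this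
  simp only [one_mul, zero_mul, add_zero, add_sub_cancel] at this
  rw [Real.norm_eq_abs, abs_sub_comm] at this
  exact this

end Pool.Agent.W5h47.Iso
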