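import Mathlib
import Pool.Agent.W5h47.Iso.NS
set_option autoImplicit false

/-! The height function `√(1 - u σ)` of the sphere and its mixed differences. -/

namespace Pool.Agent.W5h47.Iso

open MeasureTheory Set Complex
open scoped ENNReal NNReal

/-- the height -/
noncomputable def rr (u σ : ℝ) : ℝ := Real.sqrt (1 - u * σ)

/-- `σ^j r^(-i)` -/
noncomputable def hh (j i : ℕ) (u σ : ℝ) : ℝ := σ ^ j * (rr u σ ^ i)⁻¹

lemma rr_pos {u σ : ℝ} (h : 0 < 1 - u * σ) : 0 < rr u σ := Real.sqrt_pos.2 h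

lemma rr_sq {u σ : ℝ} (h : 0 < 1 - u * σ) : rr u σ ^ 2 = 1 - u * σ := Real.sq_sqrt h.le

lemma rr_du {u σ : ℝ} (h : 0 < 1 - u * σ) :
    HasDerivAt (fun u => rr u σ) (-(1 / 2) * hh 1 1 u σ) u := by
  have h1 : HasDerivAt (fun u : ℝ => 1 - u * σ) (-σ) u := by
    have := ((hasDerivAt_id u).mul_const σ).const_sub 1
    simpa using this
  have h2 := h1.sqrt h.ne'
  have h3 : (fun u => rr u σ) = fun u => Real.sqrt (1 - u * σ) := rfl
  rw [h3]
  refine h2.congr_deriv ?_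
  unfold hh rr
  have := (Real.sqrt_pos.2 h).ne'
  field_simp

lemma rr_ds {u σ : ℝ} (h : 0 < 1 - u * σ) :
    HasDerivAt (fun σ => rr u σ) (-(u / 2) * (rr u σ)⁻¹) σ := by
  have h1 : HasDerivAt (fun σ : ℝ => 1 - u * σ) (-u) σ := by
    have := ((hasDerivAt_id σ).const_mul u).const_sub 1
    simpa using this
  have h2 := h1.sqrt h.ne'
  have h3 : (fun σ => rr u σ) = fun σ => Real.sqrt (1 - u * σ) := rfl
  rw [h3]
  refine h2.congr_deriv ?_
  unfold rr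
  have := (Real.sqrt_pos.2 h).ne'
  field_simp

lemma inv_pow_deriv {f : ℝ → ℝ} {f' x : ℝ} (hf : HasDerivAt f f' x) (h : f x ≠ 0) (i : ℕ) :
    HasDerivAt (fun x => (f x ^ i)⁻¹) (-(i * f' * (f x ^ (i + 1))⁻¹)) x := by
  have h1 := (hf.fun_pow i).fun_inv (pow_ne_zero i h)
  refine h1.congr_deriv ?_
  rcases i with _ | i
  · simp
  · simp only [Nat.add_sub_cancel]
    field_simp
    ring

lemma hh_du (j i : ℕ) {u σ : ℝ} (h : 0 < 1 - u * σ) :
    HasDerivAt (fun u => hh j i u σ) ((i / 2) * hh (j + 1) (i + 2) u σ) u := by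
  have hp := rr_pos h
  have h1 := (inv_pow_deriv (rr_du h) hp.ne' i).const_mul (σ ^ j)
  unfold hh
  refine h1.congr_deriv ?_
  unfold hh
  field_simp
  ring

lemma hh_ds (j i : ℕ) {u σ : ℝ} (h : 0 < 1 - u * σ) :
    HasDerivAt (fun σ => hh j i u σ) (j * hh (j - 1) i u σ + (i * u / 2) * hh j (i + 2) u σ) σ := by
  have hp := rr_pos h
  have h1 := (hasDerivAt_pow j σ).mul (inv_pow_deriv (rr_ds h) hp.ne' i)
  unfold hh
  refine h1.congr_deriv ?_
  field_simp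
  ring

/-- the parameter region -/
structure Reg (a b κ : ℝ) : Prop where
  a0 : 0 < a
  ab : a ≤ b
  b1 : b < 1
  κ0 : 0 < κ
  κ1 : κ ≤ 1
  κb : κ ^ 2 ≤ 1 - b

variable {a b κ : ℝ}

lemma Reg.low (R : Reg a b κ) {u σ : ℝ} (hu : u ∈ Icc a b) (hσ : σ ∈ Icc (0:ℝ) 1) :
    κ ^ 2 ≤ 1 - u * σ := by
  have h1 : u * σ ≤ b * 1 := mul_le_mul hu.2 hσ.2 hσ.1 (R.a0.le.trans R.ab)
  have := R.κb
  linarith

lemma Reg.pos (R : Reg a b κ) {u σ : ℝ} (hu : u ∈ Icc a b) (hσ : σ ∈ Icc (0:ℝ) 1) :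
    0 < 1 - u * σ := lt_of_lt_of_le (pow_pos R.κ0 2) (R.low hu hσ)

lemma Reg.rlow (R : Reg a b κ) {u σ : ℝ} (hu : u ∈ Icc a b) (hσ : σ ∈ Icc (0:ℝ) 1) :
    κ ≤ rr u σ := Real.le_sqrt_of_sq_le (R.low hu hσ)

lemma Reg.rle (R : Reg a b κ) {u σ : ℝ} (hu : u ∈ Icc a b) (hσ : σ ∈ Icc (0:ℝ) 1) :
    rr u σ ≤ 1 := by
  unfold rr
  rw [Real.sqrt_le_one]
  have : 0 ≤ u * σ := mul_nonneg (R.a0.le.trans hu.1) hσ.1
  linarith

lemma Reg.hbd (R : Reg a b κ) {u σ : ℝ} (hu : u ∈ Icc a b) (hσ : σ ∈ Icc (0:ℝ) 1) (j i n : ℕ)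
    (hn : i ≤ n) : |hh j i u σ| ≤ (κ ^ n)⁻¹ := by
  unfold hh
  have h1 := R.rlow hu hσ
  have h0 := R.κ0
  rw [abs_mul, abs_of_nonneg (pow_nonneg hσ.1 j),
    abs_of_nonneg (inv_nonneg.2 (pow_nonneg (h0.le.trans h1) i))]
  have h2 : σ ^ j ≤ 1 := pow_le_one₀ hσ.1 hσ.2
  have h3 : (rr u σ ^ i)⁻¹ ≤ (κ ^ i)⁻¹ := by gcongr
  have h4 : (κ ^ i)⁻¹ ≤ (κ ^ n)⁻¹ := by
    have := pow_le_pow_of_le_one h0.le R.κ1 hn
    gcongr
  have h5 : 0 ≤ (rr u σ ^ i)⁻¹ := inv_nonneg.2 (pow_nonneg (h0.le.trans h1) i)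
  calc σ ^ j * (rr u σ ^ i)⁻¹ ≤ 1 * (rr u σ ^ i)⁻¹ := mul_le_mul_of_nonneg_right h2 h5
    _ ≤ _ := by rw [one_mul]; exact h3.trans h4

/-- the constant for mixed differences -/
noncomputable def GG (κ : ℝ) (j i : ℕ) : ℝ := ((j : ℝ) + i + 2) ^ 2 * (κ ^ (i + 4))⁻¹

lemma Reg.mixed_hh (R : Reg a b κ) {u : ℝ} (hu : u ∈ Icc a b) (j i : ℕ) {α β α' β' : ℝ}
    (hα : α ∈ Icc (0:ℝ) 1) (hβ : β ∈ Icc (0:ℝ) 1) (hα' : α' ∈ Icc (0:ℝ) 1)
    (hβ' : β' ∈ Icc (0:ℝ) 1) :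
    |(hh j i u α - hh j i u β) - (hh j i u α' - hh j i u β')| ≤
      4 * GG κ j i * (|(α - β) - (α' - β')| + |α - β| * |(α + β) - (α' + β')|) := by
  have hu1 : |u| ≤ 1 := by
    rw [abs_of_nonneg (R.a0.le.trans hu.1)]
    linarith [hu.2, R.b1]
  have hκ : 0 < (κ ^ (i + 4))⁻¹ := inv_pos.2 (pow_pos R.κ0 _)
  have hj : (0:ℝ) ≤ j := Nat.cast_nonneg j
  have hi : (0:ℝ) ≤ i := Nat.cast_nonneg i
  have hbdd : ∀ x ∈ Icc (0:ℝ) 1, |j * hh (j - 1) i u x + (i * u / 2) * hh j (i + 2) u x| ≤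
      GG κ j i := by
    intro x hx
    have h1 := R.hbd hu hx (j - 1) i (i + 4) (by omega)
    have h2 := R.hbd hu hx j (i + 2) (i + 4) (by omega)
    refine (abs_add_le _ _).trans ?_
    rw [abs_mul, abs_mul, abs_of_nonneg hj, abs_div, abs_mul, abs_of_nonneg hi,
      abs_of_pos (by norm_num : (0:ℝ) < 2)]
    have h3 : (i : ℝ) * |u| / 2 ≤ i := by nlinarith [abs_nonneg u]
    have h4 : (i : ℝ) * |u| / 2 * |hh j (i + 2) u x| ≤ i * (κ ^ (i + 4))⁻¹ :=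
      mul_le_mul h3 h2 (abs_nonneg _) hi
    have h5 : (j : ℝ) * |hh (j - 1) i u x| ≤ j * (κ ^ (i + 4))⁻¹ :=
      mul_le_mul_of_nonneg_left h1 hj
    have h6 : (j : ℝ) + i ≤ ((j : ℝ) + i + 2) ^ 2 := by nlinarith
    calc _ ≤ j * (κ ^ (i + 4))⁻¹ + i * (κ ^ (i + 4))⁻¹ := add_le_add h5 h4
      _ = ((j : ℝ) + i) * (κ ^ (i + 4))⁻¹ := by ring
      _ ≤ _ := by
        unfold GG
        exact mul_le_mul_of_nonneg_right h6 hκ.le
  apply mixed (fun x hx => hh_ds j i (R.pos hu hx)) hbdd _ hα hβ hα' hβ'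
  intro x hx y hy
  have hder : ∀ z ∈ Icc (0:ℝ) 1, HasDerivWithinAt
      (fun x => j * hh (j - 1) i u x + (i * u / 2) * hh j (i + 2) u x)
      (j * (((j - 1 : ℕ) : ℝ) * hh (j - 1 - 1) i u z + (i * u / 2) * hh (j - 1) (i + 2) u z) +
        (i * u / 2) * (j * hh (j - 1) (i + 2) u z +
          (((i + 2 : ℕ) : ℝ) * u / 2) * hh j (i + 2 + 2) u z)) (Icc 0 1) z := by
    intro z hz
    have d1 := (hh_ds (j - 1) i (R.pos hu hz)).const_mul (j : ℝ)
    have d2 := (hh_ds j (i + 2) (R.pos hu hz)).const_mul (i * u / 2)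
    exact (d1.add d2).hasDerivWithinAt
  have hb2 : ∀ z ∈ Icc (0:ℝ) 1,
      ‖j * (((j - 1 : ℕ) : ℝ) * hh (j - 1 - 1) i u z + (i * u / 2) * hh (j - 1) (i + 2) u z) +
        (i * u / 2) * (j * hh (j - 1) (i + 2) u z +
          (((i + 2 : ℕ) : ℝ) * u / 2) * hh j (i + 2 + 2) u z)‖ ≤ GG κ j i := by
    intro z hz
    have h1 := R.hbd hu hz (j - 1 - 1) i (i + 4) (by omega)
    have h2 := R.hbd hu hz (j - 1) (i + 2) (i + 4) (by omega)
    have h3 := R.hbd hu hz j (i + 2 + 2) (i + 4) (by omega)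
    set N := (κ ^ (i + 4))⁻¹ with hN
    have hj1 : ((j - 1 : ℕ) : ℝ) ≤ j := by exact_mod_cast Nat.sub_le j 1
    have hj10 : (0:ℝ) ≤ ((j - 1 : ℕ) : ℝ) := Nat.cast_nonneg _
    have hiu : |(i : ℝ) * u / 2| ≤ i / 2 := by
      rw [abs_div, abs_mul, abs_of_nonneg hi, abs_of_pos (by norm_num : (0:ℝ) < 2)]
      nlinarith
    have hiu2 : |((i + 2 : ℕ) : ℝ) * u / 2| ≤ (i + 2) / 2 := by
      push_cast
      rw [abs_div, abs_mul, abs_of_nonneg (by positivity : (0:ℝ) ≤ (i:ℝ) + 2),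
        abs_of_pos (by norm_num : (0:ℝ) < 2)]
      nlinarith
    rw [Real.norm_eq_abs]
    have t1 : |((j - 1 : ℕ) : ℝ) * hh (j - 1 - 1) i u z| ≤ j * N := by
      rw [abs_mul, abs_of_nonneg hj10]
      exact mul_le_mul hj1 h1 (abs_nonneg _) hj
    have t2 : |(i * u / 2) * hh (j - 1) (i + 2) u z| ≤ i / 2 * N := by
      rw [abs_mul]
      exact mul_le_mul hiu h2 (abs_nonneg _) (by positivity)
    have t3 : |j * hh (j - 1) (i + 2) u z| ≤ j * N := by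
      rw [abs_mul, abs_of_nonneg hj]
      exact mul_le_mul_of_nonneg_left h2 hj
    have t4 : |(((i + 2 : ℕ) : ℝ) * u / 2) * hh j (i + 2 + 2) u z| ≤ (i + 2) / 2 * N := by
      rw [abs_mul]
      exact mul_le_mul hiu2 h3 (abs_nonneg _) (by positivity)
    have t5 : |j * (((j - 1 : ℕ) : ℝ) * hh (j - 1 - 1) i u z +
        (i * u / 2) * hh (j - 1) (i + 2) u z)| ≤ j * (j * N + i / 2 * N) := by
      rw [abs_mul, abs_of_nonneg hj]
      exact mul_le_mul_of_nonneg_left ((abs_add_le _ _).trans (add_le_add t1 t2)) hj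
    have t6 : |(i * u / 2) * (j * hh (j - 1) (i + 2) u z +
          (((i + 2 : ℕ) : ℝ) * u / 2) * hh j (i + 2 + 2) u z)| ≤
        i / 2 * (j * N + (i + 2) / 2 * N) := by
      rw [abs_mul]
      exact mul_le_mul hiu ((abs_add_le _ _).trans (add_le_add t3 t4)) (abs_nonneg _)
        (by positivity)
    refine (abs_add_le _ _).trans ((add_le_add t5 t6).trans ?_)
    unfold GG
    rw [← hN]
    have : (j : ℝ) * (j * N + i / 2 * N) + i / 2 * (j * N + (i + 2) / 2 * N) =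
        (j ^ 2 + i * j + i * (i + 2) / 4) * N := by ring
    rw [this]
    apply mul_le_mul_of_nonneg_right _ hκ.le
    nlinarith [mul_nonneg hi hj]
  have := (convex_Icc (0:ℝ) 1).norm_image_sub_le_of_norm_hasDerivWithin_le hder hb2 hy hx
  rw [Real.norm_eq_abs, Real.norm_eq_abs] at this
  exact this

/-- mixed difference -/
def mx (g : ℝ → ℝ) (p : ℝ × ℝ) (p' : ℝ × ℝ) : ℝ := (g p.1 - g p.2) - (g p'.1 - g p'.2)

/-- the separation of two pairs -/
def dl (p p' : ℝ × ℝ) : ℝ :=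
  |(p.1 - p.2) - (p'.1 - p'.2)| + |p.1 - p.2| * |(p.1 + p.2) - (p'.1 + p'.2)|

lemma dl_nonneg (p p' : ℝ × ℝ) : 0 ≤ dl p p' := by
  unfold dl
  positivity

/-- the unit square -/
def Sq : Set (ℝ × ℝ) := {p | p.1 ∈ Icc (0:ℝ) 1 ∧ p.2 ∈ Icc (0:ℝ) 1}

/-- the phase difference and its derivatives in `u` -/
noncomputable def D0 (p p' : ℝ × ℝ) (u : ℝ) : ℝ := mx (rr u) p p'
noncomputable def D1 (p p' : ℝ × ℝ) (u : ℝ) : ℝ := -(1 / 2) * mx (hh 1 1 u) p p'
noncomputable def D2 (p p' : ℝ × ℝ) (u : ℝ) : ℝ := -(1 / 4) * mx (hh 2 3 u) p p'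
noncomputable def D3 (p p' : ℝ × ℝ) (u : ℝ) : ℝ := -(3 / 8) * mx (hh 3 5 u) p p'

lemma mx_deriv {g g1 : ℝ → ℝ → ℝ} {p p' : ℝ × ℝ} {u c : ℝ}
    (h : ∀ σ : ℝ, σ = p.1 ∨ σ = p.2 ∨ σ = p'.1 ∨ σ = p'.2 → HasDerivAt (fun u => g u σ)
      (c * g1 u σ) u) :
    HasDerivAt (fun u => mx (g u) p p') (c * mx (g1 u) p p') u := by
  unfold mx
  have h1 := h p.1 (Or.inl rfl)
  have h2 := h p.2 (Or.inr (Or.inl rfl))
  have h3 := h p'.1 (Or.inr (Or.inr (Or.inl rfl)))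
  have h4 := h p'.2 (Or.inr (Or.inr (Or.inr rfl)))
  refine ((h1.sub h2).sub (h3.sub h4)).congr_deriv ?_
  ring

lemma four_mem {p p' : ℝ × ℝ} (hp : p ∈ Sq) (hp' : p' ∈ Sq) {σ : ℝ}
    (h : σ = p.1 ∨ σ = p.2 ∨ σ = p'.1 ∨ σ = p'.2) : σ ∈ Icc (0:ℝ) 1 := by
  rcases h with h | h | h | h <;> rw [h]
  · exact hp.1
  · exact hp.2
  · exact hp'.1
  · exact hp'.2

lemma Reg.D0d (R : Reg a b κ) {p p' : ℝ × ℝ} (hp : p ∈ Sq) (hp' : p' ∈ Sq) {u : ℝ}
    (hu : u ∈ Icc a b) : HasDerivAt (D0 p p') (D1 p p' u) u :=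
  mx_deriv (g := rr) (g1 := hh 1 1) (c := -(1 / 2))
    fun _ hσ => rr_du (R.pos hu (four_mem hp hp' hσ))

lemma Reg.D1d (R : Reg a b κ) {p p' : ℝ × ℝ} (hp : p ∈ Sq) (hp' : p' ∈ Sq) {u : ℝ}
    (hu : u ∈ Icc a b) : HasDerivAt (D1 p p') (D2 p p' u) u := by
  have h := mx_deriv (g := hh 1 1) (g1 := hh 2 3) (c := ((1 : ℕ) : ℝ) / 2) (p := p) (p' := p')
    (u := u) fun _ hσ => hh_du 1 1 (R.pos hu (four_mem hp hp' hσ))
  refine (h.const_mul (-(1 / 2))).congr_deriv ?_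
  unfold D2
  push_cast
  ring

lemma Reg.D2d (R : Reg a b κ) {p p' : ℝ × ℝ} (hp : p ∈ Sq) (hp' : p' ∈ Sq) {u : ℝ}
    (hu : u ∈ Icc a b) : HasDerivAt (D2 p p') (D3 p p' u) u := by
  have h := mx_deriv (g := hh 2 3) (g1 := hh 3 5) (c := ((3 : ℕ) : ℝ) / 2) (p := p) (p' := p')
    (u := u) fun _ hσ => hh_du 2 3 (R.pos hu (four_mem hp hp' hσ))
  refine (h.const_mul (-(1 / 4))).congr_deriv ?_
  unfold D3
  push_cast
  ring

lemma Reg.D3c (R : Reg a b κ) {p p' : ℝ × ℝ} (hp : p ∈ Sq) (hp' : p' ∈ Sq) :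
    ContinuousOn (D3 p p') (Icc a b) := by
  intro u hu
  have h := mx_deriv (g := hh 3 5) (g1 := hh 4 7) (c := ((5 : ℕ) : ℝ) / 2) (p := p) (p' := p')
    (u := u) fun _ hσ => hh_du 3 5 (R.pos hu (four_mem hp hp' hσ))
  exact (h.const_mul (-(3 / 8))).continuousAt.continuousWithinAt

/-- the upper constant -/
noncomputable def CU (κ : ℝ) : ℝ := 4 * GG κ 1 1 + 4 * GG κ 2 3 + 4 * GG κ 3 5

lemma GG_nonneg (h : 0 < κ) (j i : ℕ) : 0 ≤ GG κ j i := by
  unfold GG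
  positivity

lemma Reg.D_up (R : Reg a b κ) {p p' : ℝ × ℝ} (hp : p ∈ Sq) (hp' : p' ∈ Sq) {u : ℝ}
    (hu : u ∈ Icc a b) : |D1 p p' u| ≤ CU κ * dl p p' ∧ |D2 p p' u| ≤ CU κ * dl p p' ∧
      |D3 p p' u| ≤ CU κ * dl p p' := by
  have h1 := R.mixed_hh hu 1 1 hp.1 hp.2 hp'.1 hp'.2
  have h2 := R.mixed_hh hu 2 3 hp.1 hp.2 hp'.1 hp'.2
  have h3 := R.mixed_hh hu 3 5 hp.1 hp.2 hp'.1 hp'.2
  have g1 := GG_nonneg R.κ0 1 1
  have g2 := GG_nonneg R.κ0 2 3
  have g3 := GG_nonneg R.κ0 3 5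
  have hd := dl_nonneg p p'
  change |mx (hh 1 1 u) p p'| ≤ 4 * GG κ 1 1 * dl p p' at h1
  change |mx (hh 2 3 u) p p'| ≤ 4 * GG κ 2 3 * dl p p' at h2
  change |mx (hh 3 5 u) p p'| ≤ 4 * GG κ 3 5 * dl p p' at h3
  have m1 : 0 ≤ GG κ 1 1 * dl p p' := by positivity
  have m2 : 0 ≤ GG κ 2 3 * dl p p' := by positivity
  have m3 : 0 ≤ GG κ 3 5 * dl p p' := by positivity
  unfold D1 D2 D3 CU
  refine ⟨?_, ?_, ?_⟩
  · rw [abs_mul, abs_neg, abs_of_pos (by norm_num : (0:ℝ) < 1 / 2)]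
    nlinarith
  · rw [abs_mul, abs_neg, abs_of_pos (by norm_num : (0:ℝ) < 1 / 4)]
    nlinarith
  · rw [abs_mul, abs_neg, abs_of_pos (by norm_num : (0:ℝ) < 3 / 8)]
    nlinarith

/-- the lower bound: the phase difference and its derivative do not both vanish -/
theorem Reg.D_low (R : Reg a b κ) {p p' : ℝ × ℝ} (hp : p ∈ Sq) (hp' : p' ∈ Sq) {u : ℝ}
    (hu : u ∈ Icc a b) : dl p p' ≤ 27 / (a ^ 2 * κ) * (|D0 p p' u| + |D1 p p' u|) := by
  obtain ⟨α, β⟩ := p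
  obtain ⟨α', β'⟩ := p'
  have hu0 : 0 < u := lt_of_lt_of_le R.a0 hu.1
  have hu1 : u ≤ 1 := hu.2.trans R.b1.le
  have ha0 := R.a0
  have hκ0 := R.κ0
  have hκ1 := R.κ1
  have ha1 : a ≤ 1 := hu.1.trans hu1
  have hr : ∀ σ ∈ Icc (0:ℝ) 1, κ ≤ rr u σ ∧ rr u σ ≤ 1 ∧ rr u σ ^ 2 = 1 - u * σ := fun σ hσ =>
    ⟨R.rlow hu hσ, R.rle hu hσ, rr_sq (R.pos hu hσ)⟩
  obtain ⟨l1, l2, l3⟩ := hr α hp.1
  obtain ⟨k1, k2, k3⟩ := hr β hp.2
  obtain ⟨m1, m2, m3⟩ := hr α' hp'.1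
  obtain ⟨n1, n2, n3⟩ := hr β' hp'.2
  have eD0 : D0 (α, β) (α', β') u = (rr u α - rr u β) - (rr u α' - rr u β') := rfl
  have eD1 : D1 (α, β) (α', β') u = -(1 / 2) * ((α / rr u α - β / rr u β) -
      (α' / rr u α' - β' / rr u β')) := by
    unfold D1 mx hh
    simp only [pow_one, div_eq_mul_inv]
  rw [eD0, eD1]
  set x := rr u α with hx
  set y := rr u β with hy
  set x' := rr u α' with hx'
  set y' := rr u β' with hy'
  have x0 : 0 < x := lt_of_lt_of_le hκ0 l1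
  have y0 : 0 < y := lt_of_lt_of_le hκ0 k1
  have x0' : 0 < x' := lt_of_lt_of_le hκ0 m1
  have y0' : 0 < y' := lt_of_lt_of_le hκ0 n1
  set A := (x - y) - (x' - y') with hA
  set B := -(1 / 2) * ((α / x - β / y) - (α' / x' - β' / y')) with hB
  set d := x - y with hd
  set d' := x' - y' with hd'
  set e := x * y with he
  set e' := x' * y' with he'
  set N := |A| + |B| with hN
  have hAN : |A| ≤ N := by rw [hN]; linarith [abs_nonneg B]
  have hBN : |B| ≤ N := by rw [hN]; linarith [abs_nonneg A]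
  have hN0 : 0 ≤ N := by positivity
  have e0 : 0 < e := mul_pos x0 y0
  have e0' : 0 < e' := mul_pos x0' y0'
  have e1 : e ≤ 1 := mul_le_one₀ l2 y0.le k2
  have e1' : e' ≤ 1 := mul_le_one₀ m2 y0'.le n2
  have hd1 : |d| ≤ 1 := by rw [hd, abs_le]; constructor <;> linarith
  have hd1' : |d'| ≤ 1 := by rw [hd', abs_le]; constructor <;> linarith
  -- the key identity
  have key : d * (e' - e) = e * e' * (2 * u * B - A) - A * e := by
    have hα : α = (1 - x ^ 2) / u := by rw [l3]; field_simp; ring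
    have hβ : β = (1 - y ^ 2) / u := by rw [k3]; field_simp; ring
    have hα' : α' = (1 - x' ^ 2) / u := by rw [m3]; field_simp; ring
    have hβ' : β' = (1 - y' ^ 2) / u := by rw [n3]; field_simp; ring
    rw [hB, hα, hβ, hα', hβ', hA, he, he', hd]
    field_simp
    ring
  have hde : |d| * |e - e'| ≤ 4 * N := by
    rw [← abs_mul, show d * (e - e') = -(d * (e' - e)) by ring, abs_neg, key]
    refine (abs_sub _ _).trans ?_
    have t1 : |2 * u * B - A| ≤ 2 * |B| + |A| := by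
      refine (abs_sub _ _).trans ?_
      rw [abs_mul, abs_mul, abs_of_pos hu0, abs_of_pos (by norm_num : (0:ℝ) < 2)]
      have h9 : u * |B| ≤ 1 * |B| := mul_le_mul_of_nonneg_right hu1 (abs_nonneg B)
      linarith
    have t2 : |e * e' * (2 * u * B - A)| ≤ 2 * |B| + |A| := by
      rw [abs_mul, abs_of_pos (mul_pos e0 e0')]
      have h8 : e * e' ≤ 1 := mul_le_one₀ e1 e0'.le e1'
      have h9 : e * e' * |2 * u * B - A| ≤ 1 * |2 * u * B - A| :=
        mul_le_mul_of_nonneg_right h8 (abs_nonneg _)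
      linarith
    have t3 : |A * e| ≤ |A| := by
      rw [abs_mul, abs_of_pos e0]
      have h9 : |A| * e ≤ |A| * 1 := mul_le_mul_of_nonneg_left e1 (abs_nonneg A)
      linarith
    rw [hN]
    linarith [abs_nonneg A, abs_nonneg B]
  set M := x + y with hM
  set M' := x' + y' with hM'
  have hM0 : 2 * κ ≤ M := by rw [hM]; linarith
  have hM0' : 2 * κ ≤ M' := by rw [hM']; linarith
  have hM2 : M ≤ 2 := by rw [hM]; linarith
  have hM2' : M' ≤ 2 := by rw [hM']; linarith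
  have hMM : (M - M') * (M + M') = A * (d + d') + 4 * (e - e') := by
    rw [hM, hM', hA, hd, hd', he, he']
    ring
  have hdd : |d + d'| ≤ 2 := (abs_add_le _ _).trans (by linarith)
  have hdM : |d| * |M - M'| ≤ 5 / κ * N := by
    have t1 : |M - M'| * (4 * κ) ≤ 2 * |A| + 4 * |e - e'| := by
      calc |M - M'| * (4 * κ) ≤ |M - M'| * (M + M') := by
            apply mul_le_mul_of_nonneg_left _ (abs_nonneg _)
            linarith
        _ = |(M - M') * (M + M')| := by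
            rw [abs_mul, abs_of_pos (by linarith : 0 < M + M')]
        _ ≤ |A * (d + d')| + |4 * (e - e')| := by
            rw [hMM]
            exact abs_add_le _ _
        _ ≤ _ := by
            rw [abs_mul, abs_mul, abs_of_pos (by norm_num : (0:ℝ) < 4)]
            have h9 : |A| * |d + d'| ≤ |A| * 2 := mul_le_mul_of_nonneg_left hdd (abs_nonneg A)
            linarith
    have t2 : |d| * |M - M'| * (4 * κ) ≤ 2 * |A| + 4 * (4 * N) := by
      calc |d| * |M - M'| * (4 * κ) = |d| * (|M - M'| * (4 * κ)) := by ring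
        _ ≤ |d| * (2 * |A| + 4 * |e - e'|) := mul_le_mul_of_nonneg_left t1 (abs_nonneg _)
        _ = |d| * (2 * |A|) + 4 * (|d| * |e - e'|) := by ring
        _ ≤ 1 * (2 * |A|) + 4 * (4 * N) := by
            have := abs_nonneg A
            gcongr
        _ = _ := by ring
    rw [div_mul_eq_mul_div, le_div_iff₀ hκ0]
    have t3 : |d| * |M - M'| * κ * 4 ≤ 18 * N := by linarith
    linarith
  -- the differences of the sums and differences
  have hS : α - β = -(d * M) / u := by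
    have : d * M = u * β - u * α := by
      rw [hd, hM]
      have : (x - y) * (x + y) = x ^ 2 - y ^ 2 := by ring
      rw [this, l3, k3]
      ring
    rw [this]
    field_simp
    ring
  have hS' : α' - β' = -(d' * M') / u := by
    have : d' * M' = u * β' - u * α' := by
      rw [hd', hM']
      have : (x' - y') * (x' + y') = x' ^ 2 - y' ^ 2 := by ring
      rw [this, m3, n3]
      ring
    rw [this]
    field_simp
    ring
  have hW : (α + β) - (α' + β') = -(A * (d + d') + 2 * (e - e')) / u := by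
    have : A * (d + d') + 2 * (e - e') = x ^ 2 + y ^ 2 - x' ^ 2 - y' ^ 2 := by
      rw [hA, hd, hd', he, he']
      ring
    rw [this, l3, k3, m3, n3]
    field_simp
    ring
  have hdS : |(α - β) - (α' - β')| ≤ (2 + 5 / κ) / a * N := by
    have t1 : (α - β) - (α' - β') = -(A * M' + d * (M - M')) / u := by
      rw [hS, hS', hA]
      field_simp
      ring
    rw [t1, abs_div, abs_neg, abs_of_pos hu0, div_le_iff₀ hu0]
    have t2 : |A * M' + d * (M - M')| ≤ 2 * |A| + 5 / κ * N := by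
      refine (abs_add_le _ _).trans (add_le_add ?_ ?_)
      · rw [abs_mul, abs_of_pos (by linarith : 0 < M')]
        have h9 : |A| * M' ≤ |A| * 2 := mul_le_mul_of_nonneg_left hM2' (abs_nonneg A)
        linarith
      · rw [abs_mul]
        exact hdM
    refine t2.trans ?_
    have t3 : (2 + 5 / κ) * N ≤ (2 + 5 / κ) / a * N * u := by
      have h1 : 1 ≤ u / a := by rw [le_div_iff₀ ha0]; linarith [hu.1]
      have h2 : 0 ≤ (2 + 5 / κ) * N := by positivity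
      calc (2 + 5 / κ) * N = (2 + 5 / κ) * N * 1 := by ring
        _ ≤ (2 + 5 / κ) * N * (u / a) := mul_le_mul_of_nonneg_left h1 h2
        _ = _ := by ring
    have h9 : (2 + 5 / κ) * N = 2 * N + 5 / κ * N := by ring
    linarith
  have hdW : |α - β| * |(α + β) - (α' + β')| ≤ 20 / a ^ 2 * N := by
    rw [hS, hW, abs_div, abs_neg, abs_div, abs_neg, abs_of_pos hu0, abs_mul,
      abs_of_pos (by linarith : 0 < M)]
    have t1 : |A * (d + d') + 2 * (e - e')| ≤ 2 * |A| + 2 * |e - e'| := by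
      refine (abs_add_le _ _).trans (add_le_add ?_ ?_)
      · rw [abs_mul]
        have h9 : |A| * |d + d'| ≤ |A| * 2 := mul_le_mul_of_nonneg_left hdd (abs_nonneg A)
        linarith
      · rw [abs_mul, abs_of_pos (by norm_num : (0:ℝ) < 2)]
    have t2 : |d| * M * |A * (d + d') + 2 * (e - e')| ≤ 20 * N := by
      calc |d| * M * |A * (d + d') + 2 * (e - e')| ≤ |d| * 2 * (2 * |A| + 2 * |e - e'|) := by
            gcongr
        _ = 4 * (|d| * |A|) + 4 * (|d| * |e - e'|) := by ring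
        _ ≤ 4 * (1 * N) + 4 * (4 * N) := by gcongr
        _ = 20 * N := by ring
    have t3 : |d| * M / u * (|A * (d + d') + 2 * (e - e')| / u) =
        |d| * M * |A * (d + d') + 2 * (e - e')| / u ^ 2 := by
      field_simp
    rw [t3, div_mul_eq_mul_div, div_le_div_iff₀ (by positivity) (by positivity)]
    have h1 : a ^ 2 ≤ u ^ 2 := pow_le_pow_left₀ ha0.le hu.1 2
    calc |d| * M * |A * (d + d') + 2 * (e - e')| * a ^ 2 ≤ (20 * N) * u ^ 2 := by gcongr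
      _ = _ := by ring
  have hfin : (2 + 5 / κ) / a + 20 / a ^ 2 ≤ 27 / (a ^ 2 * κ) := by
    have h1 : (2 + 5 / κ) / a ≤ 7 / (a ^ 2 * κ) := by
      rw [div_le_div_iff₀ ha0 (by positivity)]
      have e1 : (2 + 5 / κ) * (a ^ 2 * κ) = a * ((2 * κ + 5) * a) := by field_simp
      rw [e1]
      have e2 : (2 * κ + 5) * a ≤ 7 * 1 := mul_le_mul (by linarith) ha1 ha0.le (by norm_num)
      have e3 : a * ((2 * κ + 5) * a) ≤ a * (7 * 1) := mul_le_mul_of_nonneg_left e2 ha0.le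
      linarith
    have h2 : 20 / a ^ 2 ≤ 20 / (a ^ 2 * κ) := by
      apply div_le_div_of_nonneg_left (by norm_num) (by positivity)
      exact mul_le_of_le_one_right (by positivity) hκ1
    calc _ ≤ 7 / (a ^ 2 * κ) + 20 / (a ^ 2 * κ) := add_le_add h1 h2
      _ = _ := by ring
  calc dl (α, β) (α', β') ≤ (2 + 5 / κ) / a * N + 20 / a ^ 2 * N := add_le_add hdS hdW
    _ = ((2 + 5 / κ) / a + 20 / a ^ 2) * N := by ring
    _ ≤ _ := mul_le_mul_of_nonneg_right hfin hN0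

end Pool.Agent.W5h47.Iso
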