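import Mathlib
import Pool.Agent.H153R4.Block
import Pool.Agent.W5h47.Iso.Geo
set_option autoImplicit false

/-! The integral of the majorant of the kernel. -/

namespace Pool.Agent.W5h47.Iso

open MeasureTheory Set Complex
open scoped ENNReal NNReal RealInnerProductSpace
open Pool.Agent.H153R4 (E Q2 Q2_meas J_fin ae_ne_zero)

/-- `|x|^(-s)` -/
noncomputable def ws (s x : ℝ) : ℝ≥0∞ := ENNReal.ofReal |x| ^ (-s)

lemma ws_mul (s x y : ℝ) : ws s (x * y) = ws s x * ws s y := by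
  unfold ws
  rw [abs_mul, ENNReal.ofReal_mul (abs_nonneg _),
    ENNReal.mul_rpow_of_ne_top ENNReal.ofReal_ne_top ENNReal.ofReal_ne_top]

lemma ws_meas (s : ℝ) : Measurable (ws s) := by
  unfold ws
  fun_prop

lemma ws_ofReal {s x : ℝ} (hx : x ≠ 0) : ws s x = ENNReal.ofReal (|x| ^ (-s)) :=
  ENNReal.ofReal_rpow_of_pos (abs_pos.2 hx)

lemma ws_anti {s x y : ℝ} (hs : 0 ≤ s) (h : |x| ≤ |y|) : ws s y ≤ ws s x := by
  unfold ws
  rw [ENNReal.rpow_neg, ENNReal.rpow_neg]
  apply ENNReal.inv_le_inv.2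
  exact ENNReal.rpow_le_rpow (ENNReal.ofReal_le_ofReal h) hs

lemma ws_one (s : ℝ) : ws s 1 = 1 := by
  unfold ws
  simp

lemma ws_le_one {s x : ℝ} (hs : 0 ≤ s) (h : 1 ≤ |x|) : ws s x ≤ 1 := by
  rw [← ws_one s]
  exact ws_anti hs (by rwa [abs_one])

/-- the bound for the one dimensional integrals -/
noncomputable def Cs (s : ℝ) : ℝ≥0∞ := (∫⁻ y in Icc (-2 : ℝ) 2, ws s y) + 2

lemma Cs_lt {s : ℝ} (h1 : s < 1) : Cs s < ⊤ := by
  unfold Cs
  refine ENNReal.add_lt_top.2 ⟨?_, by norm_num⟩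
  have h2 := (Pool.Agent.H153R4.one_dim (1 - s) (by linarith)).hasFiniteIntegral
  refine lt_of_le_of_lt ?_ h2
  rw [← lintegral_indicator measurableSet_Icc]
  apply lintegral_mono_ae
  filter_upwards [Measure.ae_ne volume (0 : ℝ)] with y hy
  by_cases hm : y ∈ Icc (-2 : ℝ) 2
  · rw [indicator_of_mem hm, indicator_of_mem hm, ws_ofReal hy, ← ofReal_norm,
      Real.norm_of_nonneg (by positivity)]
    apply le_of_eq
    congr 2
    ring
  · rw [indicator_of_notMem hm]
    exact zero_le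

lemma J_bd {s : ℝ} (hs : 0 ≤ s) (c : ℝ) : ∫⁻ x in Icc (-1 : ℝ) 1, ws s (x - c) ≤ Cs s := by
  have h1 : ∀ x : ℝ, ws s (x - c) ≤ (Icc (-2 : ℝ) 2).indicator (ws s) (x - c) + 1 := by
    intro x
    by_cases hm : x - c ∈ Icc (-2 : ℝ) 2
    · rw [indicator_of_mem hm]
      exact le_self_add
    · rw [indicator_of_notMem hm, zero_add]
      apply ws_le_one hs
      by_contra h
      push Not at h
      apply hm
      rw [abs_lt] at h
      constructor <;> linarith
  calc ∫⁻ x in Icc (-1 : ℝ) 1, ws s (x - c) ≤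
        ∫⁻ x in Icc (-1 : ℝ) 1, ((Icc (-2 : ℝ) 2).indicator (ws s) (x - c) + 1) :=
        lintegral_mono h1
    _ = (∫⁻ x in Icc (-1 : ℝ) 1, (Icc (-2 : ℝ) 2).indicator (ws s) (x - c)) + 2 := by
        rw [lintegral_add_right _ measurable_const, lintegral_one, Measure.restrict_apply_univ,
          Real.volume_Icc]
        norm_num
    _ ≤ (∫⁻ x, (Icc (-2 : ℝ) 2).indicator (ws s) (x - c)) + 2 := by
        exact add_le_add (setLIntegral_le_lintegral _ _) le_rfl
    _ = (∫⁻ x, (Icc (-2 : ℝ) 2).indicator (ws s) x) + 2 := by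
        rw [lintegral_sub_right_eq_self (fun x => (Icc (-2 : ℝ) 2).indicator (ws s) x) c]
    _ = Cs s := by
        rw [lintegral_indicator measurableSet_Icc]
        rfl

lemma ws_abs {s x y : ℝ} (h : |x| = |y|) : ws s x = ws s y := by
  unfold ws
  rw [h]

/-- the integral in the first coordinates -/
lemma A_bd {s : ℝ} (hs : 0 ≤ s) (ρ : ℝ) :
    ∫⁻ p in Icc (-1 : ℝ) 1, ws s (2 * p + ρ) * ∫⁻ p' in Icc (-1 : ℝ) 1, ws s (p - p') ≤
      Cs s * Cs s := by
  have h1 : ∀ p : ℝ, ∫⁻ p' in Icc (-1 : ℝ) 1, ws s (p - p') ≤ Cs s := by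
    intro p
    refine le_trans (le_of_eq ?_) (J_bd hs p)
    congr 1
    ext p'
    exact ws_abs (abs_sub_comm _ _)
  have h2 : ∀ p : ℝ, ws s (2 * p + ρ) ≤ ws s (p - (-(ρ / 2))) := by
    intro p
    have e : 2 * p + ρ = 2 * (p - (-(ρ / 2))) := by ring
    rw [e, ws_mul]
    calc ws s 2 * ws s (p - (-(ρ / 2))) ≤ 1 * ws s (p - (-(ρ / 2))) := by
          gcongr
          exact ws_le_one hs (by norm_num)
      _ = _ := one_mul _
  calc _ ≤ ∫⁻ p in Icc (-1 : ℝ) 1, ws s (p - (-(ρ / 2))) * Cs s :=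
        lintegral_mono fun p => mul_le_mul' (h2 p) (h1 p)
    _ = (∫⁻ p in Icc (-1 : ℝ) 1, ws s (p - (-(ρ / 2)))) * Cs s := by
        rw [lintegral_mul_const]
        exact (ws_meas s).comp (by fun_prop)
    _ ≤ _ := by
        gcongr
        exact J_bd hs _

/-- the integral in the second coordinates -/
lemma B_bd {s : ℝ} (hs : 0 ≤ s) :
    ∫⁻ q in Icc (-1 : ℝ) 1, ∫⁻ q' in Icc (-1 : ℝ) 1, ws s (q - q') * ws s (q + q') ≤
      Cs s * (2 * Cs s) := by
  have h0 : ∀ q q' : ℝ, ws s (q - q') * ws s (q + q') ≤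
      ws s q * (ws s (q' - q) + ws s (q' - (-q))) := by
    intro q q'
    have e1 : ws s (q - q') = ws s (q' - q) := ws_abs (abs_sub_comm _ _)
    have e2 : ws s (q + q') = ws s (q' - (-q)) := by
      congr 1
      ring
    rw [← e1, ← e2]
    rcases le_or_gt |q| |q - q'| with h | h
    · calc ws s (q - q') * ws s (q + q') ≤ ws s q * ws s (q + q') := by
            gcongr
            exact ws_anti hs h
        _ ≤ _ := by
            gcongr
            exact le_add_self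
    · have h3 : |q| ≤ |q + q'| := by
        have h4 : |q + q' + (q - q')| ≤ |q + q'| + |q - q'| := abs_add_le _ _
        have h5 : q + q' + (q - q') = 2 * q := by ring
        rw [h5, abs_mul, abs_of_pos (by norm_num : (0:ℝ) < 2)] at h4
        linarith
      calc ws s (q - q') * ws s (q + q') ≤ ws s (q - q') * ws s q := by
            gcongr
            exact ws_anti hs h3
        _ = ws s q * ws s (q - q') := mul_comm _ _
        _ ≤ _ := by
            gcongr
            exact le_self_add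
  have m1 : ∀ c : ℝ, Measurable fun q' : ℝ => ws s (q' - c) := fun c =>
    (ws_meas s).comp (by fun_prop)
  calc _ ≤ ∫⁻ q in Icc (-1 : ℝ) 1, ∫⁻ q' in Icc (-1 : ℝ) 1,
          ws s q * (ws s (q' - q) + ws s (q' - (-q))) :=
        lintegral_mono fun q => lintegral_mono fun q' => h0 q q'
    _ ≤ ∫⁻ q in Icc (-1 : ℝ) 1, ws s (q - 0) * (2 * Cs s) := by
        apply lintegral_mono
        intro q
        simp only
        have ma : Measurable fun q' : ℝ => ws s (q' - q) + ws s (q' - (-q)) :=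
          (m1 q).add (m1 (-q))
        rw [lintegral_const_mul _ ma, lintegral_add_left (m1 q), sub_zero, two_mul]
        gcongr
        · exact J_bd hs q
        · exact J_bd hs (-q)
    _ = (∫⁻ q in Icc (-1 : ℝ) 1, ws s (q - 0)) * (2 * Cs s) := by
        rw [lintegral_mul_const _ (m1 0)]
    _ ≤ _ := by
        gcongr
        exact J_bd hs 0

/-- orthonormal coordinates adapted to a vector -/
lemma frame {h : E 2} (hh : h ≠ 0) : ∃ Θ : E 2 → ℝ × ℝ, MeasurePreserving Θ volume volume ∧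
    ∀ z, ⟪z, h⟫ = ‖h‖ * (Θ z).1 ∧ ‖z‖ ^ 2 = (Θ z).1 ^ 2 + (Θ z).2 ^ 2 := by
  have hn : ‖h‖ ≠ 0 := norm_ne_zero_iff.2 hh
  set v : Fin 2 → E 2 := fun _ => (‖h‖⁻¹ : ℝ) • h with hv
  have ho : Orthonormal ℝ (({0} : Set (Fin 2)).domRestrict v) := by
    constructor
    · intro i
      simp only [domRestrict_apply, hv]
      rw [norm_smul, norm_inv, norm_norm, inv_mul_cancel₀ hn]
    · intro i j hij
      exact absurd (Subsingleton.elim i j) hij
  obtain ⟨b, hb⟩ := ho.exists_orthonormalBasis_extension_of_card_eq (by simp)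
  have hb0 : b 0 = (‖h‖⁻¹ : ℝ) • h := hb 0 rfl
  refine ⟨fun z => (b.repr z 0, b.repr z 1), ?_, fun z => ⟨?_, ?_⟩⟩
  · have h1 := b.measurePreserving_repr
    have h2 := PiLp.volume_preserving_ofLp (Fin 2)
    have h3 := volume_preserving_finTwoArrow ℝ
    exact h3.comp (h2.comp h1)
  · simp only
    rw [OrthonormalBasis.repr_apply_apply, hb0, real_inner_smul_left, real_inner_comm]
    field_simp
  · simp only
    have h1 : ‖z‖ = ‖b.repr z‖ := (b.repr.norm_map z).symm
    rw [h1, EuclideanSpace.norm_sq_eq]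
    simp

/-- the squares of the norms -/
noncomputable def pr (h z : E 2) : ℝ × ℝ := (‖z + h‖ ^ 2, ‖z‖ ^ 2)

/-- the domain -/
def Dm (h : E 2) : Set (E 2) := {z | ‖z‖ ≤ 1 ∧ ‖z + h‖ ≤ 1}

lemma pr_mem {h z : E 2} (hz : z ∈ Dm h) : pr h z ∈ Sq := by
  refine ⟨⟨sq_nonneg _, ?_⟩, ⟨sq_nonneg _, ?_⟩⟩
  · exact pow_le_one₀ (norm_nonneg _) hz.2
  · exact pow_le_one₀ (norm_nonneg _) hz.1

lemma Dm_norm {h z : E 2} (hz : z ∈ Dm h) : ‖h‖ ≤ 2 := by
  have h1 : h = (z + h) - z := by abel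
  rw [h1]
  refine (norm_sub_le _ _).trans ?_
  linarith [hz.1, hz.2]

/-- the separation in coordinates -/
lemma dl_low {ρ p q p' q' : ℝ} (hρ0 : 0 ≤ ρ) (hρ2 : ρ ≤ 2) (hp : |p| ≤ 1) (hp' : |p'| ≤ 1)
    {P P' : ℝ × ℝ} (h1 : P.1 - P.2 = ρ * (2 * p + ρ)) (h2 : P'.1 - P'.2 = ρ * (2 * p' + ρ))
    (h3 : P.2 = p ^ 2 + q ^ 2) (h4 : P'.2 = p' ^ 2 + q' ^ 2) :
    |ρ * (p - p')| + |ρ * ((2 * p + ρ) * ((q - q') * (q + q')))| ≤ 10 * dl P P' := by
  have e1 : (P.1 - P.2) - (P'.1 - P'.2) = 2 * (ρ * (p - p')) := by rw [h1, h2]; ring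
  have e2 : (P.1 + P.2) - (P'.1 + P'.2) =
      2 * ((q - q') * (q + q')) + 2 * (p - p') * (p + p' + ρ) := by
    have : (P.1 + P.2) - (P'.1 + P'.2) = ((P.1 - P.2) - (P'.1 - P'.2)) + 2 * (P.2 - P'.2) := by
      ring
    rw [this, e1, h3, h4]
    ring
  unfold dl
  rw [e1, e2, h1]
  set A := |ρ * (p - p')| with hA
  set Q := (q - q') * (q + q') with hQ
  have hA0 : 0 ≤ A := abs_nonneg _
  have f1 : |2 * (ρ * (p - p'))| = 2 * A := by
    rw [abs_mul, abs_of_pos (by norm_num : (0:ℝ) < 2)]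
  rw [f1]
  have f2 : |ρ * ((2 * p + ρ) * Q)| = |ρ * (2 * p + ρ)| * |Q| := by
    rw [← abs_mul]
    ring_nf
  rw [f2]
  set S := |ρ * (2 * p + ρ)| with hS
  have f3 : S * |2 * Q + 2 * (p - p') * (p + p' + ρ)| ≥ S * (2 * |Q|) - 32 * A := by
    have g1 : |2 * Q| ≤ |2 * Q + 2 * (p - p') * (p + p' + ρ)| +
        |2 * (p - p') * (p + p' + ρ)| := by
      have := abs_sub (2 * Q + 2 * (p - p') * (p + p' + ρ)) (2 * (p - p') * (p + p' + ρ))
      simpa using this
    have g2 : |2 * Q| = 2 * |Q| := by rw [abs_mul, abs_of_pos (by norm_num : (0:ℝ) < 2)]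
    have g3 : S * |2 * (p - p') * (p + p' + ρ)| ≤ 32 * A := by
      rw [hS, hA, abs_mul, abs_mul, abs_mul, abs_mul, abs_of_nonneg hρ0,
        abs_of_pos (by norm_num : (0:ℝ) < 2)]
      have k1 : |2 * p + ρ| ≤ 4 := by
        rw [abs_le] at hp ⊢
        constructor <;> linarith
      have k2 : |p + p' + ρ| ≤ 4 := by
        rw [abs_le] at hp hp' ⊢
        constructor <;> linarith
      have k3 : 0 ≤ ρ * |p - p'| := by positivity
      calc ρ * |2 * p + ρ| * (2 * |p - p'| * |p + p' + ρ|) =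
            2 * (ρ * |p - p'|) * (|2 * p + ρ| * |p + p' + ρ|) := by ring
        _ ≤ 2 * (ρ * |p - p'|) * (4 * 4) := by gcongr
        _ = _ := by ring
    have g4 : S * (2 * |Q|) ≤ S * (|2 * Q + 2 * (p - p') * (p + p' + ρ)| +
        |2 * (p - p') * (p + p' + ρ)|) := by
      rw [← g2]
      exact mul_le_mul_of_nonneg_left g1 (abs_nonneg _)
    rw [mul_add] at g4
    linarith
  have f4 : 0 ≤ S * |2 * Q + 2 * (p - p') * (p + p' + ρ)| :=
    mul_nonneg (abs_nonneg _) (abs_nonneg _)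
  linarith

/-- from decay in the sum to a product -/
lemma prod_bd {s N c A B : ℝ} (hs0 : 0 < s) (hs1 : s ≤ 1) (hN0 : 0 ≤ N) (hN : N ≤ c)
    (hN2 : N * (A + B) ^ 2 ≤ c) (hA : 0 ≤ A) (hB : 0 ≤ B) :
    ENNReal.ofReal N ≤ ENNReal.ofReal c * (ENNReal.ofReal A ^ (-s) * ENNReal.ofReal B ^ (-s)) := by
  rcases eq_or_lt_of_le (hN0.trans hN) with hc | hc
  · have : N = 0 := le_antisymm (hN.trans hc.ge) hN0
    rw [this, ENNReal.ofReal_zero]
    exact zero_le
  have hcc : ENNReal.ofReal c ≠ 0 := (ENNReal.ofReal_pos.2 hc).ne'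
  have hfin : ∀ x : ℝ, ENNReal.ofReal x ^ (-s) ≠ 0 := by
    intro x
    rw [Ne, ENNReal.rpow_eq_zero_iff]
    rintro (⟨-, h⟩ | ⟨h, -⟩)
    · linarith
    · exact ENNReal.ofReal_ne_top h
  rcases eq_or_lt_of_le hA with hA0 | hA0
  · rw [← hA0, ENNReal.ofReal_zero, ENNReal.zero_rpow_of_neg (by linarith),
      ENNReal.top_mul (hfin B), ENNReal.mul_top hcc]
    exact le_top
  rcases eq_or_lt_of_le hB with hB0 | hB0
  · rw [← hB0, ENNReal.ofReal_zero, ENNReal.zero_rpow_of_neg (by linarith),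
      ENNReal.mul_top (hfin A), ENNReal.mul_top hcc]
    exact le_top
  rw [ENNReal.ofReal_rpow_of_pos hA0, ENNReal.ofReal_rpow_of_pos hB0,
    ← ENNReal.ofReal_mul (by positivity), ← ENNReal.ofReal_mul hc.le]
  apply ENNReal.ofReal_le_ofReal
  rw [Real.rpow_neg hA, Real.rpow_neg hB, ← mul_inv, ← div_eq_mul_inv, le_div_iff₀ (by positivity)]
  have hAs : A ^ s ≤ (A + B) ^ s := Real.rpow_le_rpow hA (by linarith) hs0.le
  have hBs : B ^ s ≤ (A + B) ^ s := Real.rpow_le_rpow hB (by linarith) hs0.le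
  have h1 : A ^ s * B ^ s ≤ (A + B) ^ s * (A + B) ^ s := by gcongr
  rcases le_or_gt (A + B) 1 with h | h
  · have h2 : (A + B) ^ s ≤ 1 := Real.rpow_le_one (by linarith) h hs0.le
    have h3 : A ^ s * B ^ s ≤ 1 := h1.trans (mul_le_one₀ h2 (by positivity) h2)
    calc N * (A ^ s * B ^ s) ≤ N * 1 := by gcongr
      _ ≤ c := by rw [mul_one]; exact hN
  · have h2 : (A + B) ^ s ≤ (A + B) ^ (1:ℝ) := Real.rpow_le_rpow_of_exponent_le h.le hs1
    rw [Real.rpow_one] at h2
    have h3 : A ^ s * B ^ s ≤ (A + B) ^ 2 := by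
      refine h1.trans ?_
      rw [sq]
      gcongr
    exact (mul_le_mul_of_nonneg_left h3 hN0).trans hN2

/-- the integral over one frame -/
lemma frame_int {s : ℝ} (hs : 0 ≤ s) (ρ : ℝ) (c : ℝ≥0∞) (Θ : E 2 → ℝ × ℝ)
    (hΘ : MeasurePreserving Θ volume volume) (k : E 2 → E 2 → ℝ≥0∞)
    (hk : ∀ z z', k z z' ≤ (Icc (-1 : ℝ) 1).indicator 1 (Θ z).1 *
      (Icc (-1 : ℝ) 1).indicator 1 (Θ z).2 * ((Icc (-1 : ℝ) 1).indicator 1 (Θ z').1 *
      (Icc (-1 : ℝ) 1).indicator 1 (Θ z').2) * (c * (ws s ((Θ z).1 - (Θ z').1) *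
      (ws s (2 * (Θ z).1 + ρ) * (ws s ((Θ z).2 - (Θ z').2) * ws s ((Θ z).2 + (Θ z').2)))))) :
    ∫⁻ z, ∫⁻ z', k z z' ≤ c * ((Cs s * Cs s) * (Cs s * (2 * Cs s))) := by
  set i : ℝ → ℝ≥0∞ := (Icc (-1 : ℝ) 1).indicator 1 with hi
  have him : Measurable i := (measurable_const (a := (1 : ℝ≥0∞))).indicator measurableSet_Icc
  have hw := ws_meas s
  set G : (ℝ × ℝ) → (ℝ × ℝ) → ℝ≥0∞ := fun x y => i x.1 * i x.2 * (i y.1 * i y.2) *
    (c * (ws s (x.1 - y.1) * (ws s (2 * x.1 + ρ) * (ws s (x.2 - y.2) * ws s (x.2 + y.2))))) with hG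
  have hGm : Measurable fun q : (ℝ × ℝ) × (ℝ × ℝ) => G q.1 q.2 := by
    rw [hG]
    simp only
    have m1 : Measurable fun q : (ℝ × ℝ) × (ℝ × ℝ) => ws s (q.1.1 - q.2.1) :=
      hw.comp (by fun_prop)
    have m2 : Measurable fun q : (ℝ × ℝ) × (ℝ × ℝ) => ws s (2 * q.1.1 + ρ) :=
      hw.comp (by fun_prop)
    have m3 : Measurable fun q : (ℝ × ℝ) × (ℝ × ℝ) => ws s (q.1.2 - q.2.2) :=
      hw.comp (by fun_prop)
    have m4 : Measurable fun q : (ℝ × ℝ) × (ℝ × ℝ) => ws s (q.1.2 + q.2.2) :=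
      hw.comp (by fun_prop)
    have n1 : Measurable fun q : (ℝ × ℝ) × (ℝ × ℝ) => i q.1.1 := him.comp (by fun_prop)
    have n2 : Measurable fun q : (ℝ × ℝ) × (ℝ × ℝ) => i q.1.2 := him.comp (by fun_prop)
    have n3 : Measurable fun q : (ℝ × ℝ) × (ℝ × ℝ) => i q.2.1 := him.comp (by fun_prop)
    have n4 : Measurable fun q : (ℝ × ℝ) × (ℝ × ℝ) => i q.2.2 := him.comp (by fun_prop)
    exact ((n1.mul n2).mul (n3.mul n4)).mul ((m1.mul (m2.mul (m3.mul m4))).const_mul c)
  have hGx : ∀ x, Measurable (G x) := fun x =>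
    hGm.comp (f := fun y : ℝ × ℝ => (x, y)) (by fun_prop)
  calc ∫⁻ z, ∫⁻ z', k z z' ≤ ∫⁻ z, ∫⁻ z', G (Θ z) (Θ z') :=
        lintegral_mono fun z => lintegral_mono fun z' => hk z z'
    _ = ∫⁻ z, ∫⁻ y, G (Θ z) y := by
        congr 1
        ext z
        exact hΘ.lintegral_comp (hGx (Θ z))
    _ = ∫⁻ x, ∫⁻ y, G x y := hΘ.lintegral_comp (hGm.lintegral_prod_right')
    _ = c * ((∫⁻ p in Icc (-1 : ℝ) 1, ws s (2 * p + ρ) *
          ∫⁻ p' in Icc (-1 : ℝ) 1, ws s (p - p')) *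
          ∫⁻ q in Icc (-1 : ℝ) 1, ∫⁻ q' in Icc (-1 : ℝ) 1, ws s (q - q') * ws s (q + q')) := by
        have hiw : ∀ (f : ℝ → ℝ≥0∞), ∫⁻ x in Icc (-1 : ℝ) 1, f x = ∫⁻ x, i x * f x := by
          intro f
          rw [← lintegral_indicator measurableSet_Icc]
          congr 1
          ext x
          rw [hi]
          by_cases hx : x ∈ Icc (-1 : ℝ) 1
          · rw [indicator_of_mem hx, indicator_of_mem hx]
            simp
          · rw [indicator_of_notMem hx, indicator_of_notMem hx, zero_mul]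
        -- the inner integral
        have hin : ∀ x : ℝ × ℝ, ∫⁻ y, G x y = c * ((i x.1 * (ws s (2 * x.1 + ρ) *
            ∫⁻ p', i p' * ws s (x.1 - p'))) * (i x.2 * ∫⁻ q', i q' *
              (ws s (x.2 - q') * ws s (x.2 + q')))) := by
          intro x
          rw [Measure.volume_eq_prod, lintegral_prod _ (hGx x).aemeasurable]
          have k1 : Measurable fun q' : ℝ => i q' * (ws s (x.2 - q') * ws s (x.2 + q')) :=
            him.mul ((hw.comp (f := fun q' : ℝ => x.2 - q') (by fun_prop)).mul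
              (hw.comp (f := fun q' : ℝ => x.2 + q') (by fun_prop)))
          have k2 : Measurable fun p' : ℝ => i p' * ws s (x.1 - p') :=
            him.mul (hw.comp (f := fun p' : ℝ => x.1 - p') (by fun_prop))
          have e1 : ∀ p' : ℝ, ∫⁻ q', G x (p', q') = (c * (i x.1 * i x.2 * ws s (2 * x.1 + ρ))) *
              ((i p' * ws s (x.1 - p')) * ∫⁻ q', i q' * (ws s (x.2 - q') * ws s (x.2 + q'))) := by
            intro p'
            rw [← lintegral_const_mul _ k1, ← lintegral_const_mul _ (k1.const_mul _)]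
            congr 1
            ext q'
            rw [hG]
            simp only
            ring
          simp only [e1]
          rw [lintegral_const_mul _ (k2.mul_const _), lintegral_mul_const _ k2]
          ring
        simp only [hin]
        have mm1 : Measurable fun p : ℝ => i p * (ws s (2 * p + ρ) *
            ∫⁻ p', i p' * ws s (p - p')) := by
          have : Measurable fun r : ℝ × ℝ => i r.2 * ws s (r.1 - r.2) :=
            (him.comp measurable_snd).mul (hw.comp (f := fun r : ℝ × ℝ => r.1 - r.2) (by fun_prop))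
          exact him.mul ((hw.comp (f := fun p : ℝ => 2 * p + ρ) (by fun_prop)).mul
            this.lintegral_prod_right')
        have mm2 : Measurable fun q : ℝ => i q * ∫⁻ q', i q' *
              (ws s (q - q') * ws s (q + q')) := by
          have : Measurable fun r : ℝ × ℝ => i r.2 * (ws s (r.1 - r.2) * ws s (r.1 + r.2)) :=
            (him.comp measurable_snd).mul
              ((hw.comp (f := fun r : ℝ × ℝ => r.1 - r.2) (by fun_prop)).mul
              (hw.comp (f := fun r : ℝ × ℝ => r.1 + r.2) (by fun_prop)))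
          exact him.mul this.lintegral_prod_right'
        have mm12 : Measurable fun x : ℝ × ℝ => (i x.1 * (ws s (2 * x.1 + ρ) *
            ∫⁻ p', i p' * ws s (x.1 - p'))) * (i x.2 * ∫⁻ q', i q' *
              (ws s (x.2 - q') * ws s (x.2 + q'))) :=
          (mm1.comp measurable_fst).mul (mm2.comp measurable_snd)
        rw [lintegral_const_mul _ mm12, Measure.volume_eq_prod,
          lintegral_prod_mul mm1.aemeasurable mm2.aemeasurable]
        simp only [hiw]
    _ ≤ _ := by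
        gcongr
        · exact A_bd hs ρ
        · exact B_bd hs

/-- the integral of the majorant -/
theorem maj_int {s : ℝ} (hs0 : 0 < s) (hs1 : s < 1) : ∃ C : ℝ≥0∞, C < ⊤ ∧ ∀ (T c : ℝ)
    (N : E 2 → E 2 → E 2 → ℝ), 0 < T → 0 ≤ c → (∀ h z z', 0 ≤ N h z z') →
    (∀ h z z', (z ∉ Dm h ∨ z' ∉ Dm h) → N h z z' = 0) →
    (∀ h z z', z ∈ Dm h → z' ∈ Dm h → N h z z' ≤ c ∧
      N h z z' * (T * dl (pr h z) (pr h z')) ^ 2 ≤ c) →
    ∫⁻ h, ∫⁻ z, ∫⁻ z', ENNReal.ofReal (N h z z') ≤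
      C * (ENNReal.ofReal c * ENNReal.ofReal (T ^ (-(2 * s)))) := by
  set J := ∫⁻ h in Q2 2, ∏ j, ENNReal.ofReal (|h j| ^ ((1 - s) - 1)) with hJ
  have hJt : J < ⊤ := J_fin 2 (1 - s) (by linarith)
  set D := (Cs s * Cs s) * (Cs s * (2 * Cs s)) with hD
  have hCt := Cs_lt hs1
  have hDt : D < ⊤ := ENNReal.mul_lt_top (ENNReal.mul_lt_top hCt hCt)
    (ENNReal.mul_lt_top hCt (ENNReal.mul_lt_top (by norm_num) hCt))
  refine ⟨ENNReal.ofReal 100 * (D * J), ENNReal.mul_lt_top ENNReal.ofReal_lt_top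
    (ENNReal.mul_lt_top hDt hJt), ?_⟩
  intro T c N hT hc hN0 hNz hN
  have hT0 : T ≠ 0 := hT.ne'
  -- the bound for fixed `h`
  have key : ∀ h : E 2, (∀ j, h j ≠ 0) → ∫⁻ z, ∫⁻ z', ENNReal.ofReal (N h z z') ≤
      (Q2 2).indicator (fun h => ENNReal.ofReal (100 * c) * ENNReal.ofReal (T ^ (-(2 * s))) *
        (∏ j, ENNReal.ofReal (|h j| ^ ((1 - s) - 1))) * D) h := by
    intro h hj
    have hh : h ≠ 0 := by
      intro h0
      apply hj 0
      rw [h0]
      rfl
    by_cases hQ : h ∈ Q2 2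
    swap
    · rw [indicator_of_notMem hQ]
      have hz : ∀ z z', N h z z' = 0 := by
        intro z z'
        apply hNz
        left
        intro hz
        apply hQ
        intro j
        have h1 := Dm_norm hz
        have h2 := PiLp.norm_apply_le h j
        rw [Real.norm_eq_abs] at h2
        exact h2.trans h1
      simp [hz]
    rw [indicator_of_mem hQ]
    obtain ⟨Θ, hΘ, hfr⟩ := frame hh
    set ρ := ‖h‖ with hρ
    have hρ0 : 0 < ρ := norm_pos_iff.2 hh
    have hcoord : ∀ z, ‖z‖ ≤ 1 → |(Θ z).1| ≤ 1 ∧ |(Θ z).2| ≤ 1 := by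
      intro z hz
      have h1 := (hfr z).2
      have h2 : ‖z‖ ^ 2 ≤ 1 := pow_le_one₀ (norm_nonneg _) hz
      constructor
      · rw [← sq_le_one_iff_abs_le_one]
        nlinarith [sq_nonneg (Θ z).2]
      · rw [← sq_le_one_iff_abs_le_one]
        nlinarith [sq_nonneg (Θ z).1]
    have hprod := frame_int hs0.le ρ (ENNReal.ofReal (100 * c) * (ws s (T * ρ) * ws s (T * ρ))) Θ hΘ
      (fun z z' => ENNReal.ofReal (N h z z')) (by
        intro z z'
        by_cases hz : z ∈ Dm h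
        swap
        · rw [hNz h z z' (Or.inl hz), ENNReal.ofReal_zero]
          exact zero_le
        by_cases hz' : z' ∈ Dm h
        swap
        · rw [hNz h z z' (Or.inr hz'), ENNReal.ofReal_zero]
          exact zero_le
        obtain ⟨a1, a2⟩ := hcoord z hz.1
        obtain ⟨b1, b2⟩ := hcoord z' hz'.1
        rw [indicator_of_mem (show (Θ z).1 ∈ Icc (-1 : ℝ) 1 from abs_le.1 a1),
          indicator_of_mem (show (Θ z).2 ∈ Icc (-1 : ℝ) 1 from abs_le.1 a2),
          indicator_of_mem (show (Θ z').1 ∈ Icc (-1 : ℝ) 1 from abs_le.1 b1),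
          indicator_of_mem (show (Θ z').2 ∈ Icc (-1 : ℝ) 1 from abs_le.1 b2)]
        simp only [Pi.one_apply, one_mul]
        obtain ⟨n1, n2⟩ := hN h z z' hz hz'
        have hdif : ∀ z, (pr h z).1 - (pr h z).2 = ρ * (2 * (Θ z).1 + ρ) := by
          intro z
          unfold pr
          simp only
          rw [norm_add_sq_real, (hfr z).1]
          ring
        have hlow := dl_low (q := (Θ z).2) (q' := (Θ z').2) hρ0.le (Dm_norm hz) a1 b1
          (hdif z) (hdif z') (hfr z).2 (hfr z').2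
        set X := |ρ * ((Θ z).1 - (Θ z').1)| with hX
        set Y := |ρ * ((2 * (Θ z).1 + ρ) * (((Θ z).2 - (Θ z').2) * ((Θ z).2 + (Θ z').2)))| with hY
        have hdl0 := dl_nonneg (pr h z) (pr h z')
        have hX0 : 0 ≤ X := abs_nonneg _
        have hY0 : 0 ≤ Y := abs_nonneg _
        have h100 : N h z z' * (T * X + T * Y) ^ 2 ≤ 100 * c := by
          have h1 : (T * X + T * Y) ^ 2 ≤ (10 * (T * dl (pr h z) (pr h z'))) ^ 2 := by
            apply pow_le_pow_left₀ (by positivity)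
            calc T * X + T * Y = T * (X + Y) := by ring
              _ ≤ T * (10 * dl (pr h z) (pr h z')) := by gcongr
              _ = _ := by ring
          calc N h z z' * (T * X + T * Y) ^ 2 ≤
                N h z z' * (10 * (T * dl (pr h z) (pr h z'))) ^ 2 :=
                mul_le_mul_of_nonneg_left h1 (hN0 _ _ _)
            _ = 100 * (N h z z' * (T * dl (pr h z) (pr h z')) ^ 2) := by ring
            _ ≤ _ := by gcongr
        have hpb := prod_bd hs0 hs1.le (hN0 h z z') (n1.trans (by linarith : c ≤ 100 * c)) h100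
          (by positivity) (by positivity)
        refine hpb.trans (le_of_eq ?_)
        have w1 : ENNReal.ofReal (T * X) ^ (-s) = ws s (T * ρ * ((Θ z).1 - (Θ z').1)) := by
          unfold ws
          congr 2
          rw [hX, mul_assoc, abs_mul T, abs_of_pos hT]
        have w2 : ENNReal.ofReal (T * Y) ^ (-s) = ws s (T * ρ * ((2 * (Θ z).1 + ρ) *
            (((Θ z).2 - (Θ z').2) * ((Θ z).2 + (Θ z').2)))) := by
          unfold ws
          congr 2
          rw [hY, mul_assoc T, abs_mul T, abs_of_pos hT]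
        rw [w1, w2, ws_mul s (T * ρ), ws_mul s (T * ρ), ws_mul s (2 * (Θ z).1 + ρ),
          ws_mul s ((Θ z).2 - (Θ z').2)]
        ring)
    refine hprod.trans ?_
    have e1 : ws s (T * ρ) * ws s (T * ρ) ≤ ENNReal.ofReal (T ^ (-(2 * s))) *
        ∏ j, ENNReal.ofReal (|h j| ^ ((1 - s) - 1)) := by
      rw [ws_mul]
      have e2 : ws s T * ws s ρ * (ws s T * ws s ρ) = (ws s T * ws s T) * (ws s ρ * ws s ρ) := by
        ring
      rw [e2]
      have e3 : ws s T * ws s T = ENNReal.ofReal (T ^ (-(2 * s))) := by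
        rw [ws_ofReal hT0, ← ENNReal.ofReal_mul (by positivity), abs_of_pos hT, ← Real.rpow_add hT]
        congr 2
        ring
      rw [e3]
      gcongr
      rw [Fin.prod_univ_two]
      have e4 : ∀ j, ws s ρ ≤ ENNReal.ofReal (|h j| ^ ((1 - s) - 1)) := by
        intro j
        have e5 : ENNReal.ofReal (|h j| ^ ((1 - s) - 1)) = ws s (h j) := by
          rw [ws_ofReal (hj j)]
          congr 2
          ring
        rw [e5]
        apply ws_anti hs0.le
        rw [abs_of_pos hρ0]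
        have h2 := PiLp.norm_apply_le h j
        rwa [Real.norm_eq_abs] at h2
      exact mul_le_mul' (e4 0) (e4 1)
    calc ENNReal.ofReal (100 * c) * (ws s (T * ρ) * ws s (T * ρ)) * D ≤
          ENNReal.ofReal (100 * c) * (ENNReal.ofReal (T ^ (-(2 * s))) *
        ∏ j, ENNReal.ofReal (|h j| ^ ((1 - s) - 1))) * D := by gcongr
      _ = _ := by ring
  calc ∫⁻ h, ∫⁻ z, ∫⁻ z', ENNReal.ofReal (N h z z') ≤
        ∫⁻ h, (Q2 2).indicator (fun h => ENNReal.ofReal (100 * c) * ENNReal.ofReal (T ^ (-(2 * s))) *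
        (∏ j, ENNReal.ofReal (|h j| ^ ((1 - s) - 1))) * D) h := by
        apply lintegral_mono_ae
        filter_upwards [ae_ne_zero 2] with h hh
        exact key h hh
    _ = ENNReal.ofReal (100 * c) * ENNReal.ofReal (T ^ (-(2 * s))) * J * D := by
        rw [lintegral_indicator (Q2_meas 2), lintegral_mul_const _ (by fun_prop),
          lintegral_const_mul _ (by fun_prop)]
    _ = _ := by
        rw [ENNReal.ofReal_mul (by norm_num)]
        ring

end Pool.Agent.W5h47.Iso
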