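import Mathlib
set_option autoImplicit false

/-! The second moment of an integral operator is bounded by the integral of the kernel of `T T*`. -/

namespace Pool.Agent.W5h47.Iso

open MeasureTheory Set Complex
open scoped ENNReal NNReal ComplexConjugate

theorem ker {P Z : Type*} [MeasurableSpace P] [MeasurableSpace Z] (π : Measure P) (ν : Measure Z)
    [IsFiniteMeasure π] [IsFiniteMeasure ν] (Φ : P → Z → ℂ)
    (hΦ : Measurable fun q : P × Z => Φ q.1 q.2) {C0 B : ℝ} (hC : ∀ p z, ‖Φ p z‖ ≤ C0)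
    (F : Z → ℂ) (hF : Measurable F) (hB : ∀ z, ‖F z‖ ≤ B) :
    ∫⁻ p, ‖∫ z, F z * Φ p z ∂ν‖ₑ ^ 2 ∂π ≤
      ENNReal.ofReal (B ^ 2) * ∫⁻ z, ∫⁻ z', ‖∫ p, Φ p z * conj (Φ p z') ∂π‖ₑ ∂ν ∂ν := by
  set G : P → ℂ := fun p => ∫ z, F z * Φ p z ∂ν with hG
  set K : Z × Z → ℂ := fun q => ∫ p, Φ p q.1 * conj (Φ p q.2) ∂π with hK
  have hmFΦ : Measurable fun q : P × Z => F q.2 * Φ q.1 q.2 := (hF.comp measurable_snd).mul hΦ
  have hGm : Measurable G := (hmFΦ.stronglyMeasurable.integral_prod_right' (ν := ν)).measurable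
  have hmK0 : Measurable fun q : (Z × Z) × P => Φ q.2 q.1.1 * conj (Φ q.2 q.1.2) := by
    apply Measurable.mul
    · exact hΦ.comp (f := fun q : (Z × Z) × P => (q.2, q.1.1)) (by fun_prop)
    · exact continuous_conj.measurable.comp
        (hΦ.comp (f := fun q : (Z × Z) × P => (q.2, q.1.2)) (by fun_prop))
  have hKm : Measurable K := (hmK0.stronglyMeasurable.integral_prod_right' (ν := π)).measurable
  -- the triple integrand
  set H : P × (Z × Z) → ℂ := fun q =>
    (F q.2.1 * Φ q.1 q.2.1) * conj (F q.2.2 * Φ q.1 q.2.2) with hH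
  have hHm : Measurable H := by
    apply Measurable.mul
    · exact hmFΦ.comp (f := fun q : P × (Z × Z) => (q.1, q.2.1)) (by fun_prop)
    · exact continuous_conj.measurable.comp
        (hmFΦ.comp (f := fun q : P × (Z × Z) => (q.1, q.2.2)) (by fun_prop))
  have hbd1 : ∀ p z, ‖F z * Φ p z‖ ≤ |B| * |C0| := by
    intro p z
    rw [norm_mul]
    exact mul_le_mul ((hB z).trans (le_abs_self _)) ((hC p z).trans (le_abs_self _))
      (norm_nonneg _) (abs_nonneg _)
  have hHb : ∀ q, ‖H q‖ ≤ (|B| * |C0|) * (|B| * |C0|) := by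
    intro q
    rw [hH]
    simp only
    rw [norm_mul, RCLike.norm_conj]
    exact mul_le_mul (hbd1 _ _) (hbd1 _ _) (norm_nonneg _) (by positivity)
  have hHi : Integrable H (π.prod (ν.prod ν)) :=
    Integrable.of_bound hHm.aestronglyMeasurable _ (Filter.Eventually.of_forall hHb)
  -- the square of the inner integral
  have hsq : ∀ p, G p * conj (G p) = ∫ q : Z × Z, H (p, q) ∂(ν.prod ν) := by
    intro p
    rw [hG, hH]
    simp only
    rw [← integral_conj, integral_prod_mul (μ := ν) (ν := ν) (f := fun z => F z * Φ p z)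
      (g := fun z => conj (F z * Φ p z))]
  have hKK : ∀ q : Z × Z, ∫ p, H (p, q) ∂π = (F q.1 * conj (F q.2)) * K q := by
    intro q
    rw [hK, hH]
    simp only
    rw [← integral_const_mul]
    congr 1
    ext p
    rw [map_mul]
    ring
  have hswap : ∫ p, G p * conj (G p) ∂π = ∫ q, (F q.1 * conj (F q.2)) * K q ∂(ν.prod ν) := by
    simp only [hsq, ← hKK]
    exact integral_integral_swap hHi
  have hGG : ∀ p, G p * conj (G p) = ((‖G p‖ ^ 2 : ℝ) : ℂ) := by
    intro p
    rw [Complex.mul_conj, Complex.normSq_eq_norm_sq]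
  have hGb : ∀ p, ‖G p‖ ≤ (|B| * |C0|) * ν.real univ := by
    intro p
    exact norm_integral_le_of_norm_le_const (Filter.Eventually.of_forall (hbd1 p))
  have hGi : Integrable (fun p => ‖G p‖ ^ 2) π := by
    refine Integrable.of_bound (hGm.norm.pow_const 2).aestronglyMeasurable
      (((|B| * |C0|) * ν.real univ) ^ 2) (Filter.Eventually.of_forall fun p => ?_)
    rw [Real.norm_of_nonneg (by positivity)]
    exact pow_le_pow_left₀ (norm_nonneg _) (hGb p) 2
  have e1 : ∫⁻ p, ‖G p‖ₑ ^ 2 ∂π = ENNReal.ofReal (∫ p, ‖G p‖ ^ 2 ∂π) := by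
    rw [ofReal_integral_eq_lintegral_ofReal hGi (Filter.Eventually.of_forall fun p => by positivity)]
    congr 1
    ext p
    rw [ENNReal.ofReal_pow (norm_nonneg _), ofReal_norm]
  have e2 : ENNReal.ofReal (∫ p, ‖G p‖ ^ 2 ∂π) = ‖∫ p, G p * conj (G p) ∂π‖ₑ := by
    simp only [hGG]
    rw [integral_complex_ofReal, ← ofReal_norm, Complex.norm_real, Real.norm_of_nonneg]
    exact integral_nonneg fun p => by positivity
  rw [e1, e2, hswap]
  refine (enorm_integral_le_lintegral_enorm _).trans ?_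
  have e3 : ∫⁻ z, ∫⁻ z', ‖∫ p, Φ p z * conj (Φ p z') ∂π‖ₑ ∂ν ∂ν = ∫⁻ q, ‖K q‖ₑ ∂(ν.prod ν) := by
    rw [lintegral_prod _ hKm.enorm.aemeasurable]
  rw [e3, ← lintegral_const_mul _ hKm.enorm]
  apply lintegral_mono
  intro q
  simp only
  rw [enorm_mul]
  gcongr
  rw [enorm_mul, ← ofReal_norm, ← ofReal_norm, ← ENNReal.ofReal_mul (norm_nonneg _)]
  apply ENNReal.ofReal_le_ofReal
  rw [RCLike.norm_conj, sq]
  exact mul_le_mul (hB _) (hB _) (norm_nonneg _) ((norm_nonneg _).trans (hB q.1))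

end Pool.Agent.W5h47.Iso
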