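import Mathlib
import Pool.Agent.W5h47.Iso.Geo
set_option autoImplicit false

/-! The kernel bound. -/

namespace Pool.Agent.W5h47.Iso

open MeasureTheory Set Complex
open scoped ENNReal NNReal ComplexConjugate

/-- window in the parameter -/
noncomputable def wu (v η u : ℝ) : ℝ := ((u - v) ^ 2 - η ^ 2) ^ 2

/-- window in time -/
noncomputable def wx (x : ℝ) : ℝ := ((x - 1 / 2) * (4 - x)) ^ 2

/-- the window -/
def Win (v η : ℝ) : Set ℝ := Icc (v - η) (v + η)

/-- the times -/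
def Xs : Set ℝ := Icc (1 / 2) 4

lemma wu_C2 {v η : ℝ} (h0 : 0 ≤ η) (h1 : η ≤ 1) : C2 (Win v η) 12 (wu v η)
    (fun u => 4 * (u - v) * ((u - v) ^ 2 - η ^ 2))
    (fun u => 4 * ((u - v) ^ 2 - η ^ 2) + 8 * (u - v) ^ 2) := by
  have hd : ∀ u : ℝ, HasDerivAt (fun u : ℝ => (u - v) ^ 2 - η ^ 2) (2 * (u - v)) u := by
    intro u
    have := (((hasDerivAt_id u).sub_const v).fun_pow 2).sub_const (η ^ 2)
    refine this.congr_deriv ?_
    simp
  have hb : ∀ u ∈ Win v η, |u - v| ≤ 1 ∧ |(u - v) ^ 2 - η ^ 2| ≤ 1 ∧ (u - v) ^ 2 ≤ 1 := by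
    intro u hu
    have hu1 : v - η ≤ u := hu.1
    have hu2 : u ≤ v + η := hu.2
    have h2 : |u - v| ≤ η := by rw [abs_le]; constructor <;> linarith
    have h3 : (u - v) ^ 2 ≤ η ^ 2 := by
      rw [← sq_abs (u - v)]
      exact pow_le_pow_left₀ (abs_nonneg _) h2 2
    have h4 : η ^ 2 ≤ 1 := pow_le_one₀ h0 h1
    refine ⟨h2.trans h1, ?_, h3.trans h4⟩
    rw [abs_le]
    constructor <;> nlinarith [sq_nonneg (u - v)]
  refine ⟨fun u _ => ?_, fun u _ => ?_, by fun_prop, fun u hu => ?_, fun u hu => ?_,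
    fun u hu => ?_⟩
  · unfold wu
    refine ((hd u).fun_pow 2).congr_deriv ?_
    simp only [Nat.cast_ofNat, Nat.add_one_sub_one, pow_one]
    ring
  · have h2 : HasDerivAt (fun u : ℝ => 4 * (u - v)) 4 u := by
      have := ((hasDerivAt_id u).sub_const v).const_mul 4
      simpa using this
    refine (h2.mul (hd u)).congr_deriv ?_
    ring
  · obtain ⟨b1, b2, b3⟩ := hb u hu
    unfold wu
    rw [abs_pow]
    have := pow_le_one₀ (n := 2) (abs_nonneg _) b2
    linarith
  · obtain ⟨b1, b2, b3⟩ := hb u hu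
    rw [abs_mul, abs_mul, abs_of_pos (by norm_num : (0:ℝ) < 4)]
    have : |u - v| * |(u - v) ^ 2 - η ^ 2| ≤ 1 * 1 :=
      mul_le_mul b1 b2 (abs_nonneg _) (by norm_num)
    nlinarith
  · obtain ⟨b1, b2, b3⟩ := hb u hu
    refine (abs_add_le _ _).trans ?_
    rw [abs_mul, abs_mul, abs_of_pos (by norm_num : (0:ℝ) < 4),
      abs_of_pos (by norm_num : (0:ℝ) < 8), abs_of_nonneg (sq_nonneg (u - v))]
    linarith

lemma wx_C2 : C2 Xs 50 wx (fun x => 2 * ((x - 1 / 2) * (4 - x)) * (9 / 2 - 2 * x))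
    (fun x => 2 * ((9 / 2 - 2 * x) ^ 2 - 2 * ((x - 1 / 2) * (4 - x)))) := by
  have hd : ∀ x : ℝ, HasDerivAt (fun x : ℝ => (x - 1 / 2) * (4 - x)) (9 / 2 - 2 * x) x := by
    intro x
    have h1 := (hasDerivAt_id x).sub_const (1 / 2)
    have h2 := (hasDerivAt_id x).const_sub 4
    refine (h1.mul h2).congr_deriv ?_
    simp only [id]
    ring
  have hb : ∀ x ∈ Xs, 0 ≤ (x - 1 / 2) * (4 - x) ∧ (x - 1 / 2) * (4 - x) ≤ 49 / 16 ∧
      |9 / 2 - 2 * x| ≤ 7 / 2 := by
    intro x hx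
    have h1 : 1 / 2 ≤ x := hx.1
    have h2 : x ≤ 4 := hx.2
    refine ⟨mul_nonneg (by linarith) (by linarith), ?_, ?_⟩
    · nlinarith [sq_nonneg (x - 9 / 4)]
    · rw [abs_le]
      constructor <;> linarith
  refine ⟨fun x _ => ?_, fun x _ => ?_, by fun_prop, fun x hx => ?_, fun x hx => ?_,
    fun x hx => ?_⟩
  · unfold wx
    refine ((hd x).fun_pow 2).congr_deriv ?_
    simp only [Nat.cast_ofNat, Nat.add_one_sub_one, pow_one]
  · have h2 : HasDerivAt (fun x : ℝ => 9 / 2 - 2 * x) (-2) x := by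
      have := ((hasDerivAt_id x).const_mul 2).const_sub (9 / 2)
      simpa using this
    refine (((hd x).const_mul 2).mul h2).congr_deriv ?_
    ring
  · obtain ⟨b1, b2, b3⟩ := hb x hx
    unfold wx
    rw [abs_of_nonneg (by positivity)]
    nlinarith
  · obtain ⟨b1, b2, b3⟩ := hb x hx
    rw [abs_mul, abs_of_nonneg (by positivity : 0 ≤ 2 * ((x - 1 / 2) * (4 - x)))]
    have : 2 * ((x - 1 / 2) * (4 - x)) * |9 / 2 - 2 * x| ≤ 2 * (49 / 16) * (7 / 2) := by
      apply mul_le_mul _ b3 (abs_nonneg _) (by norm_num)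
      linarith
    linarith
  · obtain ⟨b1, b2, b3⟩ := hb x hx
    have h3 : (9 / 2 - 2 * x) ^ 2 ≤ (7 / 2) ^ 2 := by
      rw [← sq_abs (9 / 2 - 2 * x)]
      exact pow_le_pow_left₀ (abs_nonneg _) b3 2
    have h4 := sq_nonneg (9 / 2 - 2 * x)
    rw [abs_le]
    constructor <;> linarith

lemma C2.mono {s t : Set ℝ} {K L : ℝ} {f f1 f2 : ℝ → ℝ} (h : C2 s K f f1 f2) (hst : t ⊆ s)
    (hKL : K ≤ L) : C2 t L f f1 f2 :=
  ⟨fun x hx => h.d0 x (hst hx), fun x hx => h.d1 x (hst hx), h.c2.mono hst,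
    fun x hx => (h.b0 x (hst hx)).trans hKL, fun x hx => (h.b1 x (hst hx)).trans hKL,
    fun x hx => (h.b2 x (hst hx)).trans hKL⟩

/-- amplitude constant -/
noncomputable def KA (κ : ℝ) (m : ℕ) : ℝ := ((m : ℝ) + 2) ^ 2 * (κ ^ (m + 4))⁻¹

variable {a b κ : ℝ}

lemma Reg.hh_C2 (R : Reg a b κ) (m : ℕ) {σ : ℝ} (hσ : σ ∈ Icc (0:ℝ) 1) :
    C2 (Icc a b) (KA κ m) (fun u => hh 0 m u σ) (fun u => (m / 2) * hh 1 (m + 2) u σ)
      (fun u => (m / 2) * ((((m + 2 : ℕ) : ℝ) / 2) * hh 2 (m + 4) u σ)) := by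
  have hm : (0:ℝ) ≤ m := Nat.cast_nonneg m
  have hκ : 0 < (κ ^ (m + 4))⁻¹ := inv_pos.2 (pow_pos R.κ0 _)
  refine ⟨fun u hu => hh_du 0 m (R.pos hu hσ), fun u hu => ?_, fun u hu => ?_, fun u hu => ?_,
    fun u hu => ?_, fun u hu => ?_⟩
  · exact (hh_du 1 (m + 2) (R.pos hu hσ)).const_mul _
  · exact (((hh_du 2 (m + 4) (R.pos hu hσ)).const_mul _).const_mul _).continuousAt.continuousWithinAt
  · have h1 := R.hbd hu hσ 0 m (m + 4) (by omega)
    refine h1.trans ?_
    unfold KA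
    have : (1:ℝ) ≤ ((m : ℝ) + 2) ^ 2 := by nlinarith
    nlinarith
  · have h1 := R.hbd hu hσ 1 (m + 2) (m + 4) (by omega)
    rw [abs_mul, abs_of_nonneg (by positivity : (0:ℝ) ≤ m / 2)]
    calc (m : ℝ) / 2 * |hh 1 (m + 2) u σ| ≤ m / 2 * (κ ^ (m + 4))⁻¹ := by gcongr
      _ ≤ _ := by
        unfold KA
        apply mul_le_mul_of_nonneg_right _ hκ.le
        nlinarith
  · have h1 := R.hbd hu hσ 2 (m + 4) (m + 4) le_rfl
    rw [abs_mul, abs_mul, abs_of_nonneg (by positivity : (0:ℝ) ≤ m / 2),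
      abs_of_nonneg (by positivity : (0:ℝ) ≤ ((m + 2 : ℕ) : ℝ) / 2)]
    calc (m : ℝ) / 2 * (((m + 2 : ℕ) : ℝ) / 2 * |hh 2 (m + 4) u σ|) ≤
          m / 2 * (((m + 2 : ℕ) : ℝ) / 2 * (κ ^ (m + 4))⁻¹) := by gcongr
      _ = (m / 2 * (((m + 2 : ℕ) : ℝ) / 2)) * (κ ^ (m + 4))⁻¹ := by ring
      _ ≤ _ := by
        unfold KA
        apply mul_le_mul_of_nonneg_right _ hκ.le
        push_cast
        nlinarith

/-- the amplitude of one pair -/
noncomputable def am (m : ℕ) (p : ℝ × ℝ) (u : ℝ) : ℝ := hh 0 m u p.1 * hh 0 m u p.2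

/-- constant for the whole amplitude -/
noncomputable def KB (κ : ℝ) (m : ℕ) : ℝ :=
  4 * (12 * (4 * ((4 * (KA κ m * KA κ m)) * (4 * (KA κ m * KA κ m)))))

lemma Reg.B_C2 (R : Reg a b κ) (m : ℕ) {v η : ℝ} (h0 : 0 ≤ η) (h1 : η ≤ 1)
    (hsub : Win v η ⊆ Icc a b) {p p' : ℝ × ℝ} (hp : p ∈ Sq) (hp' : p' ∈ Sq) :
    ∃ B1 B2 : ℝ → ℝ, C2 (Win v η) (KB κ m) (fun u => wu v η u * (am m p u * am m p' u)) B1 B2 ∧
      B1 (v - η) = 0 ∧ B1 (v + η) = 0 := by
  have c1 := (R.hh_C2 m hp.1).mul (R.hh_C2 m hp.2)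
  have c2 := (R.hh_C2 m hp'.1).mul (R.hh_C2 m hp'.2)
  have c3 := (c1.mul c2).mono hsub le_rfl
  have c4 := (wu_C2 h0 h1 (v := v)).mul c3
  refine ⟨_, _, c4, ?_, ?_⟩
  · simp only [wu]
    ring
  · simp only [wu]
    ring

lemma KA_pos (h : 0 < κ) (m : ℕ) : 0 < KA κ m := by
  unfold KA
  positivity

lemma KB_pos (h : 0 < κ) (m : ℕ) : 0 < KB κ m := by
  have := KA_pos h m
  unfold KB
  positivity

/-- the kernel integrand -/
noncomputable def kf (m : ℕ) (v η τ : ℝ) (p p' : ℝ × ℝ) (q : ℝ × ℝ) : ℂ :=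
  ((wu v η q.1 * (am m p q.1 * am m p' q.1) : ℝ) : ℂ) * (((wx q.2 : ℝ) : ℂ) *
    cexp (((2 * Real.pi * τ * q.2 * D0 p p' q.1 : ℝ) : ℂ) * I))

/-- the kernel -/
noncomputable def KN (m : ℕ) (v η τ : ℝ) (p p' : ℝ × ℝ) : ℂ :=
  ∫ q in Win v η ×ˢ Xs, kf m v η τ p p' q

lemma kf_norm (m : ℕ) (v η τ : ℝ) (p p' : ℝ × ℝ) (q : ℝ × ℝ) :
    ‖kf m v η τ p p' q‖ = |wu v η q.1 * (am m p q.1 * am m p' q.1)| * |wx q.2| := by
  unfold kf
  rw [norm_mul, norm_mul, Complex.norm_exp_ofReal_mul_I, mul_one, Complex.norm_real,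
    Complex.norm_real, Real.norm_eq_abs, Real.norm_eq_abs]

/-- interval integrals over the window -/
lemma int_win {v η : ℝ} (h0 : 0 ≤ η) (f : ℝ → ℂ) :
    ∫ u in Win v η, f u = ∫ u in (v - η)..(v + η), f u := by
  unfold Win
  rw [integral_Icc_eq_integral_Ioc, intervalIntegral.integral_of_le (by linarith)]

lemma int_xs (f : ℝ → ℂ) : ∫ x in Xs, f x = ∫ x in (1 / 2 : ℝ)..4, f x := by
  unfold Xs
  rw [integral_Icc_eq_integral_Ioc, intervalIntegral.integral_of_le (by norm_num)]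

lemma win_real {v η : ℝ} (h0 : 0 ≤ η) : (volume : Measure ℝ).real (Win v η) = 2 * η := by
  unfold Win
  rw [Real.volume_real_Icc_of_le (by linarith)]
  ring

lemma xs_real : (volume : Measure ℝ).real Xs = 7 / 2 := by
  unfold Xs
  rw [Real.volume_real_Icc_of_le (by norm_num)]
  norm_num

lemma win_lt {v η : ℝ} : volume (Win v η) < ⊤ := measure_Icc_lt_top
lemma xs_lt : volume Xs < ⊤ := measure_Icc_lt_top

/-- the constants -/
noncomputable def c1 (a κ : ℝ) : ℝ := a ^ 2 * κ / 108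

noncomputable def CK (a κ : ℝ) (m : ℕ) : ℝ :=
  KB κ m * 350 * (1 + 4 * (CU κ / c1 a κ) + 3 * (CU κ / c1 a κ) ^ 2) / c1 a κ ^ 2 +
    KB κ m * 350

lemma Reg.c1_pos (R : Reg a b κ) : 0 < c1 a κ := by
  have := R.a0
  have := R.κ0
  unfold c1
  positivity

lemma CU_nonneg (h : 0 < κ) : 0 ≤ CU κ := by
  have g1 := GG_nonneg h 1 1
  have g2 := GG_nonneg h 2 3
  have g3 := GG_nonneg h 3 5
  unfold CU
  positivity

lemma Reg.kf_cont (R : Reg a b κ) (m : ℕ) {v η : ℝ} (h0 : 0 ≤ η) (h1 : η ≤ 1)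
    (hsub : Win v η ⊆ Icc a b) (τ : ℝ) {p p' : ℝ × ℝ} (hp : p ∈ Sq) (hp' : p' ∈ Sq) :
    ContinuousOn (kf m v η τ p p') (Win v η ×ˢ Xs) := by
  obtain ⟨B1, B2, hC, -, -⟩ := R.B_C2 m h0 h1 hsub hp hp'
  have hB : ContinuousOn (fun u => wu v η u * (am m p u * am m p' u)) (Win v η) :=
    fun u hu => (hC.d0 u hu).continuousAt.continuousWithinAt
  have hD : ContinuousOn (D0 p p') (Win v η) :=
    fun u hu => (R.D0d hp hp' (hsub hu)).continuousAt.continuousWithinAt
  have hw : Continuous wx := by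
    unfold wx
    fun_prop
  have f1 : ContinuousOn (Prod.fst : ℝ × ℝ → ℝ) (Win v η ×ˢ Xs) := continuousOn_fst
  have m1 : MapsTo (Prod.fst : ℝ × ℝ → ℝ) (Win v η ×ˢ Xs) (Win v η) := fun q hq => hq.1
  unfold kf
  apply ContinuousOn.mul
  · exact continuous_ofReal.comp_continuousOn (hB.comp f1 m1)
  · apply ContinuousOn.mul
    · exact (continuous_ofReal.comp (hw.comp continuous_snd)).continuousOn
    · apply Complex.continuous_exp.comp_continuousOn
      apply ContinuousOn.mul _ continuousOn_const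
      apply continuous_ofReal.comp_continuousOn
      exact (continuousOn_const.mul continuousOn_snd).mul (hD.comp f1 m1)

/-- the kernel bound -/
theorem Reg.kn_bound (R : Reg a b κ) (m : ℕ) {v η : ℝ} (h0 : 0 ≤ η) (h1 : η ≤ 1)
    (hsub : Win v η ⊆ Icc a b) (hsm : η * CU κ ≤ c1 a κ) (τ : ℝ) {p p' : ℝ × ℝ}
    (hp : p ∈ Sq) (hp' : p' ∈ Sq) :
    ‖KN m v η τ p p'‖ ≤ CK a κ m ∧ ‖KN m v η τ p p'‖ * (|τ| * dl p p') ^ 2 ≤ CK a κ m := by
  obtain ⟨B1, B2, hC, hz1, hz2⟩ := R.B_C2 m h0 h1 hsub hp hp'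
  have hc1 := R.c1_pos
  have hKB := KB_pos R.κ0 m
  have hCU := CU_nonneg R.κ0
  set c := c1 a κ with hc
  set Λ := CU κ / c with hΛ
  have hΛ0 : 0 ≤ Λ := div_nonneg hCU hc1.le
  have hcont := R.kf_cont m h0 h1 hsub τ hp hp'
  have hint : IntegrableOn (kf m v η τ p p') (Win v η ×ˢ Xs)
      ((volume : Measure ℝ).prod (volume : Measure ℝ)) := by
    apply ContinuousOn.integrableOn_compact _ hcont
    exact isCompact_Icc.prod isCompact_Icc
  have hwx : ∀ x ∈ Xs, |wx x| ≤ 50 := wx_C2.b0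
  have hB0 : ∀ u ∈ Win v η, |wu v η u * (am m p u * am m p' u)| ≤ KB κ m := hC.b0
  have hmW : MeasurableSet (Win v η) := measurableSet_Icc
  have hmX : MeasurableSet Xs := measurableSet_Icc
  -- the two iterated integrals
  have it1 : KN m v η τ p p' = ∫ u in Win v η, ∫ x in Xs, kf m v η τ p p' (u, x) := by
    unfold KN
    exact setIntegral_prod _ hint
  have it2 : KN m v η τ p p' = ∫ x in Xs, ∫ u in Win v η, kf m v η τ p p' (u, x) := by
    rw [it1]
    have h2 : Integrable (Function.uncurry fun u x => kf m v η τ p p' (u, x))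
        ((volume.restrict (Win v η)).prod (volume.restrict Xs)) := by
      rw [Measure.prod_restrict]
      exact hint
    exact integral_integral_swap h2
  have htriv : ‖KN m v η τ p p'‖ ≤ KB κ m * 350 := by
    rw [it1]
    have hin : ∀ u ∈ Win v η, ‖∫ x in Xs, kf m v η τ p p' (u, x)‖ ≤ (KB κ m * 50) * (7 / 2) := by
      intro u hu
      rw [← xs_real]
      apply norm_setIntegral_le_of_norm_le_const xs_lt
      intro x hx
      rw [kf_norm]
      exact mul_le_mul (hB0 u hu) (hwx x hx) (abs_nonneg _) hKB.le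
    have := norm_setIntegral_le_of_norm_le_const win_lt hin
    rw [win_real h0] at this
    refine this.trans ?_
    nlinarith
  have hb2 : KB κ m * 350 ≤ CK a κ m := by
    unfold CK
    have : 0 ≤ KB κ m * 350 * (1 + 4 * (CU κ / c1 a κ) + 3 * (CU κ / c1 a κ) ^ 2) /
      c1 a κ ^ 2 := by
      rw [← hc, ← hΛ]
      positivity
    linarith
  refine ⟨htriv.trans hb2, ?_⟩
  rcases eq_or_lt_of_le (dl_nonneg p p') with hdl | hdl
  · rw [← hdl, mul_zero]
    have : 0 ≤ CK a κ m := (norm_nonneg _).trans (htriv.trans hb2)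
    simpa using this
  rcases eq_or_ne τ 0 with hτ | hτ
  · rw [hτ, abs_zero, zero_mul]
    have : 0 ≤ CK a κ m := (norm_nonneg _).trans (htriv.trans hb2)
    simpa using this
  have hτ0 : 0 < |τ| := abs_pos.2 hτ
  set L := c * dl p p' with hL
  have hL0 : 0 < L := mul_pos hc1 hdl
  have hv : v ∈ Win v η := ⟨by linarith, by linarith⟩
  have hlow := R.D_low hp hp' (hsub hv)
  have hlow2 : 4 * L ≤ |D0 p p' v| + |D1 p p' v| := by
    have ha := R.a0
    have hk := R.κ0
    have e1 : 4 * L = (a ^ 2 * κ / 27) * dl p p' := by rw [hL, hc]; unfold c1; ring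
    rw [e1]
    calc (a ^ 2 * κ / 27) * dl p p' ≤ (a ^ 2 * κ / 27) *
          (27 / (a ^ 2 * κ) * (|D0 p p' v| + |D1 p p' v|)) := by gcongr
      _ = _ := by field_simp
  have hvar : ∀ u ∈ Win v η, |D0 p p' u - D0 p p' v| ≤ L ∧ |D1 p p' u - D1 p p' v| ≤ L := by
    intro u hu
    have hcv : Convex ℝ (Win v η) := convex_Icc _ _
    have hUL : CU κ * dl p p' * η ≤ L := by
      rw [hL]
      nlinarith
    have hdist : ‖u - v‖ ≤ η := by
      rw [Real.norm_eq_abs, abs_le]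
      constructor <;> linarith [hu.1, hu.2]
    constructor
    · have := hcv.norm_image_sub_le_of_norm_hasDerivWithin_le
        (f := D0 p p') (f' := D1 p p') (C := CU κ * dl p p')
        (fun w hw => (R.D0d hp hp' (hsub hw)).hasDerivWithinAt)
        (fun w hw => (R.D_up hp hp' (hsub hw)).1) hv hu
      rw [Real.norm_eq_abs] at this
      refine this.trans (le_trans ?_ hUL)
      exact mul_le_mul_of_nonneg_left hdist (mul_nonneg hCU hdl.le)
    · have := hcv.norm_image_sub_le_of_norm_hasDerivWithin_le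
        (f := D1 p p') (f' := D2 p p') (C := CU κ * dl p p')
        (fun w hw => (R.D1d hp hp' (hsub hw)).hasDerivWithinAt)
        (fun w hw => (R.D_up hp hp' (hsub hw)).2.1) hv hu
      rw [Real.norm_eq_abs] at this
      refine this.trans (le_trans ?_ hUL)
      exact mul_le_mul_of_nonneg_left hdist (mul_nonneg hCU hdl.le)
  have hX : |τ| * dl p p' = |τ| * L / c := by
    rw [hL]
    field_simp
  set X := |τ| * L with hXd
  have hX0 : 0 < X := mul_pos hτ0 hL0
  have hpi : (1:ℝ) ≤ 2 * Real.pi := by linarith [Real.pi_gt_three]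
  -- reduction to a bound by `X`
  have hred : ∀ N : ℝ, ‖KN m v η τ p p'‖ ≤ N / X ^ 2 → N ≤ KB κ m * 350 * (1 + 4 * Λ + 3 * Λ ^ 2) →
      ‖KN m v η τ p p'‖ * (|τ| * dl p p') ^ 2 ≤ CK a κ m := by
    intro N h2 h3
    rw [hX]
    have e1 : ‖KN m v η τ p p'‖ * (X / c) ^ 2 = ‖KN m v η τ p p'‖ * X ^ 2 / c ^ 2 := by
      rw [div_pow]
      ring
    rw [e1]
    have h4 : ‖KN m v η τ p p'‖ * X ^ 2 ≤ N := by
      rwa [le_div_iff₀ (by positivity)] at h2
    have h5 : ‖KN m v η τ p p'‖ * X ^ 2 / c ^ 2 ≤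
        KB κ m * 350 * (1 + 4 * Λ + 3 * Λ ^ 2) / c ^ 2 :=
      div_le_div_of_nonneg_right (h4.trans h3) (by positivity)
    refine h5.trans ?_
    unfold CK
    rw [← hc, ← hΛ]
    have : 0 ≤ KB κ m * 350 := by positivity
    linarith
  have hcase : (∀ u ∈ Win v η, L ≤ |D0 p p' u|) ∨ (∀ u ∈ Win v η, L ≤ |D1 p p' u|) := by
    rcases le_or_gt (2 * L) |D0 p p' v| with h | h
    · left
      intro u hu
      have h2 := (hvar u hu).1
      have h3 := abs_sub_abs_le_abs_sub (D0 p p' v) (D0 p p' u)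
      rw [abs_sub_comm] at h3
      linarith
    · right
      intro u hu
      have h2 := (hvar u hu).2
      have h3 := abs_sub_abs_le_abs_sub (D1 p p' v) (D1 p p' u)
      rw [abs_sub_comm] at h3
      linarith
  rcases hcase with hA | hA
  · -- integration by parts in time
    apply hred (KB κ m * 350)
    · rw [it1]
      have hin : ∀ u ∈ Win v η, ‖∫ x in Xs, kf m v η τ p p' (u, x)‖ ≤ KB κ m * (175 / X ^ 2) := by
        intro u hu
        have hDu := hA u hu
        set lam := |2 * Real.pi * τ * D0 p p' u| with hlam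
        have hlamX : X ≤ lam := by
          rw [hlam, abs_mul, abs_mul, abs_of_pos (by linarith : 0 < 2 * Real.pi), hXd]
          calc |τ| * L ≤ |τ| * |D0 p p' u| := by gcongr
            _ = 1 * (|τ| * |D0 p p' u|) := (one_mul _).symm
            _ ≤ 2 * Real.pi * (|τ| * |D0 p p' u|) := by gcongr
            _ = _ := by ring
        have hlam0 : 0 < lam := lt_of_lt_of_le hX0 hlamX
        have hns := ns (a := 1 / 2) (b := 4) (by norm_num) wx _ _
          (fun x => 2 * Real.pi * τ * x * D0 p p' u) (fun _ => 2 * Real.pi * τ * D0 p p' u)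
          (fun _ => 0) (fun _ => 0) wx_C2.d0 wx_C2.d1 (by
            intro x _
            have := ((hasDerivAt_id x).const_mul (2 * Real.pi * τ)).mul_const (D0 p p' u)
            refine this.congr_deriv ?_
            ring) (fun x _ => hasDerivAt_const x _) (fun x _ => hasDerivAt_const x _)
          wx_C2.c2 continuousOn_const (by norm_num [wx]) (by norm_num [wx]) (by norm_num)
          (by norm_num) (K := 50) (Λ := 0) (lam := lam) hlam0 wx_C2.b0 wx_C2.b1 wx_C2.b2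
          (fun x _ => le_rfl) (by simp) (by simp)
        have e1 : ∫ x in Xs, kf m v η τ p p' (u, x) =
            ((wu v η u * (am m p u * am m p' u) : ℝ) : ℂ) * ∫ x in (1 / 2 : ℝ)..4,
              (wx x : ℂ) * cexp (((2 * Real.pi * τ * x * D0 p p' u : ℝ) : ℂ) * I) := by
          rw [int_xs, ← intervalIntegral.integral_const_mul]
          rfl
        rw [e1, norm_mul, Complex.norm_real, Real.norm_eq_abs]
        refine mul_le_mul (hB0 u hu) (hns.trans ?_) (norm_nonneg _) hKB.le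
        have e2 : (50 * (1 + 4 * 0 + 3 * 0 ^ 2) / lam ^ 2) * ((4:ℝ) - 1 / 2) = 175 / lam ^ 2 := by
          ring
        rw [e2]
        gcongr
      have := norm_setIntegral_le_of_norm_le_const win_lt hin
      rw [win_real h0] at this
      refine this.trans ?_
      have h5 : 0 ≤ KB κ m * (175 / X ^ 2) := by positivity
      calc KB κ m * (175 / X ^ 2) * (2 * η) ≤ KB κ m * (175 / X ^ 2) * (2 * 1) := by gcongr
        _ = _ := by ring
    · have : 0 ≤ KB κ m * 350 := by positivity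
      nlinarith [mul_nonneg this hΛ0, mul_nonneg this (sq_nonneg Λ)]
  · -- integration by parts in the parameter
    apply hred (KB κ m * 350 * (1 + 4 * Λ + 3 * Λ ^ 2)) _ le_rfl
    rw [it2]
    have hin : ∀ x ∈ Xs, ‖∫ u in Win v η, kf m v η τ p p' (u, x)‖ ≤
        50 * ((KB κ m * (1 + 4 * Λ + 3 * Λ ^ 2) / X ^ 2) * 2) := by
      intro x hx
      have hx1 : 1 / 2 ≤ x := hx.1
      have hx0 : 0 < x := by linarith
      set g := 2 * Real.pi * |τ| * x with hg
      have hg0 : 0 < g := by have := Real.pi_pos; positivity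
      have hgτ : |τ| ≤ g := by
        rw [hg]
        have : 1 ≤ 2 * Real.pi * x := by nlinarith [Real.pi_gt_three]
        calc |τ| = |τ| * 1 := (mul_one _).symm
          _ ≤ |τ| * (2 * Real.pi * x) := by gcongr
          _ = _ := by ring
      have habs : ∀ y : ℝ, |2 * Real.pi * τ * x * y| = g * |y| := by
        intro y
        rw [abs_mul, abs_mul, abs_mul, abs_of_pos (by linarith : 0 < 2 * Real.pi), abs_of_pos hx0]
      have hns := ns (a := v - η) (b := v + η) (by linarith)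
        (fun u => wu v η u * (am m p u * am m p' u)) B1 B2
        (fun u => 2 * Real.pi * τ * x * D0 p p' u) (fun u => 2 * Real.pi * τ * x * D1 p p' u)
        (fun u => 2 * Real.pi * τ * x * D2 p p' u) (fun u => 2 * Real.pi * τ * x * D3 p p' u)
        hC.d0 hC.d1 (fun u hu => (R.D0d hp hp' (hsub hu)).const_mul _)
        (fun u hu => (R.D1d hp hp' (hsub hu)).const_mul _)
        (fun u hu => (R.D2d hp hp' (hsub hu)).const_mul _) hC.c2
        (continuousOn_const.mul ((R.D3c hp hp').mono hsub))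
        (by simp [wu]) (by simp [wu]) hz1 hz2 (K := KB κ m) (Λ := Λ) (lam := g * L)
        (mul_pos hg0 hL0) hC.b0 hC.b1 hC.b2
        (fun u hu => by rw [habs]; exact mul_le_mul_of_nonneg_left (hA u hu) hg0.le)
        (fun u hu => by
          rw [habs]
          have h2 := (R.D_up hp hp' (hsub hu)).2.1
          calc g * |D2 p p' u| ≤ g * (CU κ * dl p p') := by gcongr
            _ = Λ * (g * L) := by rw [hΛ, hL]; field_simp)
        (fun u hu => by
          rw [habs]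
          have h2 := (R.D_up hp hp' (hsub hu)).2.2
          calc g * |D3 p p' u| ≤ g * (CU κ * dl p p') := by gcongr
            _ = Λ * (g * L) := by rw [hΛ, hL]; field_simp)
      have e1 : ∫ u in Win v η, kf m v η τ p p' (u, x) =
          ((wx x : ℝ) : ℂ) * ∫ u in (v - η)..(v + η),
            ((wu v η u * (am m p u * am m p' u) : ℝ) : ℂ) *
              cexp (((2 * Real.pi * τ * x * D0 p p' u : ℝ) : ℂ) * I) := by
        rw [int_win h0, ← intervalIntegral.integral_const_mul]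
        congr 1
        ext u
        unfold kf
        ring
      rw [e1, norm_mul, Complex.norm_real, Real.norm_eq_abs]
      refine mul_le_mul (hwx x hx) (hns.trans ?_) (norm_nonneg _) (by norm_num)
      have e2 : v + η - (v - η) = 2 * η := by ring
      rw [e2]
      have h5 : X ≤ g * L := by
        rw [hXd]
        gcongr
      have h6 : KB κ m * (1 + 4 * Λ + 3 * Λ ^ 2) / (g * L) ^ 2 ≤
          KB κ m * (1 + 4 * Λ + 3 * Λ ^ 2) / X ^ 2 := by gcongr
      have h7 : 0 ≤ KB κ m * (1 + 4 * Λ + 3 * Λ ^ 2) / X ^ 2 := by positivity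
      exact mul_le_mul h6 (by linarith) (by linarith) h7
    have := norm_setIntegral_le_of_norm_le_const xs_lt hin
    rw [xs_real] at this
    refine this.trans (le_of_eq ?_)
    ring

end Pool.Agent.W5h47.Iso
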