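import Mathlib
import Pool.Agent.W777.SP.Basic
import Pool.Agent.W5h47.Iso.KerA
import Pool.Agent.W5h47.Iso.KerB
import Pool.Agent.W5h47.Iso.Int
set_option autoImplicit false

/-! The fourth moment in a window. -/

namespace Pool.Agent.W5h47.Iso

open MeasureTheory Set Complex
open scoped ENNReal NNReal ComplexConjugate FourierTransform RealInnerProductSpace
open Pool.Agent.H153R4 (E BS ST ST_meas ST_vol cube cube_vol cube_meas kk BB four)
open Pool.Agent.W203.SP (DS ee pw gs DM NQ)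

/-- equal parameters -/
abbrev su (u : ℝ) : Fin 2 → ℝ := fun _ => u

lemma pw_su (u : ℝ) (z : E 2) : pw 1 (su u) z = 1 - u * ‖z‖ ^ 2 := by
  unfold pw su
  rw [EuclideanSpace.norm_sq_eq, Finset.mul_sum]
  simp

lemma gs_su (m : ℕ) (t u : ℝ) (f : E 2 → ℂ) (z : E 2) :
    gs m t (su u) f z = ee (t * rr u (‖z‖ ^ 2)) * ((hh 0 m u (‖z‖ ^ 2) : ℝ) : ℂ) * f z := by
  unfold gs hh rr
  rw [pw_su, pow_zero, one_mul, one_div]

lemma ee_sub (x y : ℝ) : ee x * conj (ee y) = ee (x - y) := by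
  unfold ee
  rw [← Complex.exp_conj, ← Complex.exp_add]
  congr 1
  rw [map_mul, conj_I, conj_ofReal]
  push_cast
  ring

lemma kk_su (m : ℕ) (t u : ℝ) (f : E 2 → ℂ) (h z : E 2) :
    kk (gs m t (su u) f) h z = ((am m (pr h z) u : ℝ) : ℂ) *
      ee (t * (rr u (pr h z).1 - rr u (pr h z).2)) * (f (z + h) * conj (f z)) := by
  unfold kk
  rw [gs_su, gs_su, map_mul, map_mul, conj_ofReal]
  have h1 := ee_sub (t * rr u (‖z + h‖ ^ 2)) (t * rr u (‖z‖ ^ 2))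
  have h2 : t * (rr u (pr h z).1 - rr u (pr h z).2) =
      t * rr u (‖z + h‖ ^ 2) - t * rr u (‖z‖ ^ 2) := by
    unfold pr
    ring
  rw [h2, ← h1]
  unfold am pr
  push_cast
  ring

/-- the region of the parameter and the time -/
def Rg (v η : ℝ) : Set (ℝ × ℝ) := Win v η ×ˢ Xs

lemma Rg_meas (v η : ℝ) : MeasurableSet (Rg v η) := measurableSet_Icc.prod measurableSet_Icc

lemma Rg_lt (v η : ℝ) : volume (Rg v η) < ⊤ := (isCompact_Icc.prod isCompact_Icc).measure_lt_top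

/-- the weight -/
noncomputable def wt (v η : ℝ) (q : ℝ × ℝ) : ℝ := wu v η q.1 * wx q.2

lemma wt_nonneg (v η : ℝ) (q : ℝ × ℝ) : 0 ≤ wt v η q := by
  unfold wt wu wx
  positivity

lemma Dm_meas (h : E 2) : MeasurableSet (Dm h) := by
  have h1 : IsClosed {z : E 2 | ‖z‖ ≤ 1} := isClosed_le (by fun_prop) continuous_const
  have h2 : IsClosed {z : E 2 | ‖z + h‖ ≤ 1} := isClosed_le (by fun_prop) continuous_const
  have h3 : Dm h = {z : E 2 | ‖z‖ ≤ 1} ∩ {z : E 2 | ‖z + h‖ ≤ 1} := by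
    ext z
    unfold Dm
    simp
  rw [h3]
  exact (h1.inter h2).measurableSet

/-- the operator kernel -/
noncomputable def Ph (m : ℕ) (v η τ : ℝ) (h : E 2) (q : ℝ × ℝ) (z : E 2) : ℂ :=
  (Rg v η ×ˢ Dm h).indicator (fun r : (ℝ × ℝ) × E 2 =>
    ((Real.sqrt (wt v η r.1) * am m (pr h r.2) r.1.1 : ℝ) : ℂ) *
      ee (τ * r.1.2 * (rr r.1.1 (pr h r.2).1 - rr r.1.1 (pr h r.2).2))) (q, z)

lemma rr_meas : Measurable fun r : ℝ × ℝ => rr r.1 r.2 := by
  unfold rr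
  fun_prop

lemma hh_meas (j i : ℕ) : Measurable fun r : ℝ × ℝ => hh j i r.1 r.2 := by
  unfold hh
  exact (measurable_snd.pow_const j).mul (rr_meas.pow_const i).inv

lemma wt_meas (v η : ℝ) : Measurable (wt v η) := by
  unfold wt wu wx
  fun_prop

lemma Ph_meas (m : ℕ) (v η τ : ℝ) (h : E 2) :
    Measurable fun r : (ℝ × ℝ) × E 2 => Ph m v η τ h r.1 r.2 := by
  unfold Ph
  apply Measurable.indicator _ ((Rg_meas v η).prod (Dm_meas h))
  have h1 : Measurable fun r : (ℝ × ℝ) × E 2 => (r.1.1, ‖r.2 + h‖ ^ 2) := by fun_prop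
  have h2 : Measurable fun r : (ℝ × ℝ) × E 2 => (r.1.1, ‖r.2‖ ^ 2) := by fun_prop
  have a1 := (hh_meas 0 m).comp h1
  have a2 := (hh_meas 0 m).comp h2
  have b1 := rr_meas.comp h1
  have b2 := rr_meas.comp h2
  have c1 : Measurable fun r : (ℝ × ℝ) × E 2 => am m (pr h r.2) r.1.1 := a1.mul a2
  have c2 : Measurable fun r : (ℝ × ℝ) × E 2 =>
      rr r.1.1 (pr h r.2).1 - rr r.1.1 (pr h r.2).2 := b1.sub b2
  have c3 : Measurable fun r : (ℝ × ℝ) × E 2 => Real.sqrt (wt v η r.1) :=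
    ((wt_meas v η).comp measurable_fst).sqrt
  apply Measurable.mul
  · exact Complex.measurable_ofReal.comp (c3.mul c1)
  · exact Pool.Agent.W777.SP.ee_cont.measurable.comp (by
      have : Measurable fun r : (ℝ × ℝ) × E 2 => τ * r.1.2 := by fun_prop
      exact this.mul c2)

lemma ee_nm (x : ℝ) : ‖ee x‖ = 1 := Pool.Agent.W777.SP.ee_norm x

variable {a b κ : ℝ}

lemma Reg.am_bd (R : Reg a b κ) (m : ℕ) {p : ℝ × ℝ} (hp : p ∈ Sq) {u : ℝ} (hu : u ∈ Icc a b) :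
    |am m p u| ≤ (κ ^ m)⁻¹ * (κ ^ m)⁻¹ := by
  unfold am
  rw [abs_mul]
  have h1 := R.hbd hu hp.1 0 m m le_rfl
  have h2 := R.hbd hu hp.2 0 m m le_rfl
  exact mul_le_mul h1 h2 (abs_nonneg _) ((abs_nonneg _).trans h1)

lemma wt_bd {v η : ℝ} (h0 : 0 ≤ η) (h1 : η ≤ 1) {q : ℝ × ℝ} (hq : q ∈ Rg v η) :
    wt v η q ≤ 600 := by
  have a1 := (wu_C2 h0 h1 (v := v)).b0 q.1 hq.1
  have a2 := wx_C2.b0 q.2 hq.2
  have a3 : |wt v η q| ≤ 12 * 50 := by
    unfold wt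
    rw [abs_mul]
    exact mul_le_mul a1 a2 (abs_nonneg _) (by norm_num)
  linarith [le_abs_self (wt v η q)]

lemma Reg.Ph_bd (R : Reg a b κ) (m : ℕ) {v η : ℝ} (h0 : 0 ≤ η) (h1 : η ≤ 1)
    (hsub : Win v η ⊆ Icc a b) (τ : ℝ) (h : E 2) (q : ℝ × ℝ) (z : E 2) :
    ‖Ph m v η τ h q z‖ ≤ 30 * ((κ ^ m)⁻¹ * (κ ^ m)⁻¹) := by
  have hκ := R.κ0
  unfold Ph
  by_cases hm : (q, z) ∈ Rg v η ×ˢ Dm h
  · rw [indicator_of_mem hm]
    simp only
    rw [norm_mul, ee_nm, mul_one, Complex.norm_real, Real.norm_eq_abs, abs_mul]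
    have a1 := R.am_bd m (pr_mem hm.2) (hsub hm.1.1)
    have a2 : |Real.sqrt (wt v η q)| ≤ 30 := by
      rw [abs_of_nonneg (Real.sqrt_nonneg _)]
      apply Real.sqrt_le_iff.2
      refine ⟨by norm_num, ?_⟩
      have := wt_bd h0 h1 hm.1
      linarith
    exact mul_le_mul a2 a1 (abs_nonneg _) (by norm_num)
  · rw [indicator_of_notMem hm, norm_zero]
    positivity

/-- the unit ball -/
def B1 : Set (E 2) := Metric.closedBall 0 1

lemma B1_meas : MeasurableSet B1 := Metric.isClosed_closedBall.measurableSet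

instance B1_fin : IsFiniteMeasure ((volume : Measure (E 2)).restrict B1) :=
  ⟨by rw [Measure.restrict_apply_univ]; exact measure_closedBall_lt_top⟩

instance Rg_fin (v η : ℝ) : IsFiniteMeasure ((volume : Measure (ℝ × ℝ)).restrict (Rg v η)) :=
  ⟨by rw [Measure.restrict_apply_univ]; exact Rg_lt v η⟩

lemma mem_B1 {z : E 2} : z ∈ B1 ↔ ‖z‖ ≤ 1 := by
  unfold B1
  rw [mem_closedBall_zero_iff]

/-- the operator -/
lemma op_eq (m : ℕ) {v η : ℝ} (τ : ℝ) {M : ℝ} {f : E 2 → ℂ} (hf : DS M f) (h : E 2) {q : ℝ × ℝ}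
    (hq : q ∈ Rg v η) :
    ∫ z in B1, (f (z + h) * conj (f z)) * Ph m v η τ h q z =
      ((Real.sqrt (wt v η q) : ℝ) : ℂ) * BB (gs m (τ * q.2) (su q.1) f) h := by
  unfold BB
  rw [← setIntegral_eq_integral_of_forall_compl_eq_zero (s := B1) (f := fun z =>
    kk (gs m (τ * q.2) (su q.1) f) h z), ← integral_const_mul]
  · apply setIntegral_congr_fun B1_meas
    intro z hz
    simp only
    rw [kk_su]
    by_cases hzD : z ∈ Dm h
    · unfold Ph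
      rw [indicator_of_mem (show (q, z) ∈ Rg v η ×ˢ Dm h from ⟨hq, hzD⟩)]
      push_cast
      ring
    · have h1 : f (z + h) = 0 := by
        apply hf.supp
        by_contra hc
        push Not at hc
        exact hzD ⟨mem_B1.1 hz, hc⟩
      rw [h1]
      ring
  · intro z hz
    rw [kk_su]
    have h1 : f z = 0 := by
      apply hf.supp
      by_contra hc
      push Not at hc
      exact hz (mem_B1.2 hc)
    rw [h1]
    simp

/-- the kernel of `T T*` -/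
lemma tts_eq (m : ℕ) {v η : ℝ} (τ : ℝ) (h : E 2) {z z' : E 2} (hz : z ∈ Dm h) (hz' : z' ∈ Dm h) :
    ∫ q in Rg v η, Ph m v η τ h q z * conj (Ph m v η τ h q z') =
      KN m v η τ (pr h z) (pr h z') := by
  unfold KN
  change _ = ∫ q in Rg v η, kf m v η τ (pr h z) (pr h z') q
  apply setIntegral_congr_fun (Rg_meas v η)
  intro q hq
  simp only
  unfold Ph
  rw [indicator_of_mem (show (q, z) ∈ Rg v η ×ˢ Dm h from ⟨hq, hz⟩),
    indicator_of_mem (show (q, z') ∈ Rg v η ×ˢ Dm h from ⟨hq, hz'⟩)]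
  simp only
  rw [map_mul, conj_ofReal]
  have h1 := ee_sub (τ * q.2 * (rr q.1 (pr h z).1 - rr q.1 (pr h z).2))
    (τ * q.2 * (rr q.1 (pr h z').1 - rr q.1 (pr h z').2))
  have h2 : τ * q.2 * (rr q.1 (pr h z).1 - rr q.1 (pr h z).2) -
      τ * q.2 * (rr q.1 (pr h z').1 - rr q.1 (pr h z').2) =
      τ * q.2 * D0 (pr h z) (pr h z') q.1 := by
    unfold D0 mx
    ring
  rw [h2] at h1
  unfold kf
  have h3 : cexp (((2 * Real.pi * τ * q.2 * D0 (pr h z) (pr h z') q.1 : ℝ) : ℂ) * I) =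
      ee (τ * q.2 * D0 (pr h z) (pr h z') q.1) := by
    unfold ee
    congr 3
    ring
  rw [h3, ← h1]
  have h4 : ((Real.sqrt (wt v η q) : ℝ) : ℂ) * ((Real.sqrt (wt v η q) : ℝ) : ℂ) =
      ((wu v η q.1 : ℝ) : ℂ) * ((wx q.2 : ℝ) : ℂ) := by
    rw [← ofReal_mul, Real.mul_self_sqrt (wt_nonneg v η q)]
    unfold wt
    push_cast
    ring
  push_cast
  linear_combination (((am m (pr h z) q.1 : ℝ) : ℂ) * ((am m (pr h z') q.1 : ℝ) : ℂ) *
    ee (τ * q.2 * (rr q.1 (pr h z).1 - rr q.1 (pr h z).2)) *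
    conj (ee (τ * q.2 * (rr q.1 (pr h z').1 - rr q.1 (pr h z').2)))) * h4

/-- the majorant -/
noncomputable def NN (m : ℕ) (v η τ : ℝ) (h z z' : E 2) : ℝ :=
  (Dm h ×ˢ Dm h).indicator (fun r : E 2 × E 2 => ‖KN m v η τ (pr h r.1) (pr h r.2)‖) (z, z')

lemma Reg.four_h (R : Reg a b κ) (m : ℕ) {v η : ℝ} (h0 : 0 ≤ η) (h1 : η ≤ 1)
    (hsub : Win v η ⊆ Icc a b) (τ : ℝ) {M : ℝ} {f : E 2 → ℂ} (hf : DS M f) (h : E 2) :
    ∫⁻ q in Rg v η, ENNReal.ofReal (wt v η q) * ‖BB (gs m (τ * q.2) (su q.1) f) h‖ₑ ^ 2 ≤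
      ENNReal.ofReal (M ^ 4) * ∫⁻ z, ∫⁻ z', ENNReal.ofReal (NN m v η τ h z z') := by
  have hM : 0 ≤ M := Pool.Agent.W777.SP.DS.M0 hf
  have hFm : Measurable fun z : E 2 => f (z + h) * conj (f z) :=
    (hf.meas.comp (by fun_prop)).mul (continuous_conj.measurable.comp hf.meas)
  have hFb : ∀ z : E 2, ‖f (z + h) * conj (f z)‖ ≤ M ^ 2 := by
    intro z
    rw [norm_mul, RCLike.norm_conj, sq]
    exact mul_le_mul (hf.bd _) (hf.bd _) (norm_nonneg _) hM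
  have hk := ker ((volume : Measure (ℝ × ℝ)).restrict (Rg v η))
    ((volume : Measure (E 2)).restrict B1) (Ph m v η τ h) (Ph_meas m v η τ h)
    (R.Ph_bd m h0 h1 hsub τ h) (fun z => f (z + h) * conj (f z)) hFm hFb
  have e1 : ∫⁻ q in Rg v η, ‖∫ z in B1, (f (z + h) * conj (f z)) * Ph m v η τ h q z‖ₑ ^ 2 =
      ∫⁻ q in Rg v η, ENNReal.ofReal (wt v η q) * ‖BB (gs m (τ * q.2) (su q.1) f) h‖ₑ ^ 2 := by
    apply setLIntegral_congr_fun (Rg_meas v η)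
    intro q hq
    simp only
    rw [op_eq m τ hf h hq, enorm_mul, mul_pow]
    congr 1
    rw [← ofReal_norm, Complex.norm_real, Real.norm_of_nonneg (Real.sqrt_nonneg _),
      ← ENNReal.ofReal_pow (Real.sqrt_nonneg _), Real.sq_sqrt (wt_nonneg v η q)]
  rw [e1] at hk
  refine hk.trans ?_
  have e2 : (M ^ 2) ^ 2 = M ^ 4 := by ring
  rw [e2]
  refine mul_le_mul' le_rfl ?_
  refine (lintegral_mono fun z => setLIntegral_le_lintegral B1 _).trans
    ((setLIntegral_le_lintegral B1 _).trans ?_)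
  apply lintegral_mono
  intro z
  apply lintegral_mono
  intro z'
  simp only
  unfold NN
  by_cases hz : z ∈ Dm h
  · by_cases hz' : z' ∈ Dm h
    · rw [indicator_of_mem (show (z, z') ∈ Dm h ×ˢ Dm h from ⟨hz, hz'⟩)]
      simp only
      rw [ofReal_norm, ← tts_eq m τ h hz hz']
    · have h3 : ∀ q, Ph m v η τ h q z' = 0 := by
        intro q
        unfold Ph
        rw [indicator_of_notMem]
        exact fun hc => hz' hc.2
      simp [h3]
  · have h3 : ∀ q, Ph m v η τ h q z = 0 := by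
      intro q
      unfold Ph
      rw [indicator_of_notMem]
      exact fun hc => hz hc.2
    simp [h3]

lemma gs_jm (m : ℕ) (τ : ℝ) {f : E 2 → ℂ} (hf : Measurable f) :
    Measurable fun r : (ℝ × ℝ) × E 2 => gs m (τ * r.1.2) (su r.1.1) f r.2 := by
  have e : (fun r : (ℝ × ℝ) × E 2 => gs m (τ * r.1.2) (su r.1.1) f r.2) = fun r =>
      ee (τ * r.1.2 * rr r.1.1 (‖r.2‖ ^ 2)) * ((hh 0 m r.1.1 (‖r.2‖ ^ 2) : ℝ) : ℂ) * f r.2 := by
    ext r
    rw [gs_su]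
  rw [e]
  have h2 : Measurable fun r : (ℝ × ℝ) × E 2 => (r.1.1, ‖r.2‖ ^ 2) := by fun_prop
  have a2 := (hh_meas 0 m).comp h2
  have b2 := rr_meas.comp h2
  have c2 : Measurable fun r : (ℝ × ℝ) × E 2 => τ * r.1.2 * rr r.1.1 (‖r.2‖ ^ 2) := by
    have : Measurable fun r : (ℝ × ℝ) × E 2 => τ * r.1.2 := by fun_prop
    exact this.mul b2
  exact ((Pool.Agent.W777.SP.ee_cont.measurable.comp c2).mul
    (Complex.measurable_ofReal.comp a2)).mul (hf.comp measurable_snd)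

lemma BB_jm (m : ℕ) (τ : ℝ) {f : E 2 → ℂ} (hf : Measurable f) :
    Measurable fun r : (ℝ × ℝ) × E 2 => BB (gs m (τ * r.1.2) (su r.1.1) f) r.2 := by
  unfold BB kk
  have h1 := gs_jm m τ hf
  have h2 : Measurable fun s : ((ℝ × ℝ) × E 2) × E 2 =>
      gs m (τ * s.1.1.2) (su s.1.1.1) f (s.2 + s.1.2) *
        conj (gs m (τ * s.1.1.2) (su s.1.1.1) f s.2) := by
    apply Measurable.mul
    · exact h1.comp (f := fun s : ((ℝ × ℝ) × E 2) × E 2 => (s.1.1, s.2 + s.1.2)) (by fun_prop)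
    · exact continuous_conj.measurable.comp
        (h1.comp (f := fun s : ((ℝ × ℝ) × E 2) × E 2 => (s.1.1, s.2)) (by fun_prop))
  exact (h2.stronglyMeasurable.integral_prod_right' (ν := volume)).measurable

/-- the fourth moment in a window -/
theorem Reg.four_w (R : Reg a b κ) (m : ℕ) {v η : ℝ} (h0 : 0 ≤ η) (h1 : η ≤ 1)
    (hsub : Win v η ⊆ Icc a b) (hsm : η * CU κ ≤ c1 a κ) {s : ℝ} (hs0 : 0 < s) (hs1 : s < 1) :
    ∃ C : ℝ≥0∞, C < ⊤ ∧ ∀ (τ : ℝ), τ ≠ 0 → ∀ (M : ℝ) (f : E 2 → ℂ), DS M f →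
      ∫⁻ q in Rg v η, ENNReal.ofReal (wt v η q) *
        ∫⁻ x, ‖𝓕 (gs m (τ * q.2) (su q.1) f) x‖ₑ ^ 4 ≤
        C * ENNReal.ofReal (|τ| ^ (-(2 * s))) * ENNReal.ofReal (M ^ 4) := by
  obtain ⟨C, hC, hmaj⟩ := maj_int hs0 hs1
  have hCK : 0 ≤ CK a κ m := by
    have hp : ((0 : ℝ), (0 : ℝ)) ∈ Sq := ⟨⟨le_rfl, zero_le_one⟩, ⟨le_rfl, zero_le_one⟩⟩
    exact (norm_nonneg _).trans (R.kn_bound m h0 h1 hsub hsm 1 hp hp).1
  refine ⟨C * ENNReal.ofReal (CK a κ m), ENNReal.mul_lt_top hC ENNReal.ofReal_lt_top, ?_⟩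
  intro τ hτ M f hf
  have hb0 : 0 ≤ b := R.a0.le.trans R.ab
  have hN := hmaj |τ| (CK a κ m) (NN m v η τ) (abs_pos.2 hτ) hCK (by
    intro h z z'
    unfold NN
    exact indicator_nonneg (fun _ _ => norm_nonneg _) _) (by
    intro h z z' hz
    unfold NN
    rw [indicator_of_notMem]
    rintro ⟨k1, k2⟩
    rcases hz with hz | hz
    · exact hz k1
    · exact hz k2) (by
    intro h z z' hz hz'
    unfold NN
    rw [indicator_of_mem (show (z, z') ∈ Dm h ×ˢ Dm h from ⟨hz, hz'⟩)]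
    exact R.kn_bound m h0 h1 hsub hsm τ (pr_mem hz) (pr_mem hz'))
  have e1 : ∫⁻ q in Rg v η, ENNReal.ofReal (wt v η q) *
        ∫⁻ x, ‖𝓕 (gs m (τ * q.2) (su q.1) f) x‖ₑ ^ 4 =
      ∫⁻ q in Rg v η, ∫⁻ h, ENNReal.ofReal (wt v η q) *
        ‖BB (gs m (τ * q.2) (su q.1) f) h‖ₑ ^ 2 := by
    apply setLIntegral_congr_fun (Rg_meas v η)
    intro q hq
    simp only
    have hu : q.1 ∈ Icc a b := hsub hq.1
    have hbs := Pool.Agent.W777.SP.gs_BS m (τ * q.2) hb0 R.b1 (s := su q.1)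
      ⟨fun _ => R.a0.le.trans hu.1, fun _ => hu.2⟩ hf
    rw [four hbs, lintegral_const_mul' _ _ ENNReal.ofReal_ne_top]
  rw [e1, lintegral_lintegral_swap]
  · calc ∫⁻ h, ∫⁻ q in Rg v η, ENNReal.ofReal (wt v η q) *
          ‖BB (gs m (τ * q.2) (su q.1) f) h‖ₑ ^ 2
        ≤ ∫⁻ h, ENNReal.ofReal (M ^ 4) * ∫⁻ z, ∫⁻ z', ENNReal.ofReal (NN m v η τ h z z') :=
          lintegral_mono fun h => R.four_h m h0 h1 hsub τ hf h
      _ = ENNReal.ofReal (M ^ 4) * ∫⁻ h, ∫⁻ z, ∫⁻ z', ENNReal.ofReal (NN m v η τ h z z') :=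
          lintegral_const_mul' _ _ ENNReal.ofReal_ne_top
      _ ≤ ENNReal.ofReal (M ^ 4) * (C * (ENNReal.ofReal (CK a κ m) *
            ENNReal.ofReal (|τ| ^ (-(2 * s))))) := by gcongr
      _ = _ := by ring
  · have h1 : Measurable fun r : (ℝ × ℝ) × E 2 =>
        ‖BB (gs m (τ * r.1.2) (su r.1.1) f) r.2‖ₑ ^ 2 := (BB_jm m τ hf.meas).enorm.pow_const 2
    have h2 : Measurable fun r : (ℝ × ℝ) × E 2 => ENNReal.ofReal (wt v η r.1) :=
      ((wt_meas v η).comp measurable_fst).ennreal_ofReal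
    exact (h2.mul h1).aemeasurable

end Pool.Agent.W5h47.Iso
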