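import Mathlib
import Pool.Agent.W203.SP.All0
import Pool.Agent.W5h47.Iso.M4a
set_option autoImplicit false

/-! The fourth moment for one isotropic dilation parameter. -/

namespace Pool.Agent.W5h47.Iso

open MeasureTheory Set Complex Filter
open scoped ENNReal NNReal ComplexConjugate FourierTransform RealInnerProductSpace Topology
open Pool.Agent.H153R4 (E BS ST ST_meas ST_vol)
open Pool.Agent.W203.SP (DS ee pw gs DM NQ)

/-- the fourth power of the norm -/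
noncomputable def Q4p (m : ℕ) (t u : ℝ) (f : E 2 → ℂ) : ℝ≥0∞ := ∫⁻ x, ‖𝓕 (gs m t (su u) f) x‖ₑ ^ 4

lemma Q4p_meas (m : ℕ) {f : E 2 → ℂ} (hf : Measurable f) :
    Measurable fun q : ℝ × ℝ => Q4p m q.1 q.2 f := by
  have hq : Measurable fun r : (ℝ × ℝ) × E 2 => (((r.1.1, su r.1.2) : ℝ × (Fin 2 → ℝ)), r.2) := by
    fun_prop
  have h := (Pool.Agent.W777.SP.mF Pool.Agent.W203.SP.a_MG m hf).comp hq
  exact (h.enorm.pow_const 4).lintegral_prod_right'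

lemma sub_t {τ : ℝ} (hτ : τ ≠ 0) (g : ℝ → ℝ≥0∞) (S : Set ℝ) (X : Set ℝ)
    (hS : MeasurableSet S) (hX : MeasurableSet X) (hSX : ∀ x, τ * x ∈ S ↔ x ∈ X) :
    ∫⁻ t in S, g t = ENNReal.ofReal |τ| * ∫⁻ x in X, g (τ * x) := by
  rw [← lintegral_indicator hS, ← lintegral_indicator hX]
  have e := Real.smul_map_volume_mul_left hτ
  have h1 : ∫⁻ t, S.indicator g t =
      ∫⁻ t, S.indicator g t ∂(ENNReal.ofReal |τ| • Measure.map (τ * ·) volume) := by rw [e]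
  rw [h1, lintegral_smul_measure, smul_eq_mul]
  congr 1
  have h2 := lintegral_map_equiv (μ := (volume : Measure ℝ)) (S.indicator g)
    (MeasurableEquiv.mulLeft₀ τ hτ)
  rw [MeasurableEquiv.coe_mulLeft₀] at h2
  rw [h2]
  apply lintegral_congr
  intro x
  by_cases hx : x ∈ X
  · rw [indicator_of_mem hx, indicator_of_mem ((hSX x).2 hx)]
  · rw [indicator_of_notMem hx, indicator_of_notMem (fun h => hx ((hSX x).1 h))]

variable {a b κ : ℝ}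

lemma wt_low {v η : ℝ} {q : ℝ × ℝ}
    (hq : q ∈ Icc (v - η / 2) (v + η / 2) ×ˢ Icc (1:ℝ) 2) : 9 / 16 * η ^ 4 ≤ wt v η q := by
  obtain ⟨⟨h1, h2⟩, h3, h4⟩ := hq
  have a1 : (q.1 - v) ^ 2 ≤ (η / 2) ^ 2 := by
    rw [← sq_abs (q.1 - v)]
    apply pow_le_pow_left₀ (abs_nonneg _)
    rw [abs_le]
    constructor <;> linarith
  have a2 : 9 / 16 * η ^ 4 ≤ wu v η q.1 := by
    unfold wu
    have b1 : 3 / 4 * η ^ 2 ≤ η ^ 2 - (q.1 - v) ^ 2 := by nlinarith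
    have b2 : (3 / 4 * η ^ 2) ^ 2 ≤ (η ^ 2 - (q.1 - v) ^ 2) ^ 2 :=
      pow_le_pow_left₀ (by positivity) b1 2
    calc 9 / 16 * η ^ 4 = (3 / 4 * η ^ 2) ^ 2 := by ring
      _ ≤ _ := b2
      _ = _ := by ring
  have a3 : 1 ≤ wx q.2 := by
    unfold wx
    have b1 : (1:ℝ) ≤ (q.2 - 1 / 2) * (4 - q.2) := by nlinarith
    nlinarith
  have a4 : 0 ≤ 9 / 16 * η ^ 4 := by positivity
  unfold wt
  calc 9 / 16 * η ^ 4 = 9 / 16 * η ^ 4 * 1 := (mul_one _).symm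
    _ ≤ _ := mul_le_mul a2 a3 zero_le_one (a4.trans a2)

/-- one sign of the time -/
lemma Reg.win1 (R : Reg a b κ) (m : ℕ) {v η : ℝ} (h0 : 0 < η) (h1 : η ≤ 1)
    (hsub : Win v η ⊆ Icc a b) (hsm : η * CU κ ≤ c1 a κ) {s : ℝ} (hs0 : 0 < s) (hs1 : s < 1) :
    ∃ C : ℝ≥0∞, C < ⊤ ∧ ∀ (τ : ℝ), τ ≠ 0 → ∀ (M : ℝ) (f : E 2 → ℂ), DS M f →
      ∫⁻ u in Icc (v - η / 2) (v + η / 2), ∫⁻ x in Icc (1:ℝ) 2, Q4p m (τ * x) u f ≤
        C * ENNReal.ofReal (|τ| ^ (-(2 * s))) * ENNReal.ofReal (M ^ 4) := by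
  obtain ⟨C, hC, h⟩ := R.four_w m h0.le h1 hsub hsm hs0 hs1
  set c : ℝ := 9 / 16 * η ^ 4 with hc
  have hc0 : 0 < c := by positivity
  have hcn : ENNReal.ofReal c ≠ 0 := (ENNReal.ofReal_pos.2 hc0).ne'
  refine ⟨(ENNReal.ofReal c)⁻¹ * C, ENNReal.mul_lt_top (ENNReal.inv_lt_top.2
    (ENNReal.ofReal_pos.2 hc0)) hC, ?_⟩
  intro τ hτ M f hf
  set U : Set ℝ := Icc (v - η / 2) (v + η / 2) with hU
  have hme : Measurable fun q : ℝ × ℝ => Q4p m (τ * q.2) q.1 f :=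
    (Q4p_meas m hf.meas).comp (f := fun q : ℝ × ℝ => (τ * q.2, q.1)) (by fun_prop)
  have e1 : ∫⁻ u in U, ∫⁻ x in Icc (1:ℝ) 2, Q4p m (τ * x) u f =
      ∫⁻ q in U ×ˢ Icc (1:ℝ) 2, Q4p m (τ * q.2) q.1 f := by
    rw [Measure.volume_eq_prod, ← Measure.prod_restrict, lintegral_prod _ hme.aemeasurable]
  have hsubR : U ×ˢ Icc (1:ℝ) 2 ⊆ Rg v η := by
    rintro q ⟨⟨k1, k2⟩, k3, k4⟩
    refine ⟨⟨?_, ?_⟩, ?_, ?_⟩ <;> linarith
  have e2 : ENNReal.ofReal c * ∫⁻ q in U ×ˢ Icc (1:ℝ) 2, Q4p m (τ * q.2) q.1 f ≤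
      ∫⁻ q in Rg v η, ENNReal.ofReal (wt v η q) * Q4p m (τ * q.2) q.1 f := by
    rw [← lintegral_const_mul _ hme]
    refine le_trans ?_ (lintegral_mono_set hsubR)
    apply setLIntegral_mono' (measurableSet_Icc.prod measurableSet_Icc)
    intro q hq
    exact mul_le_mul' (ENNReal.ofReal_le_ofReal (wt_low hq)) le_rfl
  rw [e1]
  calc ∫⁻ q in U ×ˢ Icc (1:ℝ) 2, Q4p m (τ * q.2) q.1 f =
        (ENNReal.ofReal c)⁻¹ * (ENNReal.ofReal c *
          ∫⁻ q in U ×ˢ Icc (1:ℝ) 2, Q4p m (τ * q.2) q.1 f) := by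
        rw [← mul_assoc, ENNReal.inv_mul_cancel hcn ENNReal.ofReal_ne_top, one_mul]
    _ ≤ (ENNReal.ofReal c)⁻¹ * (C * ENNReal.ofReal (|τ| ^ (-(2 * s))) *
          ENNReal.ofReal (M ^ 4)) := by
        refine mul_le_mul' le_rfl (e2.trans ?_)
        exact h τ hτ M f hf
    _ = _ := by ring

lemma ST_sub (T : ℝ) : ST T ⊆ Icc T (2 * T) ∪ Icc (-(2 * T)) (-T) := by
  rintro t ⟨h1, h2⟩
  rcases le_or_gt 0 t with h | h
  · rw [abs_of_nonneg h] at h1 h2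
    exact Or.inl ⟨h1, h2⟩
  · rw [abs_of_neg h] at h1 h2
    exact Or.inr ⟨by linarith, by linarith⟩

lemma DM_le (m : ℕ) {T : ℝ} (hT : 0 < T) (u : ℝ) (f : E 2 → ℂ) :
    DM m T (su u) f ≤ ENNReal.ofReal T * (∫⁻ x in Icc (1:ℝ) 2, Q4p m (T * x) u f) +
      ENNReal.ofReal T * (∫⁻ x in Icc (1:ℝ) 2, Q4p m (-T * x) u f) := by
  have h1 : ∫⁻ t in Icc T (2 * T), Q4p m t u f =
      ENNReal.ofReal |T| * ∫⁻ x in Icc (1:ℝ) 2, Q4p m (T * x) u f := by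
    apply sub_t hT.ne' (fun t => Q4p m t u f) _ _ measurableSet_Icc measurableSet_Icc
    intro x
    rw [mem_Icc, mem_Icc]
    constructor
    · rintro ⟨k1, k2⟩
      constructor <;> nlinarith
    · rintro ⟨k1, k2⟩
      constructor <;> nlinarith
  have h2 : ∫⁻ t in Icc (-(2 * T)) (-T), Q4p m t u f =
      ENNReal.ofReal |-T| * ∫⁻ x in Icc (1:ℝ) 2, Q4p m (-T * x) u f := by
    apply sub_t (neg_ne_zero.2 hT.ne') (fun t => Q4p m t u f) _ _ measurableSet_Icc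
      measurableSet_Icc
    intro x
    rw [mem_Icc, mem_Icc]
    constructor
    · rintro ⟨k1, k2⟩
      constructor <;> nlinarith
    · rintro ⟨k1, k2⟩
      constructor <;> nlinarith
  rw [abs_of_pos hT] at h1
  rw [abs_neg, abs_of_pos hT] at h2
  rw [← h1, ← h2]
  exact (lintegral_mono_set (ST_sub T)).trans (lintegral_union_le _ _ _)

/-- the bound in a small window -/
lemma Reg.win (R : Reg a b κ) (m : ℕ) {v η : ℝ} (h0 : 0 < η) (h1 : η ≤ 1)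
    (hsub : Win v η ⊆ Icc a b) (hsm : η * CU κ ≤ c1 a κ) {s : ℝ} (hs0 : 0 < s) (hs1 : s < 1) :
    ∃ C : ℝ≥0∞, C < ⊤ ∧ ∀ (T : ℝ), 1 ≤ T → ∀ (M : ℝ) (f : E 2 → ℂ), DS M f →
      ∫⁻ u in Icc (v - η / 2) (v + η / 2), DM m T (su u) f ≤
        C * ENNReal.ofReal (T ^ (1 - 2 * s)) * ENNReal.ofReal (M ^ 4) := by
  obtain ⟨C, hC, h⟩ := R.win1 m h0 h1 hsub hsm hs0 hs1
  refine ⟨C + C, ENNReal.add_lt_top.2 ⟨hC, hC⟩, ?_⟩
  intro T hT M f hf
  have hT0 : 0 < T := by linarith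
  set U : Set ℝ := Icc (v - η / 2) (v + η / 2) with hU
  have hme : ∀ τ : ℝ, Measurable fun u : ℝ => ∫⁻ x in Icc (1:ℝ) 2, Q4p m (τ * x) u f := by
    intro τ
    have h3 : Measurable fun q : ℝ × ℝ => Q4p m (τ * q.2) q.1 f :=
      (Q4p_meas m hf.meas).comp (f := fun q : ℝ × ℝ => (τ * q.2, q.1)) (by fun_prop)
    exact h3.lintegral_prod_right'
  have k1 := h T hT0.ne' M f hf
  have k2 := h (-T) (neg_ne_zero.2 hT0.ne') M f hf
  rw [abs_of_pos hT0] at k1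
  rw [abs_neg, abs_of_pos hT0] at k2
  have e1 : ENNReal.ofReal (T ^ (1 - 2 * s)) =
      ENNReal.ofReal T * ENNReal.ofReal (T ^ (-(2 * s))) := by
    rw [← ENNReal.ofReal_mul hT0.le]
    congr 1
    rw [sub_eq_add_neg, Real.rpow_add hT0, Real.rpow_one]
  calc ∫⁻ u in U, DM m T (su u) f ≤ ∫⁻ u in U,
        (ENNReal.ofReal T * (∫⁻ x in Icc (1:ℝ) 2, Q4p m (T * x) u f) +
          ENNReal.ofReal T * (∫⁻ x in Icc (1:ℝ) 2, Q4p m (-T * x) u f)) :=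
        lintegral_mono fun u => DM_le m hT0 u f
    _ = ENNReal.ofReal T * (∫⁻ u in U, ∫⁻ x in Icc (1:ℝ) 2, Q4p m (T * x) u f) +
        ENNReal.ofReal T * (∫⁻ u in U, ∫⁻ x in Icc (1:ℝ) 2, Q4p m (-T * x) u f) := by
        rw [lintegral_add_left ((hme T).const_mul _), lintegral_const_mul _ (hme T),
          lintegral_const_mul _ (hme (-T))]
    _ ≤ ENNReal.ofReal T * (C * ENNReal.ofReal (T ^ (-(2 * s))) * ENNReal.ofReal (M ^ 4)) +
        ENNReal.ofReal T * (C * ENNReal.ofReal (T ^ (-(2 * s))) * ENNReal.ofReal (M ^ 4)) := by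
        gcongr
    _ = _ := by
        rw [e1]
        ring

/-- the bound on a compact interval of parameters -/
theorem I4' (m : ℕ) {a b s : ℝ} (ha : 0 < a) (hb : b < 1) (hs0 : 0 < s) (hs1 : s < 1) :
    ∃ C : ℝ≥0∞, C < ⊤ ∧ ∀ (T : ℝ), 1 ≤ T → ∀ (M : ℝ) (f : E 2 → ℂ), DS M f →
      ∫⁻ u in Icc a b, DM m T (su u) f ≤
        C * ENNReal.ofReal (T ^ (1 - 2 * s)) * ENNReal.ofReal (M ^ 4) := by
  refine (isCompact_Icc (a := a) (b := b)).induction_on (p := fun S : Set ℝ =>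
    ∃ C : ℝ≥0∞, C < ⊤ ∧ ∀ (T : ℝ), 1 ≤ T → ∀ (M : ℝ) (f : E 2 → ℂ), DS M f →
      ∫⁻ u in S, DM m T (su u) f ≤
        C * ENNReal.ofReal (T ^ (1 - 2 * s)) * ENNReal.ofReal (M ^ 4)) ?_ ?_ ?_ ?_
  · refine ⟨0, by norm_num, fun T _ M f _ => ?_⟩
    simp
  · rintro S S' hSS ⟨C, hC, h⟩
    exact ⟨C, hC, fun T hT M f hf => (lintegral_mono_set hSS).trans (h T hT M f hf)⟩
  · rintro S S' ⟨C, hC, h⟩ ⟨C', hC', h'⟩
    refine ⟨C + C', ENNReal.add_lt_top.2 ⟨hC, hC'⟩, fun T hT M f hf => ?_⟩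
    refine (lintegral_union_le _ _ _).trans ?_
    rw [add_mul, add_mul]
    exact add_le_add (h T hT M f hf) (h' T hT M f hf)
  · intro v hv
    have hv1 : a ≤ v := hv.1
    have hv2 : v ≤ b := hv.2
    have hab : a ≤ b := hv1.trans hv2
    set κ : ℝ := Real.sqrt ((1 - b) / 2) with hκ
    have hκ2 : κ ^ 2 = (1 - b) / 2 := Real.sq_sqrt (by linarith)
    have hκ0 : 0 < κ := Real.sqrt_pos.2 (by linarith)
    have hκ1 : κ ≤ 1 := by
      rw [hκ]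
      apply Real.sqrt_le_iff.2
      exact ⟨zero_le_one, by linarith⟩
    have R : Reg (a / 2) ((1 + b) / 2) κ :=
      ⟨by linarith, by linarith, by linarith, hκ0, hκ1, by rw [hκ2]; linarith⟩
    have hCU := CU_nonneg hκ0
    have hc := R.c1_pos
    set η : ℝ := min (min 1 (a / 2)) (min ((1 - b) / 2) (c1 (a / 2) κ / (CU κ + 1))) with hη
    have hη0 : 0 < η := by
      apply lt_min
      · exact lt_min one_pos (by linarith)
      · exact lt_min (by linarith) (by positivity)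
    have hη1 : η ≤ 1 := (min_le_left _ _).trans (min_le_left _ _)
    have hηa : η ≤ a / 2 := (min_le_left _ _).trans (min_le_right _ _)
    have hηb : η ≤ (1 - b) / 2 := (min_le_right _ _).trans (min_le_left _ _)
    have hηc : η ≤ c1 (a / 2) κ / (CU κ + 1) := (min_le_right _ _).trans (min_le_right _ _)
    have hsub : Win v η ⊆ Icc (a / 2) ((1 + b) / 2) := by
      rintro x ⟨h1, h2⟩
      constructor <;> linarith
    have hsm : η * CU κ ≤ c1 (a / 2) κ := by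
      rw [le_div_iff₀ (by linarith)] at hηc
      nlinarith
    obtain ⟨C, hC, h⟩ := R.win m hη0 hη1 hsub hsm hs0 hs1
    refine ⟨Icc (v - η / 2) (v + η / 2), ?_, C, hC, h⟩
    exact mem_nhdsWithin_of_mem_nhds (Icc_mem_nhds (by linarith) (by linarith))

theorem I4 (m : ℕ) {a b e : ℝ} (ha : 0 < a) (hb : b < 1) (he : 0 < e) :
    ∃ C : ℝ≥0∞, C < ⊤ ∧ ∀ (T : ℝ), 1 ≤ T → ∀ (M : ℝ) (f : E 2 → ℂ), DS M f →
      ∫⁻ u in Icc a b, DM m T (su u) f ≤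
        C * ENNReal.ofReal (T ^ (-1 + e)) * ENNReal.ofReal (M ^ 4) := by
  have hm0 : 0 < min e 1 := lt_min he one_pos
  have hm1 : min e 1 ≤ 1 := min_le_right _ _
  have hm2 : min e 1 ≤ e := min_le_left _ _
  obtain ⟨C, hC, h⟩ := I4' m ha hb (s := 1 - min e 1 / 2) (by linarith) (by linarith)
  refine ⟨C, hC, fun T hT M f hf => (h T hT M f hf).trans ?_⟩
  refine mul_le_mul' (mul_le_mul' le_rfl (ENNReal.ofReal_le_ofReal ?_)) le_rfl
  exact Real.rpow_le_rpow_of_exponent_le hT (by linarith)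

end Pool.Agent.W5h47.Iso
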