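import Mathlib
import Pool.Agent.W777.SP.Loc
import Pool.Agent.W5h47.Iso.M4b
set_option autoImplicit false

/-! Local constancy in the isotropic dilation parameter. -/

namespace Pool.Agent.W5h47.Iso

open MeasureTheory Set Complex FourierTransform Filter
open scoped ENNReal NNReal RealInnerProductSpace Topology
open Pool.Agent.H153R4 (E BS ST ST_meas ST_vol cube cube_vol cube_meas)
open Pool.Agent.W777.DL (sob cS cS_lt add_pow4)
open Pool.Agent.W777.SP (BX kp kp_pos gs_BS pw_lower mF)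
open Pool.Agent.W203.SP (DS ee pw gs DM NQ S_MG a_MG)

/-- multiplication by the square of the norm -/
noncomputable def rho (f : E 2 → ℂ) (z : E 2) : ℂ := ((‖z‖ ^ 2 : ℝ) : ℂ) * f z

lemma rho_DS {M : ℝ} {f : E 2 → ℂ} (hf : DS M f) : DS M (rho f) := by
  have hM : 0 ≤ M := Pool.Agent.W777.SP.DS.M0 hf
  refine ⟨?_, fun z => ?_, fun z hz => ?_⟩
  · exact (Complex.measurable_ofReal.comp (measurable_norm.pow_const 2)).mul hf.meas
  · unfold rho
    rw [norm_mul, Complex.norm_real, Real.norm_eq_abs, abs_of_nonneg (by positivity)]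
    rcases lt_or_ge 1 ‖z‖ with h | h
    · rw [hf.supp z h, norm_zero, mul_zero]
      exact hM
    · calc ‖z‖ ^ 2 * ‖f z‖ ≤ 1 * M := by
            apply mul_le_mul (pow_le_one₀ (norm_nonneg z) h) (hf.bd z) (norm_nonneg _) zero_le_one
        _ = M := one_mul M
  · unfold rho
    rw [hf.supp z hz, mul_zero]

/-- the operator -/
noncomputable def uu (m : ℕ) (t s : ℝ) (f : E 2 → ℂ) (x : E 2) : ℂ := 𝓕 (gs m t (su s) f) x

/-- derivative of the modulated function -/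
noncomputable def gdi (m : ℕ) (t s : ℝ) (f : E 2 → ℂ) (z : E 2) : ℂ :=
  (-((Real.pi * t : ℝ) : ℂ) * I) * gs (m + 1) t (su s) (rho f) z +
    ((m / 2 : ℝ) : ℂ) * gs (m + 2) t (su s) (rho f) z

lemma gsi_deriv (m : ℕ) (t σ : ℝ) (f : E 2 → ℂ) (z : E 2)
    (hp : f z = 0 ∨ 0 < pw 1 (su σ) z) :
    HasDerivAt (fun σ => gs m t (su σ) f z) (gdi m t σ f z) σ := by
  rcases hp with h | hp
  · have e1 : (fun σ => gs m t (su σ) f z) = fun _ => 0 := by
      ext L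
      unfold gs
      rw [h, mul_zero]
    have e2 : gdi m t σ f z = 0 := by
      unfold gdi gs rho
      rw [h]
      simp
    rw [e1, e2]
    exact hasDerivAt_const σ 0
  · have hd : HasDerivAt (fun σ => pw 1 (su σ) z) (-(‖z‖ ^ 2)) σ := by
      simp only [pw_su]
      have := ((hasDerivAt_id σ).mul_const (‖z‖ ^ 2)).const_sub 1
      simpa using this
    have h1 := hd.sqrt hp.ne'
    set r : ℝ := Real.sqrt (pw 1 (su σ) z) with hr
    have hr0 : 0 < r := Real.sqrt_pos.2 hp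
    have h2 : HasDerivAt (fun σ => 1 / Real.sqrt (pw 1 (su σ) z) ^ m)
        (m / 2 * ‖z‖ ^ 2 / r ^ (m + 2)) σ := by
      have h3 : HasDerivAt (fun σ => Real.sqrt (pw 1 (su σ) z) ^ m)
          (m * r ^ (m - 1) * (-(‖z‖ ^ 2) / (2 * r))) σ := h1.pow m
      have h4 := h3.inv (by rw [← hr]; positivity)
      have h5 : HasDerivAt (fun σ => 1 / Real.sqrt (pw 1 (su σ) z) ^ m)
          (-(m * r ^ (m - 1) * (-(‖z‖ ^ 2) / (2 * r))) / (r ^ m) ^ 2) σ := by
        refine h4.congr_of_eventuallyEq (Filter.Eventually.of_forall fun x => ?_)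
        simp [one_div]
      refine h5.congr_deriv ?_
      rcases m with _ | m
      · simp
      · simp only [Nat.add_sub_cancel]
        field_simp
        ring
    have h3 : HasDerivAt (fun σ =>
        ((2 * Real.pi * (t * Real.sqrt (pw 1 (su σ) z)) : ℝ) : ℂ) * I)
        (((2 * Real.pi * (t * (-(‖z‖ ^ 2) / (2 * r))) : ℝ) : ℂ) * I) σ := by
      have := ((h1.const_mul t).const_mul (2 * Real.pi)).ofReal_comp.mul_const I
      exact this
    have h4 := (h3.cexp.mul h2.ofReal_comp).mul_const (f z)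
    refine (h4.congr_of_eventuallyEq (Filter.Eventually.of_forall fun x => ?_)).congr_deriv ?_
    · unfold gs ee
      simp only [Pi.mul_apply]
    · unfold gdi gs rho ee
      rw [← hr]
      have hsc : ((r : ℝ) : ℂ) ≠ 0 := by exact_mod_cast hr0.ne'
      set X := cexp (((2 * Real.pi * (t * r) : ℝ) : ℂ) * I) with hX
      push_cast
      field_simp
      ring

lemma su_BX {b s : ℝ} (h0 : 0 ≤ s) (h1 : s ≤ b) : su s ∈ BX 2 b :=
  ⟨fun _ => h0, fun _ => h1⟩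

lemma gdi_BS (m : ℕ) (t : ℝ) {b M : ℝ} (hb0 : 0 ≤ b) (hb1 : b < 1) {s : ℝ}
    (h0 : 0 ≤ s) (h1 : s ≤ b) {f : E 2 → ℂ} (hf : DS M f) :
    BS (Real.pi * |t| * (1 / kp b ^ (m + 1) * M) + m / 2 * (1 / kp b ^ (m + 2) * M))
      (gdi m t s f) := by
  have h1' := gs_BS (m + 1) t hb0 hb1 (su_BX h0 h1) (rho_DS hf)
  have h2 := gs_BS (m + 2) t hb0 hb1 (su_BX h0 h1) (rho_DS hf)
  refine ⟨(h1'.meas.const_mul _).add (h2.meas.const_mul _), fun z => ?_, fun z hz => ?_⟩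
  · unfold gdi
    refine (norm_add_le _ _).trans ?_
    rw [norm_mul, norm_mul, norm_mul, norm_neg, Complex.norm_real, Complex.norm_real,
      Complex.norm_I, mul_one, Real.norm_eq_abs, Real.norm_eq_abs, abs_mul,
      abs_of_pos Real.pi_pos, abs_of_nonneg (by positivity : (0:ℝ) ≤ m / 2)]
    have h3 := h1'.bd z
    have h4 := h2.bd z
    have := Real.pi_pos
    gcongr
  · unfold gdi
    rw [h1'.supp z hz, h2.supp z hz]
    simp

lemma F_gdi (m : ℕ) (t : ℝ) {b M : ℝ} (hb0 : 0 ≤ b) (hb1 : b < 1) {s : ℝ}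
    (h0 : 0 ≤ s) (h1 : s ≤ b) {f : E 2 → ℂ} (hf : DS M f) (x : E 2) :
    𝓕 (gdi m t s f) x = (-((Real.pi * t : ℝ) : ℂ) * I) * uu (m + 1) t s (rho f) x +
        ((m / 2 : ℝ) : ℂ) * uu (m + 2) t s (rho f) x := by
  have i1 := (Real.fourierIntegral_convergent_iff (μ := volume) x).2
    (gs_BS (m + 1) t hb0 hb1 (su_BX h0 h1) (rho_DS hf)).int
  have i2 := (Real.fourierIntegral_convergent_iff (μ := volume) x).2
    (gs_BS (m + 2) t hb0 hb1 (su_BX h0 h1) (rho_DS hf)).int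
  unfold uu
  simp only [Real.fourier_eq]
  rw [← integral_const_mul, ← integral_const_mul, ← integral_add (i1.const_mul _) (i2.const_mul _)]
  apply integral_congr_ae
  refine ae_of_all _ fun z => ?_
  simp only [gdi, Circle.smul_def, smul_eq_mul]
  ring

lemma uu_deriv (m : ℕ) (t : ℝ) {b M : ℝ} (hb1 : b < 1) {σ : ℝ} (h0 : 0 < σ) (h1 : σ < b)
    {f : E 2 → ℂ} (hf : DS M f) (x : E 2) :
    HasDerivAt (fun σ => uu m t σ f x) (𝓕 (gdi m t σ f) x) σ := by
  have hb0 : 0 ≤ b := by linarith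
  set C := Real.pi * |t| * (1 / kp b ^ (m + 1) * M) + m / 2 * (1 / kp b ^ (m + 2) * M) with hC
  unfold uu
  simp only [Real.fourier_eq]
  refine (hasDerivAt_integral_of_dominated_loc_of_deriv_le
    (F := fun σ z => Real.fourierChar (-⟪z, x⟫) • gs m t (su σ) f z)
    (F' := fun σ z => Real.fourierChar (-⟪z, x⟫) • gdi m t σ f z)
    (s := Ioo 0 b) (bound := (cube 2).indicator fun _ => C) (Ioo_mem_nhds h0 h1)
    ?_ ?_ ?_ ?_ ?_ ?_).2
  · filter_upwards [Ioo_mem_nhds h0 h1] with y hy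
    exact ((Real.fourierIntegral_convergent_iff (μ := volume) x).2
      (gs_BS m t hb0 hb1 (su_BX hy.1.le hy.2.le) hf).int).aestronglyMeasurable
  · exact (Real.fourierIntegral_convergent_iff (μ := volume) x).2
      (gs_BS m t hb0 hb1 (su_BX h0.le h1.le) hf).int
  · exact ((Real.fourierIntegral_convergent_iff (μ := volume) x).2
      (gdi_BS m t hb0 hb1 h0.le h1.le hf).int).aestronglyMeasurable
  · refine ae_of_all _ fun z y hy => ?_
    have hBS := gdi_BS m t hb0 hb1 hy.1.le hy.2.le hf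
    rw [Circle.norm_smul]
    by_cases hz : z ∈ cube 2
    · rw [indicator_of_mem hz]
      exact hBS.bd z
    · rw [indicator_of_notMem hz, hBS.supp z hz, norm_zero]
  · rw [integrable_indicator_iff (cube_meas 2)]
    exact integrableOn_const (cube_vol 2).ne
  · refine ae_of_all _ fun z y hy => ?_
    have hp : f z = 0 ∨ 0 < pw 1 (su y) z := by
      rcases lt_or_ge 1 ‖z‖ with h | h
      · exact Or.inl (hf.supp z h)
      · right
        have := pw_lower hb0 (su_BX hy.1.le hy.2.le) h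
        linarith
    have h1 := gsi_deriv m t y f z hp
    simp only [Circle.smul_def, smul_eq_mul]
    exact h1.const_mul _

lemma sob_uu (m : ℕ) {t T M b c d : ℝ} (hb1 : b < 1) (hc : 0 < c) (hcd : c ≤ d) (hd : d < b)
    (_hT : 1 ≤ T) (hdT : (d - c) * T ≤ 1) (ht : |t| ≤ 2 * T) {f : E 2 → ℂ} (hf : DS M f)
    (x : E 2) {s : ℝ} (hl : s ∈ Icc c d) :
    ENNReal.ofReal (d - c) * ‖uu m t s f x‖ₑ ^ 4 ≤
      cS m * ∫⁻ σ in Icc c d, (‖uu m t σ f x‖ₑ ^ 4 +
        ‖uu (m + 1) t σ (rho f) x‖ₑ ^ 4 + ‖uu (m + 2) t σ (rho f) x‖ₑ ^ 4) := by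
  have hb0 : 0 ≤ b := by linarith
  have hσ : ∀ σ ∈ Icc c d, 0 < σ ∧ σ < b := fun σ h => ⟨lt_of_lt_of_le hc h.1, lt_of_le_of_lt h.2 hd⟩
  have c0 : ContinuousOn (fun σ => uu m t σ f x) (Icc c d) := fun σ h =>
    (uu_deriv m t hb1 (hσ σ h).1 (hσ σ h).2 hf x).continuousAt.continuousWithinAt
  have c1 : ContinuousOn (fun σ => uu (m + 1) t σ (rho f) x) (Icc c d) :=
    fun σ h => (uu_deriv (m + 1) t hb1 (hσ σ h).1 (hσ σ h).2
      (rho_DS hf) x).continuousAt.continuousWithinAt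
  have c2 : ContinuousOn (fun σ => uu (m + 2) t σ (rho f) x) (Icc c d) :=
    fun σ h => (uu_deriv (m + 2) t hb1 (hσ σ h).1 (hσ σ h).2
      (rho_DS hf) x).continuousAt.continuousWithinAt
  have hF : ∀ σ ∈ Icc c d, 𝓕 (gdi m t σ f) x =
      (-((Real.pi * t : ℝ) : ℂ) * I) * uu (m + 1) t σ (rho f) x +
        ((m / 2 : ℝ) : ℂ) * uu (m + 2) t σ (rho f) x := by
    intro σ h
    exact F_gdi m t hb0 hb1 (hσ σ h).1.le (hσ σ h).2.le hf x
  have cQ : ContinuousOn (fun σ => 𝓕 (gdi m t σ f) x) (Icc c d) :=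
    ((continuousOn_const.mul c1).add (continuousOn_const.mul c2)).congr hF
  have h1 := sob (fun σ => uu m t σ f x) (fun σ => 𝓕 (gdi m t σ f) x)
    (fun σ h => uu_deriv m t hb1 (hσ σ h).1 (hσ σ h).2 hf x) cQ s hl
  refine h1.trans ?_
  set μ := (volume : Measure ℝ).restrict (Icc c d) with hμ
  have m1 : AEMeasurable (fun σ => ‖uu (m + 1) t σ (rho f) x‖ₑ ^ 4) μ :=
    (c1.aestronglyMeasurable measurableSet_Icc).enorm.pow_const 4
  have m2 : AEMeasurable (fun σ => ‖uu (m + 2) t σ (rho f) x‖ₑ ^ 4) μ :=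
    (c2.aestronglyMeasurable measurableSet_Icc).enorm.pow_const 4
  rw [lintegral_add_right' _ m2, lintegral_add_right' _ m1]
  set I0 := ∫⁻ σ, ‖uu m t σ f x‖ₑ ^ 4 ∂μ with hI0
  set I1 := ∫⁻ σ, ‖uu (m + 1) t σ (rho f) x‖ₑ ^ 4 ∂μ with hI1
  set I2 := ∫⁻ σ, ‖uu (m + 2) t σ (rho f) x‖ₑ ^ 4 ∂μ with hI2
  have hd0 : 0 ≤ d - c := by linarith
  have hb : ∫⁻ σ, ‖𝓕 (gdi m t σ f) x‖ₑ ^ 4 ∂μ ≤
      8 * (ENNReal.ofReal (2 * Real.pi * T) ^ 4 * I1 + ENNReal.ofReal (m / 2) ^ 4 * I2) := by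
    rw [hI1, hI2, ← lintegral_const_mul'' _ m1, ← lintegral_const_mul'' _ m2,
      ← lintegral_add_left' (m1.const_mul _), ← lintegral_const_mul' _ _
        (by norm_num : (8 : ℝ≥0∞) ≠ ⊤), hμ]
    apply setLIntegral_mono' measurableSet_Icc
    intro σ h
    rw [hF σ h]
    have e1 : ‖(-((Real.pi * t : ℝ) : ℂ) * I) * uu (m + 1) t σ (rho f) x‖ₑ ≤
        ENNReal.ofReal (2 * Real.pi * T) * ‖uu (m + 1) t σ (rho f) x‖ₑ := by
      rw [enorm_mul]
      gcongr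
      rw [← ofReal_norm, norm_mul, norm_neg, Complex.norm_real, Complex.norm_I, mul_one,
        Real.norm_eq_abs, abs_mul, abs_of_pos Real.pi_pos]
      apply ENNReal.ofReal_le_ofReal
      nlinarith [Real.pi_pos]
    have e2 : ‖((m / 2 : ℝ) : ℂ) * uu (m + 2) t σ (rho f) x‖ₑ =
        ENNReal.ofReal (m / 2) * ‖uu (m + 2) t σ (rho f) x‖ₑ := by
      rw [enorm_mul, ← ofReal_norm, Complex.norm_real, Real.norm_eq_abs,
        abs_of_nonneg (by positivity)]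
    calc _ ≤ (ENNReal.ofReal (2 * Real.pi * T) * ‖uu (m + 1) t σ (rho f) x‖ₑ +
          ENNReal.ofReal (m / 2) * ‖uu (m + 2) t σ (rho f) x‖ₑ) ^ 4 := by
          apply pow_le_pow_left'
          refine (enorm_add_le _ _).trans ?_
          rw [e2]
          gcongr
      _ ≤ _ := by
          refine (add_pow4 _ _).trans (le_of_eq ?_)
          simp only [mul_pow]
  have k1 : ENNReal.ofReal (d - c) ^ 4 * ENNReal.ofReal (2 * Real.pi * T) ^ 4 ≤
      ENNReal.ofReal (2 * Real.pi) ^ 4 := by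
    rw [← mul_pow, ← ENNReal.ofReal_mul hd0]
    apply pow_le_pow_left'
    apply ENNReal.ofReal_le_ofReal
    nlinarith [Real.pi_pos]
  have k2 : ENNReal.ofReal (d - c) ^ 4 ≤ 1 := by
    apply pow_le_one'
    rw [← ENNReal.ofReal_one]
    apply ENNReal.ofReal_le_ofReal
    nlinarith
  calc 8 * I0 + 8 * (ENNReal.ofReal (d - c) ^ 4 * ∫⁻ σ, ‖𝓕 (gdi m t σ f) x‖ₑ ^ 4 ∂μ)
      ≤ 8 * I0 + 8 * (ENNReal.ofReal (d - c) ^ 4 * (8 * (ENNReal.ofReal (2 * Real.pi * T) ^ 4 * I1 +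
        ENNReal.ofReal (m / 2) ^ 4 * I2))) := by gcongr
    _ = 8 * I0 + 64 * ((ENNReal.ofReal (d - c) ^ 4 * ENNReal.ofReal (2 * Real.pi * T) ^ 4) * I1) +
        64 * (ENNReal.ofReal (d - c) ^ 4 * (ENNReal.ofReal (m / 2) ^ 4 * I2)) := by ring
    _ ≤ 8 * I0 + 64 * (ENNReal.ofReal (2 * Real.pi) ^ 4 * I1) +
        64 * (1 * (ENNReal.ofReal (m / 2) ^ 4 * I2)) := by gcongr
    _ = 8 * I0 + (64 * ENNReal.ofReal (2 * Real.pi) ^ 4) * I1 +
        (64 * ENNReal.ofReal (m / 2) ^ 4) * I2 := by ring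
    _ ≤ cS m * I0 + cS m * I1 + cS m * I2 := by
        have n0 : 8 ≤ cS m := by
          unfold cS
          rw [add_assoc]
          exact le_self_add
        have n1 : 64 * ENNReal.ofReal (2 * Real.pi) ^ 4 ≤ cS m := by
          unfold cS
          exact le_add_self.trans le_self_add
        have n2 : 64 * ENNReal.ofReal (m / 2) ^ 4 ≤ cS m := by
          unfold cS
          exact le_add_self
        gcongr
    _ = cS m * (I0 + I1 + I2) := by ring

/-- the majorant -/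
noncomputable def ZI (m : ℕ) (T s : ℝ) (f : E 2 → ℂ) : ℝ≥0∞ :=
  DM m T (su s) f + DM (m + 1) T (su s) (rho f) + DM (m + 2) T (su s) (rho f)

lemma uu_meas (m : ℕ) {g : E 2 → ℂ} (hg : Measurable g) :
    Measurable fun r : (ℝ × ℝ) × E 2 => uu m r.1.1 r.1.2 g r.2 := by
  have hq : Measurable fun r : (ℝ × ℝ) × E 2 => (((r.1.1, su r.1.2) : ℝ × (Fin 2 → ℝ)), r.2) := by
    fun_prop
  have h := (mF a_MG m hg).comp hq
  unfold uu
  exact h

lemma DM_loc1 (m : ℕ) {T M b c d : ℝ} (hb1 : b < 1) (hc : 0 < c) (hcd : c ≤ d) (hd : d < b)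
    (hT : 1 ≤ T) (hdT : (d - c) * T ≤ 1) {f : E 2 → ℂ} (hf : DS M f) {s : ℝ}
    (hl : s ∈ Icc c d) :
    ENNReal.ofReal (d - c) * DM m T (su s) f ≤ cS m * ∫⁻ σ in Icc c d, ZI m T σ f := by
  set μ := (volume : Measure ℝ).restrict (Icc c d) with hμ
  set ν := (volume : Measure ℝ).restrict (ST T) with hν
  -- measurability
  have hA : ∀ (i : ℕ) {g : E 2 → ℂ}, Measurable g → ∀ t : ℝ,
      Measurable (Function.uncurry fun (x : E 2) (σ : ℝ) => ‖uu i t σ g x‖ₑ ^ 4) := by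
    intro i g hg t
    have h := (uu_meas i hg).comp (f := fun r : E 2 × ℝ => ((t, r.2), r.1)) (by fun_prop)
    exact h.enorm.pow_const 4
  have hQ : ∀ (i : ℕ) {g : E 2 → ℂ}, Measurable g →
      Measurable (Function.uncurry fun (t σ : ℝ) => ∫⁻ x, ‖uu i t σ g x‖ₑ ^ 4) := by
    intro i g hg
    exact ((uu_meas i hg).enorm.pow_const 4).lintegral_prod_right'
  have e0 : ∀ (i : ℕ) (σ : ℝ) (g : E 2 → ℂ), DM i T (su σ) g = ∫⁻ t, ∫⁻ x, ‖uu i t σ g x‖ₑ ^ 4 ∂volume ∂ν :=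
    fun _ _ _ => rfl
  have h1 : ENNReal.ofReal (d - c) * DM m T (su s) f =
      ∫⁻ t, ENNReal.ofReal (d - c) * (∫⁻ x, ‖uu m t s f x‖ₑ ^ 4) ∂ν := by
    rw [e0, lintegral_const_mul' _ _ ENNReal.ofReal_ne_top]
  rw [h1]
  have hin : ∀ t ∈ ST T, ENNReal.ofReal (d - c) * (∫⁻ x, ‖uu m t s f x‖ₑ ^ 4) ≤
      cS m * ∫⁻ σ, ((∫⁻ x, ‖uu m t σ f x‖ₑ ^ 4) + (∫⁻ x, ‖uu (m + 1) t σ (rho f) x‖ₑ ^ 4) +
        ∫⁻ x, ‖uu (m + 2) t σ (rho f) x‖ₑ ^ 4) ∂μ := by
    intro t ht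
    rw [← lintegral_const_mul' _ _ ENNReal.ofReal_ne_top]
    refine (lintegral_mono fun x => sob_uu m hb1 hc hcd hd hT hdT ht.2 hf x hl).trans ?_
    rw [lintegral_const_mul' _ _ (cS_lt m).ne]
    refine mul_le_mul' le_rfl ?_
    exact (Pool.Agent.W777.DL.swap3 volume μ _ _ _ (hA m hf.meas t)
      (hA (m + 1) (rho_DS hf).meas t) (hA (m + 2) (rho_DS hf).meas t)).le
  refine (setLIntegral_mono' (ST_meas T) hin).trans ?_
  rw [lintegral_const_mul' _ _ (cS_lt m).ne]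
  refine mul_le_mul' le_rfl ?_
  exact (Pool.Agent.W777.DL.swap3 ν μ _ _ _ (hQ m hf.meas)
    (hQ (m + 1) (rho_DS hf).meas) (hQ (m + 2) (rho_DS hf).meas)).le

end Pool.Agent.W5h47.Iso
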