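import Mathlib
import Pool.Agent.W777.SP.Exc
import Pool.Agent.W5h47.Iso.LocI
set_option autoImplicit false

/-! The exceptional parameters. -/

namespace Pool.Agent.W5h47.Iso

open MeasureTheory Set Complex FourierTransform Filter
open scoped ENNReal NNReal RealInnerProductSpace Topology
open Pool.Agent.H153R4 (E BS ST ST_meas ST_vol cube cube_vol cube_meas)
open Pool.Agent.W777.DL (cS cS_lt cover_ST)
open Pool.Agent.W777.SP (BX kp kp_pos NQ_interp NQ_triv dim_bound)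
open Pool.Agent.W777.ST (geo_sum)
open Pool.Agent.W203.SP (DS ee pw gs DM NQ S_MG a_MG)

lemma two_fin {M : ℝ} {f : E 2 → ℂ} (hf : DS M f) : ∫⁻ z, ‖f z‖ₑ ^ 2 < ⊤ := by
  have h1 : ∫⁻ z, ‖f z‖ₑ ^ 2 ≤ ∫⁻ z, (cube 2).indicator (fun _ => ENNReal.ofReal M ^ 2) z := by
    apply lintegral_mono
    intro z
    by_cases hz : z ∈ cube 2
    · rw [indicator_of_mem hz]
      apply pow_le_pow_left'
      rw [← ofReal_norm]
      exact ENNReal.ofReal_le_ofReal (hf.bd z)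
    · simp only
      rw [hf.supp z (Pool.Agent.W777.SP.ball_cube hz)]
      simp
  refine lt_of_le_of_lt h1 ?_
  rw [lintegral_indicator (cube_meas 2), setLIntegral_const]
  exact ENNReal.mul_lt_top (ENNReal.pow_lt_top ENNReal.ofReal_lt_top) (cube_vol 2)

/-- integrability at good parameters -/
theorem good_b (m : ℕ) {q γ b : ℝ} (hb0 : 0 ≤ b) (hb1 : b < 1) {l : Fin 2 → ℝ}
    (hl : l ∈ BX 2 b) (hq2 : 2 < q) (hq4 : q ≤ 4) (hγ : (4 - q) / (q - 2) < γ) {M : ℝ}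
    {f : E 2 → ℂ} (hf : DS M f)
    (hD : ∀ᶠ j : ℕ in atTop, DM m ((2 ^ j : ℕ) : ℝ) l f ≤
      ENNReal.ofReal (((2 ^ j : ℕ) : ℝ) ^ (-γ))) : NQ m q univ l f < ⊤ := by
  have hkp := kp_pos hb1
  set δ : ℝ := γ * ((q - 2) / 2) - (4 - q) / 2 with hδ
  have hδ0 : 0 < δ := by
    rw [div_lt_iff₀ (by linarith)] at hγ
    rw [hδ]
    linarith
  set A : ℝ≥0∞ := ENNReal.ofReal (1 / kp b ^ m) ^ 2 * ∫⁻ z, ‖f z‖ₑ ^ 2 with hA
  have hAt : A < ⊤ := ENNReal.mul_lt_top (ENNReal.pow_lt_top ENNReal.ofReal_lt_top) (two_fin hf)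
  have hfin : ∀ S : Set ℝ, volume S < ⊤ → NQ m q S l f < ⊤ := by
    intro S hS
    refine lt_of_le_of_lt (NQ_triv m hb0 hb1 hl hq2.le S hf) ?_
    refine ENNReal.mul_lt_top ?_ (ENNReal.mul_lt_top hS hAt)
    apply ENNReal.rpow_lt_top_of_nonneg (by linarith)
    exact ENNReal.mul_ne_top ENNReal.ofReal_ne_top (Pool.Agent.W777.SP.DS.BS hf).int.2.ne
  obtain ⟨J, hJ⟩ := eventually_atTop.1 hD
  set G : ℝ≥0∞ := (ENNReal.ofReal 2 * A) ^ ((4 - q) / 2) with hG
  have hGt : G < ⊤ := ENNReal.rpow_lt_top_of_nonneg (by linarith)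
    (ENNReal.mul_ne_top ENNReal.ofReal_ne_top hAt.ne)
  have hgeo : ∀ i, J ≤ i → NQ m q (ST ((2 ^ i : ℕ) : ℝ)) l f ≤
      G * ENNReal.ofReal (((2:ℝ) ^ i) ^ (-δ)) := by
    intro i hi
    have hTi : ((2 ^ i : ℕ) : ℝ) = (2:ℝ) ^ i := by push_cast; rfl
    have hDi := hJ i hi
    rw [hTi] at hDi ⊢
    set T : ℝ := (2:ℝ) ^ i with hT
    have hT0 : 0 < T := by positivity
    refine (NQ_interp a_MG m hb0 hb1 hl hq2.le hq4 hT0.le hf).trans ?_
    rw [← hA]
    have e1 : (ENNReal.ofReal (2 * T) * A) ^ ((4 - q) / 2) =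
        G * ENNReal.ofReal (T ^ ((4 - q) / 2)) := by
      rw [hG, ENNReal.ofReal_mul (by norm_num : (0:ℝ) ≤ 2),
        ← ENNReal.ofReal_rpow_of_nonneg hT0.le (by linarith),
        ← ENNReal.mul_rpow_of_nonneg _ _ (by linarith)]
      congr 1
      ring
    have e2 : DM m T l f ^ ((q - 2) / 2) ≤ ENNReal.ofReal (T ^ (-γ * ((q - 2) / 2))) := by
      rw [Real.rpow_mul hT0.le, ← ENNReal.ofReal_rpow_of_nonneg (by positivity) (by linarith)]
      exact ENNReal.rpow_le_rpow hDi (by linarith)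
    calc (ENNReal.ofReal (2 * T) * A) ^ ((4 - q) / 2) * DM m T l f ^ ((q - 2) / 2)
        ≤ (G * ENNReal.ofReal (T ^ ((4 - q) / 2))) *
          ENNReal.ofReal (T ^ (-γ * ((q - 2) / 2))) := by
          rw [e1]
          exact mul_le_mul' le_rfl e2
      _ = _ := by
          rw [mul_assoc, ← ENNReal.ofReal_mul (by positivity), ← Real.rpow_add hT0]
          congr 3
          rw [hδ]
          ring
  have hsum2 : ∑' i : ℕ, NQ m q (ST ((2 ^ i : ℕ) : ℝ)) l f < ⊤ := by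
    have h1 : ∀ i : ℕ, NQ m q (ST ((2 ^ i : ℕ) : ℝ)) l f ≤
        (if i ∈ Finset.range J then NQ m q (ST ((2 ^ i : ℕ) : ℝ)) l f else 0) +
          G * ENNReal.ofReal (((2:ℝ) ^ i) ^ (-δ)) := by
      intro i
      by_cases hi : i ∈ Finset.range J
      · rw [if_pos hi]
        exact le_self_add
      · rw [if_neg hi, zero_add]
        exact hgeo i (by simpa using hi)
    refine lt_of_le_of_lt (ENNReal.tsum_le_tsum h1) ?_
    rw [ENNReal.tsum_add]
    refine ENNReal.add_lt_top.2 ⟨?_, ?_⟩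
    · rw [tsum_eq_sum (s := Finset.range J) (fun i hi => if_neg hi)]
      refine ENNReal.sum_lt_top.2 fun i hi => ?_
      rw [if_pos hi]
      exact hfin _ (lt_of_le_of_lt (ST_vol _ (by positivity)) ENNReal.ofReal_lt_top)
    · rw [ENNReal.tsum_mul_left]
      exact ENNReal.mul_lt_top hGt (geo_sum (by linarith))
  have h2 : NQ m q univ l f ≤ NQ m q (Icc (-1) 1) l f +
      ∑' i : ℕ, NQ m q (ST ((2 ^ i : ℕ) : ℝ)) l f := by
    unfold NQ
    refine (lintegral_mono_set cover_ST).trans ?_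
    refine (lintegral_union_le _ _ _).trans ?_
    gcongr
    exact lintegral_iUnion_le _ _
  refine lt_of_le_of_lt h2 (ENNReal.add_lt_top.2 ⟨?_, hsum2⟩)
  apply hfin
  rw [Real.volume_Icc]
  exact ENNReal.ofReal_lt_top

lemma int1 (g : ℝ → ℝ≥0∞) (p q : ℝ) :
    ∫⁻ s in Icc (fun _ : Fin 1 => p) (fun _ => q), g (s 0) = ∫⁻ u in Icc p q, g u := by
  have h := (volume_preserving_funUnique (Fin 1) ℝ).setLIntegral_comp_preimage_emb
    (MeasurableEquiv.funUnique (Fin 1) ℝ).measurableEmbedding g (Icc p q)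
  rw [← h]
  have e1 : (MeasurableEquiv.funUnique (Fin 1) ℝ) ⁻¹' Icc p q =
      Icc (fun _ : Fin 1 => p) (fun _ => q) := by
    ext s
    rw [mem_preimage, mem_Icc, mem_Icc, Pi.le_def, Pi.le_def]
    simp [MeasurableEquiv.funUnique, Fin.forall_fin_one]
  rw [e1]
  rfl

lemma ZI_meas (m : ℕ) (T : ℝ) {f : E 2 → ℂ} (hf : Measurable f) (hr : Measurable (rho f)) :
    Measurable fun s : ℝ => ZI m T s f := by
  have h : ∀ (i : ℕ) {g : E 2 → ℂ}, Measurable g → Measurable fun s : ℝ => DM i T (su s) g := by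
    intro i g hg
    have h1 : Measurable fun r : ℝ × ℝ => Q4p i r.2 r.1 g :=
      (Q4p_meas i hg).comp (f := fun r : ℝ × ℝ => (r.2, r.1)) (by fun_prop)
    exact h1.lintegral_prod_right'
  unfold ZI
  exact ((h m hf).add (h (m + 1) hr)).add (h (m + 2) hr)

theorem exc_b (m : ℕ) {q a' b' : ℝ} (ha : 0 < a') (hab : a' < b') (hb : b' < 1) (hq2 : 2 < q)
    (hq4 : q ≤ 4) {M : ℝ} {f : E 2 → ℂ} (hf : DS M f) :
    dimH {u ∈ Icc a' b' | NQ m q univ (su u) f = ⊤} ≤ ENNReal.ofReal ((4 - q) / (q - 2)) := by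
  have hg0 : 0 ≤ (4 - q) / (q - 2) := div_nonneg (by linarith) (by linarith)
  set b : ℝ := (1 + b') / 2 with hbd
  have hb1 : b < 1 := by rw [hbd]; linarith
  have hbb : b' < b := by rw [hbd]; linarith
  have hb0 : 0 ≤ b := by linarith
  have hw : 0 < b' - a' := by linarith
  have ew : a' + (b' - a') = b' := by ring
  have hM : 0 ≤ M := Pool.Agent.W777.SP.DS.M0 hf
  have key : ∀ γ e : ℝ, (4 - q) / (q - 2) < γ → 0 < e →
      dimH {u ∈ Icc a' b' | NQ m q univ (su u) f = ⊤} ≤ ENNReal.ofReal (γ + e) := by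
    intro γ e hγ he0
    obtain ⟨C0, hC0, k0⟩ := I4 m (a := a') (b := b') ha hb he0
    obtain ⟨C1, hC1, k1⟩ := I4 (m + 1) (a := a') (b := b') ha hb he0
    obtain ⟨C2, hC2, k2⟩ := I4 (m + 2) (a := a') (b := b') ha hb he0
    have hdb := dim_bound (m := 1) (c := a') (w := b' - a') hw
      (fun j l => DM m ((2 ^ j : ℕ) : ℝ) (su (l 0)) f)
      (fun j l => ZI m ((2 ^ j : ℕ) : ℝ) (l 0) f)
      (cS m) ((C0 + C1 + C2) * ENNReal.ofReal (M ^ 4)) (cS_lt m).ne
      (ENNReal.mul_ne_top (ENNReal.add_lt_top.2 ⟨ENNReal.add_lt_top.2 ⟨hC0, hC1⟩, hC2⟩).ne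
        ENNReal.ofReal_ne_top) γ e (by linarith) ?_ ?_
    · rw [ew] at hdb
      set S' : Set (Fin 1 → ℝ) := {L ∈ Icc (fun _ : Fin 1 => a') (fun _ => b') |
        ∃ᶠ j in atTop, ENNReal.ofReal (((2 ^ j : ℕ) : ℝ) ^ (-γ)) <
          DM m ((2 ^ j : ℕ) : ℝ) (su (L 0)) f} with hS'
      have hsub : {u ∈ Icc a' b' | NQ m q univ (su u) f = ⊤} ⊆
          (fun L : Fin 1 → ℝ => L 0) '' S' := by
        rintro u ⟨hu, hT⟩
        refine ⟨fun _ => u, ⟨⟨fun _ => hu.1, fun _ => hu.2⟩, ?_⟩, rfl⟩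
        by_contra hcon
        rw [not_frequently] at hcon
        simp only [not_lt] at hcon
        have hlb : su u ∈ BX 2 b := su_BX (ha.le.trans hu.1) (hu.2.trans hbb.le)
        have := good_b m hb0 hb1 hlb hq2 hq4 hγ hf hcon
        exact absurd hT this.ne
      have hlip : LipschitzWith 1 fun L : Fin 1 → ℝ => L 0 := LipschitzWith.eval 0
      exact ((dimH_mono hsub).trans (hlip.dimH_image_le S')).trans hdb
    · intro j n hn l hl
      have hN1 : (1:ℝ) ≤ ((2 ^ j : ℕ) : ℝ) := by exact_mod_cast Nat.one_le_two_pow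
      have hN0 : (0:ℝ) < ((2 ^ j : ℕ) : ℝ) := by positivity
      set h' : ℝ := (b' - a') / ((2 ^ j : ℕ) : ℝ) with hh'
      have hh0 : 0 < h' := by positivity
      have hNh : ((2 ^ j : ℕ) : ℝ) * h' = b' - a' := by rw [hh']; field_simp
      unfold Pool.Agent.W777.MF.II at hl ⊢
      have en1 : (fun i : Fin 1 => a' + (n i : ℝ) * h') = fun _ => a' + (n 0 : ℝ) * h' := by
        funext i
        rw [Subsingleton.elim i 0]
      have en2 : (fun i : Fin 1 => a' + (n i : ℝ) * h' + h') =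
          fun _ => a' + (n 0 : ℝ) * h' + h' := by
        funext i
        rw [Subsingleton.elim i 0]
      rw [en1, en2] at hl ⊢
      rw [int1 (fun s => ZI m ((2 ^ j : ℕ) : ℝ) s f), pow_one]
      have hn0 : (0:ℝ) ≤ n 0 * h' := by positivity
      have h2 : ((n 0 : ℕ) : ℝ) + 1 ≤ ((2 ^ j : ℕ) : ℝ) := by exact_mod_cast hn 0
      have h3 : ((n 0 : ℝ) + 1) * h' ≤ ((2 ^ j : ℕ) : ℝ) * h' :=
        mul_le_mul_of_nonneg_right h2 hh0.le
      have hlt : a' + (n 0 : ℝ) * h' + h' < b := by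
        have h4 : a' + (n 0 : ℝ) * h' + h' = a' + ((n 0 : ℝ) + 1) * h' := by ring
        rw [h4]
        linarith
      have h5 := DM_loc1 m (T := ((2 ^ j : ℕ) : ℝ)) (c := a' + (n 0 : ℝ) * h')
        (d := a' + (n 0 : ℝ) * h' + h') hb1 (by linarith) (by linarith) hlt hN1
        (by
          have e : a' + (n 0 : ℝ) * h' + h' - (a' + (n 0 : ℝ) * h') = h' := by ring
          rw [e, mul_comm, hNh]
          linarith) hf (s := l 0) ⟨hl.1 0, hl.2 0⟩
      have e : a' + (n 0 : ℝ) * h' + h' - (a' + (n 0 : ℝ) * h') = h' := by ring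
      rw [e] at h5
      exact h5
    · intro j
      have hN1 : (1:ℝ) ≤ ((2 ^ j : ℕ) : ℝ) := by exact_mod_cast Nat.one_le_two_pow
      rw [ew, int1 (fun s => ZI m ((2 ^ j : ℕ) : ℝ) s f)]
      have h6 : e - ((1 : ℕ) : ℝ) = -1 + e := by push_cast; ring
      rw [h6]
      have hr := rho_DS hf
      have hmD : ∀ (i : ℕ) {g : E 2 → ℂ}, Measurable g →
          Measurable fun s : ℝ => DM i ((2 ^ j : ℕ) : ℝ) (su s) g := by
        intro i g hg
        have h1 : Measurable fun r : ℝ × ℝ => Q4p i r.2 r.1 g :=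
          (Q4p_meas i hg).comp (f := fun r : ℝ × ℝ => (r.2, r.1)) (by fun_prop)
        exact h1.lintegral_prod_right'
      unfold ZI
      rw [lintegral_add_right _ (hmD (m + 2) hr.meas), lintegral_add_right _ (hmD (m + 1) hr.meas)]
      refine (add_le_add (add_le_add (k0 _ hN1 M f hf) (k1 _ hN1 M _ hr))
        (k2 _ hN1 M _ hr)).trans (le_of_eq ?_)
      ring
  refine ENNReal.le_of_forall_pos_le_add fun ε hε _ => ?_
  have hε' : (0:ℝ) < ε := hε
  set κ : ℝ := (ε : ℝ) / 2 with hκ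
  have hκ0 : 0 < κ := by positivity
  refine (key ((4 - q) / (q - 2) + κ) κ (by linarith) hκ0).trans ?_
  have e1 : (4 - q) / (q - 2) + κ + κ = (4 - q) / (q - 2) + ε := by
    rw [hκ]
    ring
  rw [e1, ENNReal.ofReal_add hg0 hε'.le, ENNReal.ofReal_coe_nnreal]

theorem exc_u (m : ℕ) {q : ℝ} (hq2 : 2 < q) (hq4 : q ≤ 4) {M : ℝ} {f : E 2 → ℂ} (hf : DS M f) :
    dimH {u : ℝ | 0 < u ∧ u < 1 ∧ NQ m q univ (su u) f = ⊤} ≤
      ENNReal.ofReal ((4 - q) / (q - 2)) := by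
  have hsub : {u : ℝ | 0 < u ∧ u < 1 ∧ NQ m q univ (su u) f = ⊤} ⊆
      ⋃ n : ℕ, {u ∈ Icc (1 / ((n : ℝ) + 3)) (1 - 1 / ((n : ℝ) + 3)) |
        NQ m q univ (su u) f = ⊤} := by
    rintro u ⟨h1, h2, hT⟩
    have h2' : 0 < 1 - u := by linarith
    obtain ⟨n, hn⟩ := exists_nat_gt (1 / u + 1 / (1 - u))
    have p1 : 0 < 1 / u := by positivity
    have p2 : 0 < 1 / (1 - u) := by positivity
    have q1 : 1 / u < n := by linarith
    have q2 : 1 / (1 - u) < n := by linarith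
    have hn0 : (0:ℝ) ≤ n := Nat.cast_nonneg n
    refine mem_iUnion.2 ⟨n, ⟨?_, ?_⟩, hT⟩
    · rw [div_lt_iff₀ h1] at q1
      rw [div_le_iff₀ (by linarith)]
      nlinarith
    · rw [div_lt_iff₀ h2'] at q2
      have : 1 / ((n:ℝ) + 3) ≤ 1 - u := by
        rw [div_le_iff₀ (by linarith)]
        nlinarith
      linarith
  refine (dimH_mono hsub).trans ?_
  rw [dimH_iUnion]
  refine iSup_le fun n => ?_
  have hn : (0:ℝ) ≤ n := Nat.cast_nonneg n
  have h3 : 1 / ((n : ℝ) + 3) ≤ 1 / 3 := by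
    apply one_div_le_one_div_of_le <;> linarith
  have h5 : 0 < 1 / ((n : ℝ) + 3) := by positivity
  exact exc_b m h5 (by linarith) (by linarith) hq2 hq4 hf

end Pool.Agent.W5h47.Iso
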