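import Mathlib
import Pool.Agent.W5h47.Iso.FinI
set_option autoImplicit false

/-! The averaged estimate for isotropic dilations. -/

namespace Pool.Agent.W5h47.Iso

open MeasureTheory Set Complex FourierTransform Filter
open scoped ENNReal NNReal RealInnerProductSpace Topology
open Pool.Agent.H153R4 (E BS ST ST_meas ST_vol cube cube_vol cube_meas interp)
open Pool.Agent.W777.DL (cS cS_lt cover_ST)
open Pool.Agent.W777.SP (BX kp kp_pos NQ_triv NQ_mono two_gs)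
open Pool.Agent.W777.ST (geo_sum)
open Pool.Agent.W203.SP (DS ee pw gs DM NQ S_MG a_MG)

lemma two_le {M : ℝ} {f : E 2 → ℂ} (hf : DS M f) :
    ∫⁻ z, ‖f z‖ₑ ^ 2 ≤ volume (cube 2) * ENNReal.ofReal (M ^ 2) := by
  have hM := Pool.Agent.W777.SP.DS.M0 hf
  have h1 : ∫⁻ z, ‖f z‖ₑ ^ 2 ≤ ∫⁻ z, (cube 2).indicator (fun _ => ENNReal.ofReal M ^ 2) z := by
    apply lintegral_mono
    intro z
    by_cases hz : z ∈ cube 2
    · rw [indicator_of_mem hz]
      apply pow_le_pow_left'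
      rw [← ofReal_norm]
      exact ENNReal.ofReal_le_ofReal (hf.bd z)
    · simp only
      rw [hf.supp z (Pool.Agent.W777.SP.ball_cube hz)]
      simp
  refine h1.trans (le_of_eq ?_)
  rw [lintegral_indicator (cube_meas 2), setLIntegral_const, ← ENNReal.ofReal_pow hM, mul_comm]

lemma one_le {M : ℝ} {f : E 2 → ℂ} (hf : DS M f) :
    ∫⁻ z, ‖f z‖ₑ ≤ volume (cube 2) * ENNReal.ofReal M := by
  have h1 : ∫⁻ z, ‖f z‖ₑ ≤ ∫⁻ z, (cube 2).indicator (fun _ => ENNReal.ofReal M) z := by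
    apply lintegral_mono
    intro z
    by_cases hz : z ∈ cube 2
    · rw [indicator_of_mem hz]
      change ‖f z‖ₑ ≤ ENNReal.ofReal M
      rw [← ofReal_norm]
      exact ENNReal.ofReal_le_ofReal (hf.bd z)
    · simp only
      rw [hf.supp z (Pool.Agent.W777.SP.ball_cube hz)]
      simp
  refine h1.trans (le_of_eq ?_)
  rw [lintegral_indicator (cube_meas 2), setLIntegral_const, mul_comm]

lemma NQ_mu (m : ℕ) (q : ℝ) (S : Set ℝ) {f : E 2 → ℂ} (hf : Measurable f) :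
    Measurable fun u : ℝ => NQ m q S (su u) f :=
  (Pool.Agent.W777.SP.mNQ a_MG m q S hf).comp (f := fun u : ℝ => su u) (by fun_prop)

lemma avg_prod (m : ℕ) (q a b : ℝ) (S : Set ℝ) {f : E 2 → ℂ} (hf : Measurable f) :
    ∫⁻ u in Icc a b, NQ m q S (su u) f = ∫⁻ w : (ℝ × ℝ) × E 2, ‖uu m w.1.1 w.1.2 f w.2‖ₑ ^ q
      ∂(((volume.restrict S).prod (volume.restrict (Icc a b))).prod volume) := by
  have h1 := ((uu_meas m hf).enorm.pow_const q)
  rw [lintegral_prod _ h1.aemeasurable, lintegral_prod_symm _ h1.lintegral_prod_right'.aemeasurable]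
  rfl

/-- a dyadic block of times -/
lemma avg_ST (m : ℕ) {q a b e : ℝ} (ha : 0 < a) (hab : a ≤ b) (hb : b < 1) (he : 0 < e)
    (hq2 : 2 ≤ q) (hq4 : q ≤ 4) : ∃ C : ℝ≥0∞, C < ⊤ ∧ ∀ T : ℝ, 1 ≤ T → ∀ (M : ℝ) (f : E 2 → ℂ),
      DS M f → ∫⁻ u in Icc a b, NQ m q (ST T) (su u) f ≤
        C * ENNReal.ofReal (T ^ ((4 - q) / 2 + (-1 + e) * ((q - 2) / 2))) *
          ENNReal.ofReal (M ^ q) := by
  obtain ⟨C4, hC4, h4⟩ := I4 m ha hb he
  have hb0 : 0 ≤ b := by linarith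
  have hkp := kp_pos hb
  set r : ℝ := 1 / kp b ^ m with hr
  have hr0 : 0 < r := by positivity
  set K : ℝ≥0∞ := ENNReal.ofReal (b - a) * (ENNReal.ofReal 2 * (ENNReal.ofReal r ^ 2 *
    volume (cube 2))) with hK
  have hKt : K < ⊤ := ENNReal.mul_lt_top ENNReal.ofReal_lt_top (ENNReal.mul_lt_top
    ENNReal.ofReal_lt_top (ENNReal.mul_lt_top (ENNReal.pow_lt_top ENNReal.ofReal_lt_top)
      (cube_vol 2)))
  have hθ0 : 0 ≤ (4 - q) / 2 := by linarith
  have hθ1 : 0 ≤ (q - 2) / 2 := by linarith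
  refine ⟨K ^ ((4 - q) / 2) * C4 ^ ((q - 2) / 2), ENNReal.mul_lt_top
    (ENNReal.rpow_lt_top_of_nonneg hθ0 hKt.ne) (ENNReal.rpow_lt_top_of_nonneg hθ1 hC4.ne), ?_⟩
  intro T hT M f hf
  have hM := Pool.Agent.W777.SP.DS.M0 hf
  have hT0 : 0 < T := by linarith
  have h := interp (((volume.restrict (ST T)).prod (volume.restrict (Icc a b))).prod
    (volume : Measure (E 2))) (fun w : (ℝ × ℝ) × E 2 => ‖uu m w.1.1 w.1.2 f w.2‖ₑ)
    (uu_meas m hf.meas).enorm q hq2 hq4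
  have e2 : ∫⁻ w : (ℝ × ℝ) × E 2, ‖uu m w.1.1 w.1.2 f w.2‖ₑ ^ 2
      ∂(((volume.restrict (ST T)).prod (volume.restrict (Icc a b))).prod volume) =
      ∫⁻ u in Icc a b, NQ m 2 (ST T) (su u) f := by
    rw [avg_prod m 2 a b (ST T) hf.meas]
    simp only [ENNReal.rpow_ofNat]
  have e4 : ∫⁻ w : (ℝ × ℝ) × E 2, ‖uu m w.1.1 w.1.2 f w.2‖ₑ ^ 4
      ∂(((volume.restrict (ST T)).prod (volume.restrict (Icc a b))).prod volume) =
      ∫⁻ u in Icc a b, DM m T (su u) f := by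
    have h5 := avg_prod m 4 a b (ST T) hf.meas
    simp only [ENNReal.rpow_ofNat] at h5
    rw [← h5]
    unfold NQ DM
    simp only [ENNReal.rpow_ofNat]
  rw [← avg_prod m q a b (ST T) hf.meas, e2, e4] at h
  have b2 : ∫⁻ u in Icc a b, NQ m 2 (ST T) (su u) f ≤
      K * ENNReal.ofReal T * ENNReal.ofReal (M ^ 2) := by
    have hp : ∀ u ∈ Icc a b, NQ m 2 (ST T) (su u) f ≤ ENNReal.ofReal (2 * T) *
        (ENNReal.ofReal r ^ 2 * (volume (cube 2) * ENNReal.ofReal (M ^ 2))) := by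
      intro u hu
      unfold NQ
      simp only [ENNReal.rpow_ofNat]
      calc ∫⁻ t in ST T, ∫⁻ x, ‖𝓕 (gs m t (su u) f) x‖ₑ ^ 2
          ≤ ∫⁻ _ in ST T, ENNReal.ofReal r ^ 2 * ∫⁻ z, ‖f z‖ₑ ^ 2 :=
            lintegral_mono fun t => two_gs m t hb0 hb (su_BX (ha.le.trans hu.1) hu.2) hf
        _ ≤ _ := by
            rw [lintegral_const, Measure.restrict_apply_univ, mul_comm]
            gcongr
            · exact ST_vol T hT0.le
            · exact two_le hf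
    refine (setLIntegral_mono' measurableSet_Icc hp).trans (le_of_eq ?_)
    rw [setLIntegral_const, Real.volume_Icc, hK, ENNReal.ofReal_mul (by norm_num : (0:ℝ) ≤ 2)]
    ring
  refine h.trans ?_
  calc (∫⁻ u in Icc a b, NQ m 2 (ST T) (su u) f) ^ ((4 - q) / 2) *
        (∫⁻ u in Icc a b, DM m T (su u) f) ^ ((q - 2) / 2)
      ≤ (K * ENNReal.ofReal T * ENNReal.ofReal (M ^ 2)) ^ ((4 - q) / 2) *
        (C4 * ENNReal.ofReal (T ^ (-1 + e)) * ENNReal.ofReal (M ^ 4)) ^ ((q - 2) / 2) :=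
        mul_le_mul' (ENNReal.rpow_le_rpow b2 hθ0) (ENNReal.rpow_le_rpow (h4 T hT M f hf) hθ1)
    _ = _ := by
        rw [ENNReal.mul_rpow_of_nonneg _ _ hθ0, ENNReal.mul_rpow_of_nonneg _ _ hθ0,
          ENNReal.mul_rpow_of_nonneg _ _ hθ1, ENNReal.mul_rpow_of_nonneg _ _ hθ1,
          ENNReal.ofReal_rpow_of_nonneg hT0.le hθ0, ENNReal.ofReal_rpow_of_nonneg (by positivity) hθ0,
          ENNReal.ofReal_rpow_of_nonneg (by positivity) hθ1,
          ENNReal.ofReal_rpow_of_nonneg (by positivity) hθ1, ← Real.rpow_mul hT0.le]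
        have eT : ENNReal.ofReal (T ^ ((4 - q) / 2 + (-1 + e) * ((q - 2) / 2))) =
            ENNReal.ofReal (T ^ ((4 - q) / 2)) *
              ENNReal.ofReal (T ^ ((-1 + e) * ((q - 2) / 2))) := by
          rw [← ENNReal.ofReal_mul (by positivity), ← Real.rpow_add hT0]
        have eM : ENNReal.ofReal (M ^ q) = ENNReal.ofReal ((M ^ 2) ^ ((4 - q) / 2)) *
            ENNReal.ofReal ((M ^ 4) ^ ((q - 2) / 2)) := by
          rw [← ENNReal.ofReal_mul (by positivity)]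
          congr 1
          rw [← Real.rpow_natCast M 2, ← Real.rpow_natCast M 4, ← Real.rpow_mul hM,
            ← Real.rpow_mul hM, ← Real.rpow_add_of_nonneg hM]
          · congr 1
            push_cast
            ring
          · push_cast
            linarith
          · push_cast
            linarith
        rw [eT, eM]
        ring

lemma Icc_avg (m : ℕ) {q a b : ℝ} (ha : 0 < a) (hb : b < 1) (hab : a ≤ b) (hq2 : 2 ≤ q) :
    ∃ C : ℝ≥0∞, C < ⊤ ∧ ∀ (M : ℝ) (f : E 2 → ℂ), DS M f →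
      ∫⁻ u in Icc a b, NQ m q (Icc (-1) 1) (su u) f ≤ C * ENNReal.ofReal (M ^ q) := by
  have hb0 : 0 ≤ b := by linarith
  have hkp := kp_pos hb
  set r : ℝ := 1 / kp b ^ m with hr
  have hr0 : 0 < r := by positivity
  set V : ℝ≥0∞ := volume (cube 2) with hV
  have hVt : V < ⊤ := cube_vol 2
  set K : ℝ≥0∞ := ENNReal.ofReal (b - a) * ((ENNReal.ofReal r * V) ^ (q - 2) *
    (ENNReal.ofReal 2 * (ENNReal.ofReal r ^ 2 * V))) with hK
  have hKt : K < ⊤ := by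
    refine ENNReal.mul_lt_top ENNReal.ofReal_lt_top (ENNReal.mul_lt_top ?_ ?_)
    · exact ENNReal.rpow_lt_top_of_nonneg (by linarith)
        (ENNReal.mul_lt_top ENNReal.ofReal_lt_top hVt).ne
    · exact ENNReal.mul_lt_top ENNReal.ofReal_lt_top (ENNReal.mul_lt_top
        (ENNReal.pow_lt_top ENNReal.ofReal_lt_top) hVt)
  refine ⟨K, hKt, fun M f hf => ?_⟩
  have hM := Pool.Agent.W777.SP.DS.M0 hf
  have hp : ∀ u ∈ Icc a b, NQ m q (Icc (-1) 1) (su u) f ≤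
      (ENNReal.ofReal r * (V * ENNReal.ofReal M)) ^ (q - 2) * (ENNReal.ofReal 2 *
        (ENNReal.ofReal r ^ 2 * (V * ENNReal.ofReal (M ^ 2)))) := by
    intro u hu
    refine (NQ_triv m hb0 hb (su_BX (ha.le.trans hu.1) hu.2) hq2 _ hf).trans ?_
    have h1 := one_le hf
    have h2 := two_le hf
    have h3 : volume (Icc (-1 : ℝ) 1) = ENNReal.ofReal 2 := by
      rw [Real.volume_Icc]
      norm_num
    rw [h3]
    refine mul_le_mul' (ENNReal.rpow_le_rpow (mul_le_mul' le_rfl h1) (by linarith)) ?_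
    exact mul_le_mul' le_rfl (mul_le_mul' le_rfl h2)
  refine (setLIntegral_mono' measurableSet_Icc hp).trans (le_of_eq ?_)
  rw [setLIntegral_const, Real.volume_Icc, hK]
  have e1 : (ENNReal.ofReal r * (V * ENNReal.ofReal M)) ^ (q - 2) =
      (ENNReal.ofReal r * V) ^ (q - 2) * ENNReal.ofReal (M ^ (q - 2)) := by
    rw [← mul_assoc, ENNReal.mul_rpow_of_nonneg _ _ (by linarith),
      ENNReal.ofReal_rpow_of_nonneg hM (by linarith)]
  have e2 : ENNReal.ofReal (M ^ q) = ENNReal.ofReal (M ^ (q - 2)) * ENNReal.ofReal (M ^ 2) := by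
    rw [← ENNReal.ofReal_mul (by positivity)]
    congr 1
    rw [← Real.rpow_natCast M 2, ← Real.rpow_add_of_nonneg hM (by linarith) (by positivity)]
    congr 1
    push_cast
    ring
  rw [e1, e2]
  ring

/-- the averaged estimate, exponents up to 4 -/
lemma avg_low (m : ℕ) {q a b : ℝ} (ha : 0 < a) (hb : b < 1) (hab : a ≤ b) (hq3 : 3 < q)
    (hq4 : q ≤ 4) : ∃ C : ℝ≥0∞, C < ⊤ ∧ ∀ (M : ℝ) (f : E 2 → ℂ), DS M f →
      ∫⁻ u in Icc a b, NQ m q univ (su u) f ≤ C * ENNReal.ofReal (M ^ q) := by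
  set e : ℝ := (q - 3) / (q - 2) with he
  have he0 : 0 < e := div_pos (by linarith) (by linarith)
  obtain ⟨C1, hC1, h1⟩ := Icc_avg m ha hb hab (q := q) (by linarith)
  obtain ⟨C2, hC2, h2⟩ := avg_ST m ha hab hb he0 (q := q) (by linarith) hq4
  have hexp : (4 - q) / 2 + (-1 + e) * ((q - 2) / 2) = -((q - 3) / 2) := by
    rw [he]
    have : q - 2 ≠ 0 := by linarith
    field_simp
    ring
  rw [hexp] at h2
  set G : ℝ≥0∞ := ∑' j : ℕ, ENNReal.ofReal (((2:ℝ) ^ j) ^ (-((q - 3) / 2))) with hG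
  have hGt : G < ⊤ := geo_sum (by linarith)
  refine ⟨C1 + C2 * G, ENNReal.add_lt_top.2 ⟨hC1, ENNReal.mul_lt_top hC2 hGt⟩, ?_⟩
  intro M f hf
  have hpt : ∀ u, NQ m q univ (su u) f ≤ NQ m q (Icc (-1) 1) (su u) f +
      ∑' j : ℕ, NQ m q (ST ((2 ^ j : ℕ) : ℝ)) (su u) f := by
    intro u
    unfold NQ
    refine (lintegral_mono_set cover_ST).trans ?_
    refine (lintegral_union_le _ _ _).trans ?_
    gcongr
    exact lintegral_iUnion_le _ _
  have hj : ∀ j : ℕ, ∫⁻ u in Icc a b, NQ m q (ST ((2 ^ j : ℕ) : ℝ)) (su u) f ≤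
      ENNReal.ofReal (((2:ℝ) ^ j) ^ (-((q - 3) / 2))) * (C2 * ENNReal.ofReal (M ^ q)) := by
    intro j
    have hN1 : (1:ℝ) ≤ ((2 ^ j : ℕ) : ℝ) := by exact_mod_cast Nat.one_le_two_pow
    refine (h2 _ hN1 M f hf).trans (le_of_eq ?_)
    push_cast
    ring
  calc ∫⁻ u in Icc a b, NQ m q univ (su u) f
      ≤ ∫⁻ u in Icc a b, (NQ m q (Icc (-1) 1) (su u) f +
          ∑' j : ℕ, NQ m q (ST ((2 ^ j : ℕ) : ℝ)) (su u) f) := lintegral_mono hpt
    _ = (∫⁻ u in Icc a b, NQ m q (Icc (-1) 1) (su u) f) +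
          ∑' j : ℕ, ∫⁻ u in Icc a b, NQ m q (ST ((2 ^ j : ℕ) : ℝ)) (su u) f := by
        rw [lintegral_add_left (NQ_mu m q _ hf.meas),
          lintegral_tsum fun j => (NQ_mu m q _ hf.meas).aemeasurable]
    _ ≤ C1 * ENNReal.ofReal (M ^ q) + ∑' j : ℕ,
          ENNReal.ofReal (((2:ℝ) ^ j) ^ (-((q - 3) / 2))) * (C2 * ENNReal.ofReal (M ^ q)) :=
        add_le_add (h1 M f hf) (ENNReal.tsum_le_tsum hj)
    _ = _ := by
        rw [ENNReal.tsum_mul_right, ← hG]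
        ring

/-- the averaged estimate -/
theorem avg_u (m : ℕ) {q a b : ℝ} (ha : 0 < a) (hb : b < 1) (hab : a ≤ b) (hq3 : 3 < q) :
    ∃ C : ℝ≥0∞, C < ⊤ ∧ ∀ (M : ℝ) (f : E 2 → ℂ), DS M f →
      ∫⁻ u in Icc a b, NQ m q univ (su u) f ≤ C * ENNReal.ofReal (M ^ q) := by
  rcases le_or_gt q 4 with hq4 | hq4
  · exact avg_low m ha hb hab hq3 hq4
  obtain ⟨C, hC, h⟩ := avg_low m ha hb hab (q := 4) (by norm_num) le_rfl
  have hb0 : 0 ≤ b := by linarith
  have hkp := kp_pos hb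
  set r : ℝ := 1 / kp b ^ m with hr
  have hr0 : 0 < r := by positivity
  set V : ℝ≥0∞ := volume (cube 2) with hV
  have hVt : V < ⊤ := cube_vol 2
  refine ⟨(ENNReal.ofReal r * V) ^ (q - 4) * C, ENNReal.mul_lt_top
    (ENNReal.rpow_lt_top_of_nonneg (by linarith) (ENNReal.mul_lt_top ENNReal.ofReal_lt_top
      hVt).ne) hC, ?_⟩
  intro M f hf
  have hM := Pool.Agent.W777.SP.DS.M0 hf
  have hi : ∫⁻ z, ‖f z‖ₑ ≠ ⊤ := (Pool.Agent.W777.SP.DS.BS hf).int.2.ne
  have hpt : ∀ u ∈ Icc a b, NQ m q univ (su u) f ≤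
      ((ENNReal.ofReal r * V) ^ (q - 4) * ENNReal.ofReal (M ^ (q - 4))) *
        NQ m 4 univ (su u) f := by
    intro u hu
    refine (NQ_mono m hb0 hb (by norm_num : (0:ℝ) ≤ 4) hq4.le
      (su_BX (ha.le.trans hu.1) hu.2) univ hf.supp hi).trans ?_
    refine mul_le_mul' ?_ le_rfl
    calc (ENNReal.ofReal (1 / kp b ^ m) * ∫⁻ z, ‖f z‖ₑ) ^ (q - 4)
        ≤ (ENNReal.ofReal r * V * ENNReal.ofReal M) ^ (q - 4) := by
          apply ENNReal.rpow_le_rpow _ (by linarith)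
          rw [mul_assoc]
          exact mul_le_mul' le_rfl (one_le hf)
      _ = _ := by
          rw [ENNReal.mul_rpow_of_nonneg _ _ (by linarith),
            ENNReal.ofReal_rpow_of_nonneg hM (by linarith)]
  have hK : (ENNReal.ofReal r * V) ^ (q - 4) * ENNReal.ofReal (M ^ (q - 4)) ≠ ⊤ :=
    ENNReal.mul_ne_top (ENNReal.rpow_ne_top_of_nonneg (by linarith)
      (ENNReal.mul_lt_top ENNReal.ofReal_lt_top hVt).ne) ENNReal.ofReal_ne_top
  refine (setLIntegral_mono' measurableSet_Icc hpt).trans ?_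
  rw [lintegral_const_mul' _ _ hK]
  refine (mul_le_mul' le_rfl (h M f hf)).trans (le_of_eq ?_)
  have e2 : ENNReal.ofReal (M ^ q) = ENNReal.ofReal (M ^ (q - 4)) * ENNReal.ofReal (M ^ (4:ℝ)) := by
    rw [← ENNReal.ofReal_mul (by positivity),
      ← Real.rpow_add_of_nonneg hM (by linarith) (by norm_num)]
    congr 2
    ring
  rw [e2]
  ring

end Pool.Agent.W5h47.Iso
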